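import Pool.Agent.TH954.Z.Defs
import Pool.Agent.TH954.X.ParR
import Pool.Agent.TH954.Y.Low

/-!
# The number of points of bounded height in a finitely generated subgroup of a product of
abelian varieties
-/

set_option autoImplicit false

open MvPolynomial Height Pool.Agent.TH942

namespace Pool.Agent.TH954.Z

namespace CntAux

open Pool.Agent.TH954.V Pool.Agent.TH954.Y

/-- coordinates on a finitely generated group with a height -/
theorem setup {A : Type} [AddCommGroup A] (Γ : AddSubgroup A) (hΓ : Γ.FG) (h q0 : A → ℝ)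
    (Cq : ℝ) (hCq : 0 ≤ Cq) (hq1 : ∀ P, |q0 P - h P| ≤ Cq) (hq2' : ∀ P, 0 ≤ q0 P)
    (hq3' : ∀ P Q, q0 (P + Q) + q0 (P - Q) = 2 * (q0 P + q0 Q))
    (hfin : ∀ T : ℝ, {P | P ∈ Γ ∧ h P ≤ T}.Finite) :
    ∃ (r : ℕ), Module.finrank ℤ Γ = r ∧
      (∃ (cd : Γ →+ (Fin r → ℤ)) (c1 c2 C : ℝ), 0 < c1 ∧ 0 ≤ c2 ∧ 0 ≤ C ∧
      (∀ P : Γ, c1 * ∑ i, (cd P i : ℝ) ^ 2 ≤ h P.1 + C) ∧
      (∀ P : Γ, h P.1 ≤ c2 * ∑ i, (cd P i : ℝ) ^ 2 + C)) ∧
      ∃ (s : (Fin r → ℤ) → Γ) (c2 C : ℝ), Function.Injective s ∧ 0 ≤ c2 ∧ 0 ≤ C ∧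
      ∀ c : Fin r → ℤ, h (s c).1 ≤ c2 * ∑ i, (c i : ℝ) ^ 2 + C := by
  classical
  have hfg : AddGroup.FG Γ := (AddGroup.fg_iff_addSubgroup_fg Γ).mpr hΓ
  obtain ⟨r, g, hg⟩ := exists_basis hfg
  have hr : Module.finrank ℤ Γ = r := by
    rw [card_basis hg, Fintype.card_fin]
  refine ⟨r, hr, ?_⟩
  set q : Γ → ℝ := fun P => q0 P.1 with hq
  have hq2 : ∀ P : Γ, 0 ≤ q P := fun P => hq2' P.1
  have hq3 : ∀ P Q : Γ, q (P + Q) + q (P - Q) = 2 * (q P + q Q) := fun P Q => hq3' P.1 Q.1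
  have hps : (gram q g).PosSemidef := by
    apply posSemidef_of_int' _ (gram_symm q g)
    intro c
    have := q_comb q hq3 g 0 IsOfFinAddOrder.zero c
    rw [add_zero] at this
    rw [← this]
    exact hq2 _
  obtain ⟨M, hM⟩ := exists_sqrt hps
  have hqM : ∀ c : Fin r → ℤ, q (∑ i, c i • g i) = ‖emb M (fun i => (c i : ℝ))‖ ^ 2 := by
    intro c
    have := q_comb q hq3 g 0 IsOfFinAddOrder.zero c
    rw [add_zero] at this
    rw [this, emb_gram hM]
  have hqfin : ∀ B : ℝ, {P | q P ≤ B}.Finite := by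
    intro B
    refine ((hfin (B + Cq)).preimage (f := fun P : Γ => P.1) Subtype.val_injective.injOn).subset ?_
    intro P hP
    simp only [Set.mem_ofPred_eq, Set.mem_preimage] at hP ⊢
    have := abs_le.1 (hq1 P.1)
    simp only [hq] at hP
    exact ⟨P.2, by linarith⟩
  have hginj : Function.Injective (fun c : Fin r → ℤ => ∑ i, c i • g i) := by
    intro c d hcd
    have h1 : TH942.crd hg (∑ i, c i • g i) = c := crd_eq hg (by
      rw [sub_self]; exact IsOfFinAddOrder.zero)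
    have h2 : TH942.crd hg (∑ i, d i • g i) = d := crd_eq hg (by
      rw [sub_self]; exact IsOfFinAddOrder.zero)
    simp only at hcd
    rw [← h1, ← h2, hcd]
  have hMfin : ∀ R : ℝ, {c : Fin r → ℤ | ‖emb M (fun i => (c i : ℝ))‖ ≤ R}.Finite := by
    intro R
    have h1 := (hqfin (R ^ 2)).preimage (f := fun c : Fin r → ℤ => ∑ i, c i • g i) hginj.injOn
    refine h1.subset ?_
    intro c hc
    simp only [Set.mem_ofPred_eq, Set.mem_preimage] at hc ⊢
    rw [hqM]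
    have := norm_nonneg (emb M (fun i => (c i : ℝ)))
    nlinarith
  have hdet := det_ne_zero_of_finite hMfin
  have hpd : (gram q g).PosDef := by
    rw [hM]
    exact Matrix.PosDef.conjTranspose_mul_self M
      (Matrix.mulVec_injective_of_isUnit ((Matrix.isUnit_iff_isUnit_det M).mpr
        (isUnit_iff_ne_zero.mpr hdet)))
  obtain ⟨c0, hc0, hc0'⟩ := coercive' _ hpd
  have hqP : ∀ P, q P = ∑ i, ∑ j, (TH942.crd hg P i : ℝ) * (TH942.crd hg P j : ℝ) *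
      gram q g i j := by
    intro P
    have h1 := q_comb q hq3 g _ (crd_spec hg P) (TH942.crd hg P)
    rw [add_sub_cancel] at h1
    exact h1
  set c2 : ℝ := ∑ i, ∑ j, |gram q g i j| with hc2
  have hc20 : 0 ≤ c2 := Finset.sum_nonneg (fun _ _ => Finset.sum_nonneg (fun _ _ => abs_nonneg _))
  have hbd : ∀ x : Fin r → ℤ, ∑ i, ∑ j, (x i : ℝ) * (x j : ℝ) * gram q g i j ≤
      c2 * ∑ i, (x i : ℝ) ^ 2 := by
    intro x
    rw [hc2, Finset.sum_mul]
    refine Finset.sum_le_sum (fun i _ => ?_)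
    rw [Finset.sum_mul]
    refine Finset.sum_le_sum (fun j _ => ?_)
    have h2 : ∀ i, (x i : ℝ) ^ 2 ≤ ∑ i, (x i : ℝ) ^ 2 := fun i =>
      Finset.single_le_sum (f := fun i => (x i : ℝ) ^ 2)
        (fun i _ => sq_nonneg _) (Finset.mem_univ i)
    have h3 : |(x i : ℝ) * (x j : ℝ)| ≤ ∑ i, (x i : ℝ) ^ 2 := by
      rw [abs_mul]
      have h4 := two_mul_le_add_sq |(x i : ℝ)| |(x j : ℝ)|
      rw [sq_abs, sq_abs] at h4
      have := h2 i
      have := h2 j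
      linarith
    calc _ ≤ |(x i : ℝ) * (x j : ℝ) * gram q g i j| := le_abs_self _
      _ = |(x i : ℝ) * (x j : ℝ)| * |gram q g i j| := abs_mul _ _
      _ ≤ (∑ i, (x i : ℝ) ^ 2) * |gram q g i j| :=
          mul_le_mul_of_nonneg_right h3 (abs_nonneg _)
      _ = _ := mul_comm _ _
  refine ⟨⟨crdHom hg, c0, c2, Cq, hc0, hc20, hCq, ?_, ?_⟩,
    fun c => ∑ i, c i • g i, c2, Cq, hginj, hc20, hCq, ?_⟩
  · intro P
    have h1 := hc0' (fun i => (TH942.crd hg P i : ℝ))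
    have h2 : ∑ i, ∑ k, (TH942.crd hg P i : ℝ) * gram q g i k * (TH942.crd hg P k : ℝ) = q P := by
      rw [hqP P]
      exact Finset.sum_congr rfl (fun i _ => Finset.sum_congr rfl (fun k _ => by ring))
    rw [h2] at h1
    have h3 := abs_le.1 (hq1 P.1)
    change c0 * ∑ i, (TH942.crd hg P i : ℝ) ^ 2 ≤ _
    simp only [hq] at h1
    linarith
  · intro P
    have h1 : q P ≤ c2 * ∑ i, (TH942.crd hg P i : ℝ) ^ 2 := by
      rw [hqP P]
      exact hbd _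
    have h3 := abs_le.1 (hq1 P.1)
    change _ ≤ c2 * ∑ i, (TH942.crd hg P i : ℝ) ^ 2 + _
    simp only [hq] at h1
    linarith
  · intro c
    have h1 : q (∑ i, c i • g i) ≤ c2 * ∑ i, (c i : ℝ) ^ 2 := by
      have h1 := q_comb q hq3 g 0 IsOfFinAddOrder.zero c
      rw [add_zero] at h1
      rw [h1]
      exact hbd _
    have h3 := abs_le.1 (hq1 (∑ i, c i • g i : Γ).1)
    change _ ≤ c2 * ∑ i, (c i : ℝ) ^ 2 + _
    simp only [hq] at h1
    linarith

/-- both bounds -/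
theorem both {A : Type} [AddCommGroup A] (Γ : AddSubgroup A) (hΓ : Γ.FG) (h q0 : A → ℝ)
    (Cq : ℝ) (hCq : 0 ≤ Cq) (hq1 : ∀ P, |q0 P - h P| ≤ Cq) (hq2' : ∀ P, 0 ≤ q0 P)
    (hq3' : ∀ P Q, q0 (P + Q) + q0 (P - Q) = 2 * (q0 P + q0 Q))
    (hfin : ∀ T : ℝ, {P | P ∈ Γ ∧ h P ≤ T}.Finite) :
    ∃ (c1 c2 T0 : ℝ), 0 < c1 ∧ 1 ≤ T0 ∧ ∀ T : ℝ, T0 ≤ T →
      {P | P ∈ Γ ∧ h P ≤ T}.Finite ∧
      c1 * T ^ ((Module.finrank ℤ Γ : ℝ) / 2) ≤ ({P | P ∈ Γ ∧ h P ≤ T}.ncard : ℝ) ∧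
      ({P | P ∈ Γ ∧ h P ≤ T}.ncard : ℝ) ≤ c2 * T ^ ((Module.finrank ℤ Γ : ℝ) / 2) := by
  obtain ⟨r, hr, ⟨cd, c1, c2, C, hc1, hc2, hC, h1, h2⟩, s, c2', C', hs, hc2', hC', h2'⟩ :=
    setup Γ hΓ h q0 Cq hCq hq1 hq2' hq3' hfin
  rw [hr]
  obtain ⟨D', hD'⟩ := PackAux.count Γ h r cd c1 c2 C hc1 hC h1 h2 hfin
  obtain ⟨D, hD0, hD⟩ : ∃ D : ℝ, 0 ≤ D ∧ h 0 ≤ D := ⟨|h 0|, abs_nonneg _, le_abs_self _⟩
  have hset : ∀ T : ℝ, {P | P ∈ Γ ∧ h P - D ≤ T} = {P | P ∈ Γ ∧ h P ≤ T + D} := by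
    intro T
    ext P
    simp only [Set.mem_ofPred_eq]
    constructor
    · rintro ⟨h3, h4⟩
      exact ⟨h3, by linarith⟩
    · rintro ⟨h3, h4⟩
      exact ⟨h3, by linarith⟩
  obtain ⟨c, hc, hc'⟩ := LowAux.count_low Γ (fun P => h P - D) r s hs c2' C' hc2' hC'
    (fun x => by
      have := h2' x
      linarith) (by linarith) (fun T => by
      rw [hset]
      exact hfin _)
  refine ⟨c * (1 / 2) ^ ((r : ℝ) / 2), D', 2 * D + 2, by positivity, by linarith, fun T hT =>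
    ⟨hfin T, ?_, hD' T (by linarith)⟩⟩
  have h3 := hc' (T - D) (by linarith)
  rw [hset, sub_add_cancel] at h3
  refine le_trans ?_ h3
  rw [mul_assoc]
  refine mul_le_mul_of_nonneg_left ?_ hc.le
  rw [← Real.mul_rpow (by norm_num) (by linarith)]
  exact Real.rpow_le_rpow (by linarith) (by linarith) (by positivity)

/-- the Northcott property -/
theorem north {K : Type} [Field K] [NumberField K] {n : ℕ} (A : Pool.Agent.TH954.X.AbR K n)
    (T : ℝ) : {P : A.Pt K | logHeight P.1 ≤ T}.Finite := by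
  have hfin : {x : K | logHeight₁ x ≤ T}.Finite := Northcott.finite_le T
  have h1 : (Set.univ.pi (fun _ : Fin n => {x : K | logHeight₁ x ≤ T})).Finite :=
    Set.Finite.pi' (fun _ => hfin) |>.subset (fun v hv i => hv i (Set.mem_univ i))
  refine (h1.preimage (f := fun P : A.Pt K => P.1) Subtype.val_injective.injOn).subset ?_
  intro P hP
  simp only [Set.mem_ofPred_eq, Set.mem_preimage] at hP ⊢
  intro j _
  obtain ⟨⟨i, hi, -⟩, -⟩ := P.2
  show logHeight₁ (P.1 j) ≤ T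
  have h2 : logHeight₁ (P.1 j) = logHeight (![P.1 j, 1] : Fin 2 → K) :=
    logHeight₁_eq_logHeight _
  have h3 : (![P.1 j, 1] : Fin 2 → K) = P.1 ∘ (![j, i] : Fin 2 → Fin n) := by
    funext k
    fin_cases k
    · rfl
    · exact hi.symm
  rw [h2, h3]
  exact (logHeight_comp_le _ _).trans hP

end CntAux

open CntAux

theorem cnt : T_cnt := by
  intro K _ _ n β A Γ hΓ
  have hcan : ∀ b, ∃ C : ℝ, 0 ≤ C ∧ ∃ q : (A b).Pt K → ℝ, (∀ P, 0 ≤ q P) ∧
      (∀ P Q, q (P + Q) + q (P - Q) = 2 * (q P + q Q)) ∧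
      (∀ P, |q P - logHeight P.1| ≤ C) := by
    intro b
    obtain ⟨C, hC, hC'⟩ := Pool.Agent.TH954.X.canA (A b).toAbR
    obtain ⟨q, hq1, hq2, hq3⟩ := hC' K
    exact ⟨C * Module.finrank ℚ K, by positivity, q, hq1, hq2, hq3⟩
  choose C hC q hq1 hq2 hq3 using hcan
  refine both Γ hΓ (fun P => ht P) (fun P => ∑ b, q b (P b)) (∑ b, C b)
    (Finset.sum_nonneg fun b _ => hC b) ?_ (fun P => Finset.sum_nonneg fun b _ => hq1 b _) ?_ ?_
  · intro P
    unfold ht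
    rw [← Finset.sum_sub_distrib]
    exact (Finset.abs_sum_le_sum_abs _ _).trans (Finset.sum_le_sum fun b _ => hq3 b (P b))
  · intro P Q
    rw [← Finset.sum_add_distrib, ← Finset.sum_add_distrib, Finset.mul_sum]
    exact Finset.sum_congr rfl fun b _ => hq2 b (P b) (Q b)
  · intro T
    have h1 : (Set.univ.pi (fun b => {P : (A b).Pt K | logHeight P.1 ≤ T})).Finite :=
      Set.Finite.pi' (fun b => north (A b).toAbR T) |>.subset
        (fun v hv i => hv i (Set.mem_univ i))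
    refine h1.subset ?_
    intro P hP b _
    show logHeight (P b).1 ≤ T
    refine le_trans ?_ hP.2
    exact Finset.single_le_sum (f := fun b => logHeight (vc P b))
      (fun b _ => logHeight_nonneg _) (Finset.mem_univ b)

end Pool.Agent.TH954.Z
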