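import Pool.Agent.TH954.Z.Defs

/-!
# Tuples of points of a dense subgroup in general position (job T_dense, helper416 for helper954)

The first sections are adapted from `Pool.Agent.TH954.X.Gen`.
-/

set_option autoImplicit false
set_option linter.unusedSectionVars false

open MvPolynomial Pool.Agent.TH954.X Pool.Agent.TH954.V
open scoped TensorProduct

namespace Pool.Agent.TH954.Z

namespace Dns

section pts

variable {K : Type} [Field K] {n : ℕ}

/-- `v` is the vector of a point -/
def Pv (B : AbV K n) {F : Type} [Field F] [Algebra K F] (v : Fin n → F) : Prop :=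
  Normed v ∧ ∀ i, aeval v (B.eqn i) = 0

lemma Pv.map {B : AbV K n} {F1 F2 : Type} [Field F1] [Algebra K F1] [Field F2] [Algebra K F2]
    (φ : F1 →ₐ[K] F2) {v : Fin n → F1} (h : Pv B v) : Pv B (fun c => φ (v c)) := by
  obtain ⟨⟨i, hi, hj⟩, h2⟩ := h
  have hev : ∀ g : MvPolynomial (Fin n) K, aeval (fun c => φ (v c)) g = φ (aeval v g) := by
    intro g
    rw [MvPolynomial.comp_aeval_apply]
  refine ⟨⟨i, by beta_reduce; rw [hi, map_one], fun j hj' => by
      beta_reduce; rw [hj j hj', map_zero]⟩, fun k => ?_⟩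
  rw [hev, h2 k, map_zero]

lemma common (K : Type) [Field K] (F1 F2 : Type) [Field F1] [Field F2] [Algebra K F1]
    [Algebra K F2] :
    ∃ (F3 : Type) (_ : Field F3) (_ : Algebra K F3),
      Nonempty (F1 →ₐ[K] F3) ∧ Nonempty (F2 →ₐ[K] F3) := by
  have hnt : Nontrivial (F1 ⊗[K] F2) :=
    Algebra.TensorProduct.nontrivial_of_algebraMap_injective_of_flat_left K F1 F2
      (algebraMap K F2).injective
  obtain ⟨M, hM⟩ := Ideal.exists_maximal (F1 ⊗[K] F2)
  let _ := Ideal.Quotient.field M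
  exact ⟨(F1 ⊗[K] F2) ⧸ M, inferInstance, inferInstance,
    ⟨(Ideal.Quotient.mkₐ K M).comp Algebra.TensorProduct.includeLeft⟩,
    ⟨(Ideal.Quotient.mkₐ K M).comp Algebra.TensorProduct.includeRight⟩⟩

end pts

section spec

variable {K : Type} [Field K] {n : ℕ} {ι : Type} [Fintype ι] [DecidableEq ι]

/-- the form in the group `i` obtained by specialising the other groups -/
noncomputable def spec {F : Type} [Field F] [Algebra K F] (i : ι) (v : ι → Fin n → F)
    (Φ : MvPolynomial (ι × Fin n) K) : MvPolynomial (Fin n) F :=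
  aeval (fun p : ι × Fin n => if p.1 = i then X p.2 else C (v p.1 p.2)) Φ

lemma spec_hom {F : Type} [Field F] [Algebra K F] (i : ι) (v : ι → Fin n → F)
    {Φ : MvPolynomial (ι × Fin n) K} {τ : ι → ℕ} (hΦ : MH τ Φ) :
    (spec i v Φ).IsHomogeneous (τ i) := by
  unfold spec
  rw [aeval_def, eval₂_eq']
  refine IsHomogeneous.sum _ _ _ (fun m hm => ?_)
  have h1 : (∏ p : ι × Fin n, (if p.1 = i then (X p.2 : MvPolynomial (Fin n) F)
      else C (v p.1 p.2)) ^ m p).IsHomogeneous (∑ p : ι × Fin n, (if p.1 = i then m p else 0)) := by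
    refine IsHomogeneous.prod _ _ _ (fun p _ => ?_)
    split_ifs with h
    · exact isHomogeneous_X_pow _ _
    · rw [← C_pow]
      exact isHomogeneous_C _ _
  have h2 : ∑ p : ι × Fin n, (if p.1 = i then m p else 0) = τ i := by
    rw [Fintype.sum_prod_type, Finset.sum_eq_single i]
    · simp only [if_true]
      exact hΦ m hm i
    · intro j _ hj
      simp [hj]
    · simp
  rw [h2] at h1
  have h3 : algebraMap K (MvPolynomial (Fin n) F) (coeff m Φ) =
      C (algebraMap K F (coeff m Φ)) := rfl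
  rw [h3]
  exact h1.C_mul _

lemma spec_eval {F F' : Type} [Field F] [Algebra K F] [Field F'] [Algebra K F'] [Algebra F F']
    [IsScalarTower K F F'] (i : ι) (v : ι → Fin n → F) (Φ : MvPolynomial (ι × Fin n) K)
    (x : Fin n → F') :
    aeval x (spec i v Φ) =
      ev Φ (fun j => if j = i then x else fun c => algebraMap F F' (v j c)) := by
  unfold spec ev
  have h := MvPolynomial.comp_aeval_apply
    (f := fun p : ι × Fin n => if p.1 = i then (X p.2 : MvPolynomial (Fin n) F)
      else C (v p.1 p.2)) ((aeval x : MvPolynomial (Fin n) F →ₐ[F] F').restrictScalars K) Φ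
  refine (h.trans ?_)
  congr 1
  congr 1
  funext p
  by_cases hp : p.1 = i
  · simp [hp]
  · simp [hp]

lemma spec_self {F : Type} [Field F] [Algebra K F] (i : ι) (v : ι → Fin n → F)
    (Φ : MvPolynomial (ι × Fin n) K) : aeval (v i) (spec i v Φ) = ev Φ v := by
  rw [spec_eval]
  congr 1
  funext j
  by_cases hj : j = i
  · subst hj; simp
  · simp [hj]

end spec

section main

variable {K : Type} [Field K] {n : ℕ} {ι : Type} [Fintype ι]

/-- `Φ` does not vanish identically on the product -/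
def N (C : ι → AbV K n) (Φ : MvPolynomial (ι × Fin n) K) : Prop :=
  ∃ (F : Type) (_ : Field F) (_ : Algebra K F) (v : ι → Fin n → F),
    (∀ i, Pv (C i) (v i)) ∧ ev Φ v ≠ 0

open Classical in
lemma agree (C : ι → AbV K n) {Φ Ψ : MvPolynomial (ι × Fin n) K}
    {τ σ : ι → ℕ} (hΦ : MH τ Φ) (hΨ : MH σ Ψ) (h1 : N C Φ) (h2 : N C Ψ) (T : Finset ι) :
    ∃ (F : Type) (_ : Field F) (_ : Algebra K F) (v w : ι → Fin n → F),
      (∀ i, Pv (C i) (v i)) ∧ (∀ i, Pv (C i) (w i)) ∧ ev Φ v ≠ 0 ∧ ev Ψ w ≠ 0 ∧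
      ∀ i ∈ T, v i = w i := by
  induction T using Finset.induction_on with
  | empty =>
    obtain ⟨F1, _, _, v, hv, hv'⟩ := h1
    obtain ⟨F2, _, _, w, hw, hw'⟩ := h2
    obtain ⟨F3, _, _, ⟨φ⟩, ⟨ψ⟩⟩ := common K F1 F2
    refine ⟨F3, inferInstance, inferInstance, fun i c => φ (v i c), fun i c => ψ (w i c),
      fun i => (hv i).map φ, fun i => (hw i).map ψ, ?_, ?_, by simp⟩
    · have : ev Φ (fun i c => φ (v i c)) = φ (ev Φ v) := by
        unfold ev
        rw [MvPolynomial.comp_aeval_apply]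
      rw [this]
      exact fun h => hv' ((map_eq_zero φ).1 h)
    · have : ev Ψ (fun i c => ψ (w i c)) = ψ (ev Ψ w) := by
        unfold ev
        rw [MvPolynomial.comp_aeval_apply]
      rw [this]
      exact fun h => hw' ((map_eq_zero ψ).1 h)
  | insert a T ha ih =>
    obtain ⟨F, iF, iA, v, w, hv, hw, hvΦ, hwΨ, hT⟩ := ih
    have hg : (C a).toAbR.NonZ F (spec a v Φ) := by
      refine ⟨F, iF, iA, Algebra.id F, inferInstance, ⟨v a, hv a⟩, ?_⟩
      change aeval (v a) (spec a v Φ) ≠ 0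
      rw [spec_self]
      exact hvΦ
    have hh : (C a).toAbR.NonZ F (spec a w Ψ) := by
      refine ⟨F, iF, iA, Algebra.id F, inferInstance, ⟨w a, hw a⟩, ?_⟩
      change aeval (w a) (spec a w Ψ) ≠ 0
      rw [spec_self]
      exact hwΨ
    obtain ⟨F', iF', iKF', iFF', itower, P, hP⟩ :=
      (C a).irr F _ _ _ _ (spec_hom a v hΦ) (spec_hom a w hΨ) hg hh
    rw [map_mul, spec_eval, spec_eval] at hP
    let φ : F →ₐ[K] F' := IsScalarTower.toAlgHom K F F'
    refine ⟨F', iF', iKF', _, _, ?_, ?_, left_ne_zero_of_mul hP, right_ne_zero_of_mul hP, ?_⟩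
    · intro j
      by_cases hj : j = a
      · subst hj
        rw [if_pos rfl]
        exact P.2
      · rw [if_neg hj]
        exact (hv j).map φ
    · intro j
      by_cases hj : j = a
      · subst hj
        rw [if_pos rfl]
        exact P.2
      · rw [if_neg hj]
        exact (hw j).map φ
    · intro j hj
      by_cases hja : j = a
      · rw [if_pos hja, if_pos hja]
      · rw [if_neg hja, if_neg hja]
        rw [hT j ((Finset.mem_insert.1 hj).resolve_left hja)]

lemma N_mul (C : ι → AbV K n) {Φ Ψ : MvPolynomial (ι × Fin n) K}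
    {τ σ : ι → ℕ} (hΦ : MH τ Φ) (hΨ : MH σ Ψ) (h1 : N C Φ) (h2 : N C Ψ) : N C (Φ * Ψ) := by
  obtain ⟨F, iF, iA, v, w, hv, hw, hvΦ, hwΨ, hT⟩ := agree C hΦ hΨ h1 h2 Finset.univ
  have hvw : v = w := funext fun i => hT i (Finset.mem_univ i)
  subst hvw
  refine ⟨F, iF, iA, v, hv, ?_⟩
  have : ev (Φ * Ψ) v = ev Φ v * ev Ψ v := by
    unfold ev
    rw [map_mul]
  rw [this]
  exact mul_ne_zero hvΦ hwΨ

lemma N_prod (C : ι → AbV K n) (h0 : N C 1) {A : Type}
    (S : Finset A) (Φ : A → MvPolynomial (ι × Fin n) K) (hS : ∀ a ∈ S, ∃ τ, MH τ (Φ a))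
    (hN : ∀ a ∈ S, N C (Φ a)) : (∃ τ, MH τ (∏ a ∈ S, Φ a)) ∧ N C (∏ a ∈ S, Φ a) := by
  classical
  induction S using Finset.induction_on with
  | empty =>
    rw [Finset.prod_empty]
    exact ⟨⟨_, MH_one⟩, h0⟩
  | insert a S ha ih =>
    rw [Finset.prod_insert ha]
    obtain ⟨⟨τ, hτ⟩, h2⟩ := ih (fun b hb => hS b (Finset.mem_insert_of_mem hb))
      (fun b hb => hN b (Finset.mem_insert_of_mem hb))
    obtain ⟨σ, hσ⟩ := hS a (Finset.mem_insert_self _ _)
    exact ⟨⟨_, MH_mul hσ hτ⟩, N_mul C hσ hτ (hN a (Finset.mem_insert_self _ _)) h2⟩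

end main

section gen

variable {K : Type} [Field K] {ι κ : Type} [Fintype ι] [Fintype κ] {n : ℕ}

open Classical in
lemma MH_X (i : ι) (c : Fin n) :
    MH (fun j => if i = j then 1 else 0) (X (i, c) : MvPolynomial (ι × Fin n) K) := by
  intro m hm j
  rw [support_X, Finset.mem_singleton] at hm
  subst hm
  by_cases hj : i = j
  · subst hj
    beta_reduce
    rw [if_pos rfl, Finset.sum_eq_single c]
    · simp
    · intro d _ hd
      rw [Finsupp.single_apply, if_neg]
      intro h
      exact hd (Prod.ext_iff.1 h).2.symm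
    · simp
  · beta_reduce
    rw [if_neg hj]
    refine Finset.sum_eq_zero (fun d _ => ?_)
    rw [Finsupp.single_apply, if_neg]
    intro h
    exact hj (Prod.ext_iff.1 h).1

/-- substitution of groups -/
noncomputable def pull (φ : κ → ι) (g : MvPolynomial (κ × Fin n) K) :
    MvPolynomial (ι × Fin n) K :=
  cmp g (fun l c => X (φ l, c))

lemma MH_pull (φ : κ → ι) {d : κ → ℕ} {g : MvPolynomial (κ × Fin n) K} (hg : MH d g) :
    ∃ σ, MH σ (pull φ g) := by
  classical
  refine ⟨fun j => ∑ l, d l * if φ l = j then 1 else 0, ?_⟩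
  unfold pull
  convert MH_cmp hg (fun l c => X (φ l, c)) (fun l j => if φ l = j then 1 else 0)
    (fun l c => by convert MH_X (K := K) (φ l) c)

lemma ev_pull {F : Type} [Field F] [Algebra K F] (φ : κ → ι) (g : MvPolynomial (κ × Fin n) K)
    (u : ι → Fin n → F) : ev (pull φ g) u = ev g (fun l => u (φ l)) := by
  unfold pull
  rw [ev_cmp]
  congr 1
  funext l c
  simp [ev]

end gen

section slot

variable {K : Type} [Field K] {n β : ℕ}

/-- base change -/
def bc {A : Fin β → AbV K n} (F : Type) [Field F] [Algebra K F] (P : Bp A K) : Bp A F :=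
  fun b => ⟨fun c => algebraMap K F ((P b).1 c),
    Pv.map (B := A b) (Algebra.ofId K F) (P b).2⟩

/-- the monomial of the block `l` -/
def mon {F : Type} [Field F] {L : ℕ} (M : ((Fin L × Fin β) × Fin n) →₀ ℕ) (l : Fin L)
    (x : Fin β → Fin n → F) : F :=
  ∏ r : Fin β × Fin n, x r.1 r.2 ^ M ((l, r.1), r.2)

lemma ev_blocks {F : Type} [Field F] [Algebra K F] {L : ℕ}
    (Ψ : MvPolynomial ((Fin L × Fin β) × Fin n) K) (U : Fin L × Fin β → Fin n → F) :
    ev Ψ U = ∑ M ∈ Ψ.support, algebraMap K F (coeff M Ψ) *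
      ∏ l, mon M l (fun b => U (l, b)) := by
  rw [ev_expand]
  refine Finset.sum_congr rfl fun M _ => ?_
  congr 1
  rw [Fintype.prod_prod_type, Fintype.prod_prod_type]
  refine Finset.prod_congr rfl fun l _ => ?_
  unfold mon
  rw [Fintype.prod_prod_type]

lemma mon_bc {A : Fin β → AbV K n} (F : Type) [Field F] [Algebra K F] (P : Bp A K) {L : ℕ}
    (M : ((Fin L × Fin β) × Fin n) →₀ ℕ) (l : Fin L) :
    mon M l (vc (bc F P)) = algebraMap K F (mon M l (vc P)) := by
  unfold mon
  rw [map_prod]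
  refine Finset.prod_congr rfl fun r _ => ?_
  rw [map_pow]
  rfl

/-- the exponents in the block `a` -/
noncomputable def ea {L : ℕ} (a : Fin L) (M : ((Fin L × Fin β) × Fin n) →₀ ℕ) :
    (Fin β × Fin n) →₀ ℕ :=
  Finsupp.equivFunOnFinite.symm (fun p => M ((a, p.1), p.2))

lemma ev_mono {F : Type} [Field F] [Algebra K F] {L : ℕ} (a : Fin L)
    (M : ((Fin L × Fin β) × Fin n) →₀ ℕ) (z : K) (u : Fin β → Fin n → F) :
    ev (monomial (ea a M) z) u = algebraMap K F z * mon M a u := by
  unfold ev mon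
  rw [aeval_monomial, Finsupp.prod_fintype _ _ (fun _ => pow_zero _)]
  rfl

lemma slot {A : Fin β → AbV K n} {Γ : AddSubgroup (Bp A K)} (hΓ : DenseB A Γ) {L : ℕ}
    {Ψ : MvPolynomial ((Fin L × Fin β) × Fin n) K} {σ : Fin L × Fin β → ℕ} (hΨ : MH σ Ψ)
    {F : Type} [Field F] [Algebra K F] (Q : Fin L → Bp A F) (a : Fin L)
    (hQ : ev Ψ (vcT Q) ≠ 0) :
    ∃ P ∈ Γ, ev Ψ (vcT (Function.update Q a (bc F P))) ≠ 0 := by
  classical
  by_contra hcon
  push Not at hcon
  let b := Module.Basis.ofVectorSpace K F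
  let r : (((Fin L × Fin β) × Fin n) →₀ ℕ) → F := fun M =>
    algebraMap K F (coeff M Ψ) * ∏ l ∈ Finset.univ.erase a, mon M l (vc (Q l))
  have hval : ∀ Y : Bp A F, ev Ψ (vcT (Function.update Q a Y)) =
      ∑ M ∈ Ψ.support, r M * mon M a (vc Y) := by
    intro Y
    rw [ev_blocks]
    refine Finset.sum_congr rfl fun M _ => ?_
    have h1 : (fun b => vcT (Function.update Q a Y) (a, b)) = vc Y := by
      funext b
      simp [vcT, vc]
    have h2 : ∏ l ∈ Finset.univ.erase a, mon M l (fun b => vcT (Function.update Q a Y) (l, b)) =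
        ∏ l ∈ Finset.univ.erase a, mon M l (vc (Q l)) := by
      refine Finset.prod_congr rfl fun l hl => ?_
      have hla : l ≠ a := (Finset.mem_erase.1 hl).1
      congr 1
      funext b
      simp [vcT, vc, hla]
    rw [← Finset.mul_prod_erase Finset.univ _ (Finset.mem_univ a), h1, h2]
    simp only [r]
    ring
  let G := fun α => ∑ M ∈ Ψ.support, monomial (ea a M) (b.repr (r M) α)
  have hGMH : ∀ α, MH (fun c => σ (a, c)) (G α) := by
    intro α
    refine MH_sum _ _ _ fun M hM => ?_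
    intro m hm j
    have hm2 := Finset.mem_of_subset support_monomial_subset hm
    rw [Finset.mem_singleton] at hm2
    rw [hm2]
    exact hΨ M hM (a, j)
  have hGev : ∀ α (F' : Type) [Field F'] [Algebra K F'] (u : Fin β → Fin n → F'),
      ev (G α) u = ∑ M ∈ Ψ.support, algebraMap K F' (b.repr (r M) α) * mon M a u := by
    intro α F' _ _ u
    have h1 : ev (G α) u = ∑ M ∈ Ψ.support, ev (monomial (ea a M) (b.repr (r M) α)) u := by
      simp only [G, ev, map_sum]
    rw [h1]
    exact Finset.sum_congr rfl fun M _ => ev_mono a M _ u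
  have hG0 : ∀ α, ev (G α) (vc (Q a)) = 0 := by
    intro α
    by_contra hne
    refine hΓ (G α) _ (hGMH α) (fun P hP => ?_) ⟨F, inferInstance, inferInstance, Q a, hne⟩
    have h1 := hcon P hP
    rw [hval] at h1
    have h2 : ∑ M ∈ Ψ.support, mon M a (vc P) • r M = 0 := by
      rw [← h1]
      refine Finset.sum_congr rfl fun M _ => ?_
      rw [mon_bc, Algebra.smul_def, mul_comm]
    have h3 := congrArg (fun y => b.repr y α) h2
    simp only [map_sum, map_smul, map_zero, Finsupp.coe_zero, Pi.zero_apply,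
      Finsupp.finsetSum_apply, Finsupp.smul_apply, smul_eq_mul] at h3
    rw [hGev, ← h3]
    refine Finset.sum_congr rfl fun M _ => ?_
    rw [Algebra.algebraMap_self_apply, mul_comm]
  apply hQ
  have h0 := hval (Q a)
  rw [Function.update_eq_self] at h0
  rw [h0]
  set W := Ψ.support.biUnion (fun M => (b.repr (r M)).support) with hW
  have hr : ∀ M ∈ Ψ.support, r M = ∑ α ∈ W, algebraMap K F (b.repr (r M) α) * b α := by
    intro M hM
    have h1 := b.linearCombination_repr (r M)
    rw [Finsupp.linearCombination_apply] at h1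
    have h2 := Finsupp.sum_of_support_subset (b.repr (r M)) (s := W)
      (Finset.subset_biUnion_of_mem (fun M => (b.repr (r M)).support) hM)
      (fun i z => z • b i) (fun _ _ => zero_smul _ _)
    exact (h1.symm.trans h2).trans (Finset.sum_congr rfl fun α _ => Algebra.smul_def _ _)
  have h5 : ∑ M ∈ Ψ.support, r M * mon M a (vc (Q a)) =
      ∑ α ∈ W, b α * ev (G α) (vc (Q a)) := by
    have h6 : ∀ M ∈ Ψ.support, r M * mon M a (vc (Q a)) =
        ∑ α ∈ W, b α * (algebraMap K F (b.repr (r M) α) * mon M a (vc (Q a))) := by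
      intro M hM
      conv_lhs => rw [hr M hM]
      rw [Finset.sum_mul]
      refine Finset.sum_congr rfl fun α _ => ?_
      ring
    rw [Finset.sum_congr rfl h6, Finset.sum_comm]
    refine Finset.sum_congr rfl fun α _ => ?_
    rw [hGev, Finset.mul_sum]
  rw [h5]
  exact Finset.sum_eq_zero fun α _ => by rw [hG0, mul_zero]

/-- products of a dense subgroup are dense -/
lemma dens {A : Fin β → AbV K n} {Γ : AddSubgroup (Bp A K)} (hΓ : DenseB A Γ) {L : ℕ}
    {Ψ : MvPolynomial ((Fin L × Fin β) × Fin n) K} {σ : Fin L × Fin β → ℕ} (hΨ : MH σ Ψ)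
    {F : Type} [Field F] [Algebra K F] (Q0 : Fin L → Bp A F) (hQ0 : ev Ψ (vcT Q0) ≠ 0) :
    ∃ q : Fin L → Bp A K, (∀ l, q l ∈ Γ) ∧ ev Ψ (vcT q) ≠ 0 := by
  classical
  have key : ∀ T : Finset (Fin L), ∃ q : Fin L → Bp A K, (∀ l, q l ∈ Γ) ∧
      ∃ Q : Fin L → Bp A F, (∀ l ∈ T, Q l = bc F (q l)) ∧ ev Ψ (vcT Q) ≠ 0 := by
    intro T
    induction T using Finset.induction_on with
    | empty => exact ⟨fun _ => 0, fun _ => Γ.zero_mem, Q0, by simp, hQ0⟩
    | insert a T ha ih =>
      obtain ⟨q, hq, Q, hQ, hne⟩ := ih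
      obtain ⟨P, hP, hne2⟩ := slot hΓ hΨ Q a hne
      refine ⟨Function.update q a P, fun l => ?_, Function.update Q a (bc F P), fun l hl => ?_,
        hne2⟩
      · by_cases hl : l = a
        · subst hl
          rw [Function.update_self]
          exact hP
        · rw [Function.update_of_ne hl]
          exact hq l
      · by_cases hla : l = a
        · subst hla
          rw [Function.update_self, Function.update_self]
        · rw [Function.update_of_ne hla, Function.update_of_ne hla]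
          exact hQ l ((Finset.mem_insert.1 hl).resolve_left hla)
  obtain ⟨q, hq, Q, hQ, hne⟩ := key Finset.univ
  refine ⟨q, hq, fun h0 => hne ?_⟩
  have h1 : vcT Q = fun p c => algebraMap K F (vcT q p c) := by
    funext p c
    unfold vcT
    rw [hQ p.1 (Finset.mem_univ _)]
    rfl
  have h2 : ev Ψ (fun p c => algebraMap K F (vcT q p c)) = algebraMap K F (ev Ψ (vcT q)) := by
    unfold ev
    exact (MvPolynomial.comp_aeval_apply (f := fun p : (Fin L × Fin β) × Fin n => vcT q p.1 p.2)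
      (Algebra.ofId K F) Ψ).symm
  rw [h1, h2, h0, map_zero]

end slot

end Dns

open Dns in
theorem dense : T_dense := by
  intro K _ n β A Γ hΓ d Φ τ hΦ hNZ L
  classical
  obtain ⟨F0, iF0, iA0, Q, hQ⟩ := hNZ
  let C : Fin L × Fin β → AbV K n := fun p => A p.2
  let Ψe : (Fin d ↪ Fin L) → MvPolynomial ((Fin L × Fin β) × Fin n) K := fun e =>
    pull (fun p : Fin d × Fin β => (e p.1, p.2)) Φ
  have hev : ∀ (F : Type) [Field F] [Algebra K F] (e : Fin d ↪ Fin L) (q : Fin L → Bp A F),
      ev (Ψe e) (vcT q) = ev Φ (vcT (fun j => q (e j))) := by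
    intro F _ _ e q
    simp only [Ψe]
    rw [ev_pull]
    rfl
  have hN1 : N C 1 := by
    refine ⟨K, inferInstance, inferInstance, fun p => ((0 : Bp A K) p.2).1,
      fun p => ((0 : Bp A K) p.2).2, ?_⟩
    unfold ev
    rw [map_one]
    exact one_ne_zero
  have hNe : ∀ e, N C (Ψe e) := by
    intro e
    let Q' : Fin L → Bp A F0 := fun l => if h : ∃ j, e j = l then Q h.choose else 0
    have hQ' : ∀ j, Q' (e j) = Q j := by
      intro j
      have h : ∃ j', e j' = e j := ⟨j, rfl⟩
      simp only [Q']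
      rw [dif_pos h]
      congr 1
      exact e.injective h.choose_spec
    refine ⟨F0, iF0, iA0, vcT Q', fun p => (Q' p.1 p.2).2, ?_⟩
    rw [hev]
    have h1 : (fun j => Q' (e j)) = Q := funext hQ'
    rw [h1]
    exact hQ
  obtain ⟨⟨σ, hσ⟩, F, iF, iA, v, hv, hne⟩ := N_prod C hN1 Finset.univ Ψe
    (fun e _ => MH_pull _ hΦ) (fun e _ => hNe e)
  obtain ⟨q, hq, hq2⟩ := dens hΓ hσ (F := F) (fun l b => ⟨v (l, b), hv (l, b)⟩) hne
  refine ⟨q, hq, fun e => ?_⟩
  have h1 : ev (∏ e, Ψe e) (vcT q) = ∏ e, ev (Ψe e) (vcT q) := by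
    unfold ev
    rw [map_prod]
  rw [h1] at hq2
  have h2 := Finset.prod_ne_zero_iff.1 hq2 e (Finset.mem_univ e)
  rwa [hev] at h2

end Pool.Agent.TH954.Z
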