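import Pool.Agent.TH954.Z.Defs
import Pool.Agent.TH954.X.LocX
import Pool.Agent.TH954.X.Gen

/-!
# Translates of a proper closed subset in general position (target `T_gp`)
(job of helper954, written by helper9)
-/

set_option autoImplicit false
set_option linter.unusedSectionVars false

open MvPolynomial Pool.Agent.TH954.X Pool.Agent.TH954.V

namespace Pool.Agent.TH954.Z

namespace Gp

section rk

variable {K L : Type} [Field K] [Field L] [Algebra K L]

open AlgebraicIndependent in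
lemma eRk_iUnion_le {J : Type} (T : Finset J) (G : J → Set L) (a : J → ℕ)
    (hG : ∀ j, (matroid K L).eRk (G j) ≤ (a j : ℕ∞)) :
    (matroid K L).eRk (⋃ j ∈ T, G j) ≤ ((∑ j ∈ T, a j : ℕ) : ℕ∞) := by
  classical
  induction T using Finset.induction_on with
  | empty => simp
  | insert j T hj ih =>
    rw [Finset.set_biUnion_insert, Finset.sum_insert hj]
    refine ((matroid K L).eRk_union_le_eRk_add_eRk _ _).trans ?_
    push_cast at ih ⊢
    exact add_le_add (hG j) ih

open AlgebraicIndependent in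
lemma eRk_le_of_trdeg (G : Set L) (a : ℕ)
    (h : Algebra.trdeg K (IntermediateField.adjoin K G) ≤ (a : Cardinal)) :
    (matroid K L).eRk G ≤ (a : ℕ∞) := by
  obtain ⟨B, hB⟩ := (matroid K L).exists_isBasis G
  rw [← hB.encard_eq_eRk]
  have h1 : AlgebraicIndepOn K id B := (matroid_isBasis_iff.mp hB).1
  have h2 : B ⊆ G := hB.subset
  let v : B → IntermediateField.adjoin K G := fun b => ⟨b.1, IntermediateField.subset_adjoin K G (h2 b.2)⟩
  have h3 : AlgebraicIndependent K v := by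
    rw [← AlgHom.algebraicIndependent_iff (IntermediateField.adjoin K G).val
      (IntermediateField.adjoin K G).val.injective]
    exact h1
  have h4 := h3.cardinalMk_le_trdeg.trans h
  rw [Set.encard, ENat.card]
  have h5 : Cardinal.toENat (Cardinal.mk B) ≤ Cardinal.toENat (a : Cardinal) :=
    Cardinal.toENat.monotone' h4
  simpa using h5

open AlgebraicIndependent in
lemma mem_closure_of_mem_adjoin (T : Set L) {x : L} (hx : x ∈ IntermediateField.adjoin K T) :
    x ∈ (matroid K L).closure T := by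
  rw [matroid_closure_eq]
  rw [SetLike.mem_coe, Subalgebra.mem_algebraicClosure]
  open scoped IntermediateField.algebraAdjoinAdjoin in
  have h4 : Algebra.IsAlgebraic (Algebra.adjoin K T) (IntermediateField.adjoin K T) := inferInstance
  open scoped IntermediateField.algebraAdjoinAdjoin in
  exact (h4.isAlgebraic ⟨x, hx⟩).algebraMap

open AlgebraicIndependent in
/-- too many elements of a field generated by fields of small transcendence degree -/
lemma dep {I I0 J : Type} [Fintype I] [Fintype I0] [Fintype J] (s0 : I0 → L) (G : J → Set L)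
    (a : J → ℕ)
    (hG : ∀ j, Algebra.trdeg K (IntermediateField.adjoin K (G j)) ≤ (a j : Cardinal))
    (v : I → L) (hv : ∀ i, v i ∈ IntermediateField.adjoin K (Set.range s0 ∪ ⋃ j, G j))
    (hcard : Fintype.card I0 + ∑ j, a j < Fintype.card I) : ¬ AlgebraicIndependent K v := by
  intro h
  have h1 : (matroid K L).Indep (Set.range v) := by
    rw [matroid_indep_iff]
    exact h.to_subtype_range
  have h2 : (Set.range v).encard = (Fintype.card I : ℕ∞) := by
    rw [← Set.image_univ, (h.injective).injOn.encard_image]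
    simp
  have h3 : (matroid K L).eRk (Set.range v) ≤ ((Fintype.card I0 + ∑ j, a j : ℕ) : ℕ∞) := by
    have h4 : Set.range v ⊆ (matroid K L).closure (Set.range s0 ∪ ⋃ j, G j) := by
      rintro _ ⟨i, rfl⟩
      exact mem_closure_of_mem_adjoin _ (hv i)
    refine ((matroid K L).eRk_mono h4).trans ?_
    rw [Matroid.eRk_closure_eq]
    refine ((matroid K L).eRk_union_le_eRk_add_eRk _ _).trans ?_
    push_cast
    refine add_le_add ?_ ?_
    · refine ((matroid K L).eRk_le_encard _).trans ?_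
      rw [← Set.image_univ]
      refine (Set.encard_image_le _ _).trans ?_
      simp
    · have h5 := eRk_iUnion_le (K := K) Finset.univ G a (fun j => eRk_le_of_trdeg (G j) (a j) (hG j))
      simpa using h5
  rw [h1.eRk_eq_encard, h2] at h3
  have h6 : Fintype.card I ≤ Fintype.card I0 + ∑ j, a j := by exact_mod_cast h3
  omega

end rk

section ren

variable {K : Type} [Field K] {ι₁ ι₂ : Type} [Fintype ι₁] [Fintype ι₂] {n : ℕ}

/-- renaming of the groups of variables -/
noncomputable def rn (φ : ι₁ → ι₂) (f : MvPolynomial (ι₁ × Fin n) K) :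
    MvPolynomial (ι₂ × Fin n) K :=
  rename (fun p : ι₁ × Fin n => (φ p.1, p.2)) f

lemma ev_rn (φ : ι₁ → ι₂) (f : MvPolynomial (ι₁ × Fin n) K) {F : Type} [Field F] [Algebra K F]
    (u : ι₂ → Fin n → F) : ev (rn φ f) u = ev f (fun i => u (φ i)) := by
  unfold ev rn
  rw [aeval_rename]
  rfl

open Classical in
/-- the multidegree after renaming -/
noncomputable def rd (φ : ι₁ → ι₂) (d : ι₁ → ℕ) : ι₂ → ℕ :=
  fun i => ∑ j, if φ j = i then d j else 0

lemma rd_apply (φ : ι₁ → ι₂) (hφ : Function.Injective φ) (d : ι₁ → ℕ) (j : ι₁) :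
    rd φ d (φ j) = d j := by
  classical
  unfold rd
  rw [Finset.sum_eq_single j]
  · simp
  · intro j' _ hj'
    rw [if_neg]
    exact fun h => hj' (hφ h)
  · simp

lemma rd_zero (φ : ι₁ → ι₂) (d : ι₁ → ℕ) (i : ι₂) (hi : ∀ j, φ j ≠ i) : rd φ d i = 0 := by
  classical
  unfold rd
  exact Finset.sum_eq_zero (fun j _ => if_neg (hi j))

lemma prod_rd (φ : ι₁ → ι₂) (d : ι₁ → ℕ) (Q : ι₂ → ℝ) :
    ∏ i, Q i ^ rd φ d i = ∏ j, Q (φ j) ^ d j := by
  classical
  unfold rd
  simp_rw [← Finset.prod_pow_eq_pow_sum]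
  rw [Finset.prod_comm]
  refine Finset.prod_congr rfl (fun j _ => ?_)
  rw [Finset.prod_eq_single (φ j)]
  · simp
  · intro i _ hi
    rw [if_neg (fun h => hi h.symm), pow_zero]
  · simp

lemma rn_MH (φ : ι₁ → ι₂) (hφ : Function.Injective φ) {d : ι₁ → ℕ}
    {f : MvPolynomial (ι₁ × Fin n) K} (hf : MH d f) : MH (rd φ d) (rn φ f) := by
  classical
  intro m hm i
  have hinj : Function.Injective (fun p : ι₁ × Fin n => (φ p.1, p.2)) := by
    intro p q h
    have h1 := (Prod.ext_iff.mp h).1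
    have h2 := (Prod.ext_iff.mp h).2
    exact Prod.ext (hφ h1) h2
  unfold rn at hm
  rw [support_rename_of_injective hinj] at hm
  obtain ⟨m', hm', rfl⟩ := Finset.mem_image.mp hm
  by_cases hi : ∃ j, φ j = i
  · obtain ⟨j, rfl⟩ := hi
    rw [rd_apply φ hφ]
    have h1 : ∀ c, (Finsupp.mapDomain (fun p : ι₁ × Fin n => (φ p.1, p.2)) m')
        (φ j, c) = m' (j, c) := fun c =>
      Finsupp.mapDomain_apply hinj m' (j, c)
    simp_rw [h1]
    exact hf m' hm' j
  · push Not at hi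
    rw [rd_zero φ d i hi]
    refine Finset.sum_eq_zero (fun c _ => ?_)
    refine Finsupp.mapDomain_of_notMem_range _ _ ?_
    rintro ⟨p, hp⟩
    exact hi p.1 (Prod.ext_iff.mp hp).1

lemma nvW_rn {L : Type} [Field L] [Algebra K L] (w : AbsoluteValue L ℝ) (φ : ι₁ → ι₂)
    (d : ι₁ → ℕ) (f : MvPolynomial (ι₁ × Fin n) K) (u : ι₂ → Fin n → L) :
    nvW w (rd φ d) (rn φ f) u = nvW w d f (fun i => u (φ i)) := by
  unfold nvW
  rw [ev_rn, prod_rd φ d (fun i => ⨆ c, w (u i c))]

lemma ev_mem (f : MvPolynomial (ι₁ × Fin n) K) {F : Type} [Field F] [Algebra K F]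
    (u : ι₁ → Fin n → F) (S : IntermediateField K F) (hu : ∀ j c, u j c ∈ S) : ev f u ∈ S := by
  rw [ev_expand]
  exact sum_mem (fun m _ => mul_mem (S.algebraMap_mem _)
    (prod_mem (fun p _ => pow_mem (hu _ _) _)))

end ren

section pts

variable {K : Type} [Field K] {n : ℕ}

lemma mem_sub (B : AbR K n) {F : Type} [Field F] [Algebra K F] (P Q : B.Pt F)
    (S : IntermediateField K F) (hP : ∀ c, P.1 c ∈ S) (hQ : ∀ c, Q.1 c ∈ S) (c : Fin n) :
    (P - Q).1 c ∈ S := by
  obtain ⟨s, hs, h⟩ := B.Λ_spec F P Q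
  obtain ⟨i0, hi0, -⟩ := (P + Q).2.1
  obtain ⟨c0, hc0, -⟩ := (P - Q).2.1
  have h1 : ∀ c, ev (B.Λ i0 c) ![P.1, Q.1] = s * (P - Q).1 c := by
    intro c
    have h2 : ev (B.Λ i0 c) ![P.1, Q.1] = s * ((P + Q).1 i0 * (P - Q).1 c) := h i0 c
    rw [h2, hi0, one_mul]
  have h2 : ∀ c, ev (B.Λ i0 c) ![P.1, Q.1] ∈ S := by
    intro c
    refine ev_mem _ _ S (fun j c => ?_)
    fin_cases j
    · exact hP c
    · exact hQ c
  have h3 : (P - Q).1 c = ev (B.Λ i0 c) ![P.1, Q.1] / ev (B.Λ i0 c0) ![P.1, Q.1] := by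
    rw [h1, h1, hc0, mul_one, mul_div_cancel_left₀ _ hs]
  rw [h3]
  exact div_mem (h2 _) (h2 _)

variable {β : ℕ} (A : Fin β → AbV K n)

/-- the blocks -/
noncomputable def Cb (d : ℕ) (p : Fin d × Fin β) : Blk K n := (A p.2).toAbR.blk

lemma irr_Cb (d : ℕ) (p : Fin d × Fin β) : (Cb A d p).Irr := by
  intro F _ _ g h a b hg hh h1 h2
  exact (A p.2).irr F g h a b hg hh h1 h2

lemma ind_Cb (d : ℕ) (p : Fin d × Fin β) : (Cb A d p).Ind := by
  intro F _ _ g a hg h0
  exact (A p.2).ind F g a hg h0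

lemma nzt_of (d : ℕ) (Φ : MvPolynomial ((Fin d × Fin β) × Fin n) K) (h : Gen.N (Cb A d) Φ) :
    NZT A d Φ := by
  obtain ⟨F, iF, iA, v, hv, hne⟩ := h
  choose P hP using hv
  refine ⟨F, iF, iA, fun j b => P (j, b), ?_⟩
  have h1 : vcT (A := A) (F := F) (fun j b => P (j, b)) = v := by
    funext p
    exact hP p
  rw [h1]
  exact hne

lemma exΦ (F : Type) [Field F] [Algebra K F] (P : Bp A F) (y : Fin (β * n + 1) → Bp A F)
    (hy : ∀ j, td (K := K) (vc (y j)) + ((1 : ℕ) : Cardinal) ≤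
      ((∑ b, (A b).dim : ℕ) : Cardinal)) :
    ∃ (Φ : MvPolynomial ((Fin (β * n + 1) × Fin β) × Fin n) K)
      (τ : Fin (β * n + 1) × Fin β → ℕ), MH τ Φ ∧
      Gen.N (Cb A (β * n + 1)) Φ ∧ ev Φ (vcT (fun j => y j - P)) = 0 := by
  classical
  set v : Fin (β * n + 1) × Fin β → Fin n → F := vcT (fun j => y j - P) with hv
  by_cases hz : ∀ p, v p ((Cb A (β * n + 1) p).z0) ≠ 0
  · have hnot : ¬ AlgebraicIndependent K
        (fun s : (i : Fin (β * n + 1) × Fin β) × Fin (Cb A (β * n + 1) i).g =>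
          v s.1 ((Cb A (β * n + 1) s.1).z s.2) / v s.1 (Cb A (β * n + 1) s.1).z0) := by
      set g := ∑ b, (A b).dim with hg
      have hg1 : ∀ j, td (K := K) (vc (y j)) ≤ ((g - 1 : ℕ) : Cardinal) ∧ 1 ≤ g := by
        intro j
        have h1 := hy j
        have h2 : td (K := K) (vc (y j)) ≤ ((g : ℕ) : Cardinal) := le_trans (by simp) h1
        obtain ⟨m, hm⟩ := Cardinal.lt_aleph0.1 (h2.trans_lt Cardinal.natCast_lt_aleph0)
        rw [hm] at h1 ⊢
        have h3 : m + 1 ≤ g := by exact_mod_cast h1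
        exact ⟨by exact_mod_cast (by omega : m ≤ g - 1), by omega⟩
      refine dep (fun p : Fin β × Fin n => vc P p.1 p.2)
        (fun j => Set.range (fun p : Fin β × Fin n => vc (y j) p.1 p.2)) (fun _ => g - 1)
        (fun j => (hg1 j).1) _ ?_ ?_
      · rintro ⟨⟨j, b⟩, a⟩
        have hmem : ∀ c, v (j, b) c ∈ IntermediateField.adjoin K
            (Set.range (fun p : Fin β × Fin n => vc P p.1 p.2) ∪
              ⋃ j, Set.range (fun p : Fin β × Fin n => vc (y j) p.1 p.2)) := by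
          intro c
          refine mem_sub (A b).toAbR (y j b) (P b) _ (fun c => ?_) (fun c => ?_) c
          · exact IntermediateField.subset_adjoin K _
              (Or.inr (Set.mem_iUnion.2 ⟨j, ⟨(b, c), rfl⟩⟩))
          · exact IntermediateField.subset_adjoin K _ (Or.inl ⟨(b, c), rfl⟩)
        exact div_mem (hmem _) (hmem _)
      · have h1 : Fintype.card ((i : Fin (β * n + 1) × Fin β) × Fin (Cb A (β * n + 1) i).g) =
            (β * n + 1) * g := by
          rw [Fintype.card_sigma]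
          have h2 : ∀ p : Fin (β * n + 1) × Fin β, Fintype.card (Fin (Cb A (β * n + 1) p).g) =
              (A p.2).dim := by
            intro p
            rw [Fintype.card_fin]
            rfl
          simp_rw [h2]
          rw [Fintype.sum_prod_type]
          simp [hg]
        rw [h1]
        simp only [Fintype.card_prod, Fintype.card_fin, Finset.sum_const, Finset.card_univ,
          smul_eq_mul]
        obtain ⟨g', hg'⟩ : ∃ g', g = g' + 1 := ⟨g - 1, by have := (hg1 0).2; omega⟩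
        rw [hg']
        simp only [Nat.add_sub_cancel]
        nlinarith
    rw [algebraicIndependent_iff] at hnot
    push Not at hnot
    obtain ⟨q, hq, hq0⟩ := hnot
    refine ⟨Gen.hmA (Cb A _) q, _, Gen.MH_hmA _ q, Gen.N_hmA _ (ind_Cb A _) q hq0, ?_⟩
    rw [Gen.ev_hmA _ q v hz]
    rw [hq, mul_zero]
  · push Not at hz
    obtain ⟨p, hp⟩ := hz
    refine ⟨X (p, (Cb A _ p).z0), _, Gen.MH_X p _, ?_, ?_⟩
    · obtain ⟨⟨F', iF', iA', v', hv', hne⟩, -⟩ := Gen.N_z0 (Cb A _) (ind_Cb A _)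
      refine ⟨F', iF', iA', v', hv', ?_⟩
      unfold ev at hne ⊢
      rw [map_prod] at hne
      exact Finset.prod_ne_zero_iff.1 hne p (Finset.mem_univ _)
    · unfold ev
      rw [aeval_X]
      exact hp

end pts

section loc

variable {K : Type} [Field K] {n β : ℕ} (A : Fin β → AbV K n)

/-- the varieties of the groups: the first point `P` and the points `P + Q j` -/
def Vd (d : ℕ) (p : Option (Fin d) × Fin β) : VarE K n := (A p.2).toAbR.var

/-- the two groups of a component of `Q j` -/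
def ps {d : ℕ} (l : Fin d × Fin β) : Fin 2 → Option (Fin d) × Fin β :=
  ![(some l.1, l.2), (none, l.2)]

lemma ps_inj {d : ℕ} (l : Fin d × Fin β) : Function.Injective (ps l) := by
  intro i j h
  fin_cases i <;> fin_cases j
  · rfl
  · have := (Prod.ext_iff.mp h).1
    simp [ps] at this
  · have := (Prod.ext_iff.mp h).1
    simp [ps] at this
  · rfl

open Classical in
/-- the family of forms of a component of `Q j` -/
noncomputable def Fa {d : ℕ} (l : Fin d × Fin β) :
    Finset (Fin n → MvPolynomial ((Option (Fin d) × Fin β) × Fin n) K) :=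
  Finset.univ.image (fun (i : Fin n) (c : Fin n) => rn (ps l) ((A l.2).Λ i c))

lemma Fa_MH {d : ℕ} (l : Fin d × Fin β) : ∀ C ∈ Fa A l, ∀ c,
    MH (rd (ps l) (fun _ => 2)) (C c) := by
  classical
  intro C hC c
  obtain ⟨i, -, rfl⟩ := Finset.mem_image.1 hC
  exact rn_MH _ (ps_inj l) ((A l.2).Λ_hom i c)

lemma ps_eq {d : ℕ} (l : Fin d × Fin β) {F : Type} (u : Option (Fin d) × Fin β → Fin n → F) :
    (fun i => u (ps l i)) = ![u (some l.1, l.2), u (none, l.2)] := by
  funext i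
  fin_cases i <;> rfl

lemma Fa_Tg {d : ℕ} (l : Fin d × Fin β) {F : Type} [Field F] [Algebra K F]
    (u : Option (Fin d) × Fin β → Fin n → F) (y P : (A l.2).Pt F)
    (hy : u (some l.1, l.2) = y.1) (hP : u (none, l.2) = P.1) : Tg (Fa A l) u (y - P).1 := by
  classical
  refine ⟨(y - P).2.1.ne_zero, fun C hC => ?_⟩
  obtain ⟨i, -, rfl⟩ := Finset.mem_image.1 hC
  obtain ⟨s, hs, h⟩ := (A l.2).Λ_spec F y P
  refine ⟨s * (y + P).1 i, funext fun c => ?_⟩
  rw [ev_rn, ps_eq, hy, hP]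
  have h2 : ev ((A l.2).Λ i c) ![y.1, P.1] = s * ((y + P).1 i * (y - P).1 c) := h i c
  rw [h2, Pi.smul_apply, smul_eq_mul, mul_assoc]

lemma Fa_fam {d : ℕ} (l : Fin d × Fin β) :
    IsFam (wqX (Vd A d)) (rd (ps l) (fun _ => 2)) (Fa A l) := by
  classical
  refine ⟨Fa_MH A l, fun F _ _ u hu => ?_⟩
  obtain ⟨P, s, hs, rfl⟩ := exists_ptX hu
  obtain ⟨r, hr, h⟩ := (A l.2).Λ_spec F (P (some l.1, l.2)) (P (none, l.2))
  obtain ⟨i0, hi0, -⟩ := ((A l.2).grp F).add (P (some l.1, l.2)) (P (none, l.2)) |>.2.1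
  obtain ⟨c0, hc0, -⟩ := ((A l.2).grp F).sub (P (some l.1, l.2)) (P (none, l.2)) |>.2.1
  refine ⟨_, Finset.mem_image_of_mem _ (Finset.mem_univ i0), c0, ?_⟩
  rw [ev_rn]
  have h1 : (fun i => s (ps l i) • (P (ps l i)).1) =
      fun i => (fun i => s (ps l i)) i • (![(P (some l.1, l.2)).1, (P (none, l.2)).1] : Fin 2 → Fin n → F) i := by
    funext i
    fin_cases i <;> rfl
  rw [h1, ev_smul ((A l.2).Λ_hom i0 c0), h i0 c0, hi0, hc0]
  refine mul_ne_zero (Finset.prod_ne_zero_iff.2 fun j _ => pow_ne_zero _ (hs _)) ?_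
  simpa using hr

end loc

end Gp

open Gp in
/-- **`gp`.** Translates of a proper closed subset in general position are disjoint. -/
theorem gp : T_gp := by
  classical
  intro K _ n β A E _ f δ hf hc
  obtain ⟨d, hd⟩ : ∃ d, d = β * n := ⟨_, rfl⟩
  let eE := Fintype.equivFin (Fin (d + 1) × E)
  let φ : Fin (d + 1) → Fin β → Option (Fin (d + 1)) × Fin β := fun j b => (some j, b)
  have hφ : ∀ j, Function.Injective (φ j) := fun j a b h => (Prod.ext_iff.mp h).2
  let f' : Fin (Fintype.card (Fin (d + 1) × E)) →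
      MvPolynomial ((Option (Fin (d + 1)) × Fin β) × Fin n) K :=
    fun i => rn (φ (eE.symm i).1) (f (eE.symm i).2)
  let δ' : Fin (Fintype.card (Fin (d + 1) × E)) → Option (Fin (d + 1)) × Fin β → ℕ :=
    fun i => rd (φ (eE.symm i).1) (δ (eE.symm i).2)
  have hf' : ∀ i, MH (δ' i) (f' i) := fun i => rn_MH _ (hφ _) (hf _)
  obtain ⟨N, hN, t', F, iF, iA, η, hη0, hη1, hη2, hη3⟩ :=
    nullW K (wqX (Vd A (d + 1))) (wqX_MH _) f' (fun i => ⟨δ' i, hf' i⟩)
  -- the points
  have hpt : ∀ i p m, aeval (η i p) ((A p.2).eqn m) = 0 := by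
    intro i p m
    have h1 := hη1 i ⟨p, m⟩
    unfold wqX at h1
    rw [ev_rename] at h1
    exact h1
  let yi : ∀ i, Fin (d + 1) → Bp A (F i) := fun i j b => ⟨η i (some j, b), hη0 i _, hpt i (some j, b)⟩
  let Pi : ∀ i, Bp A (F i) := fun i b => ⟨η i (none, b), hη0 i _, hpt i (none, b)⟩
  have hyi : ∀ i j x, ev (f x) (vc (yi i j)) = 0 := by
    intro i j x
    have h1 := hη2 i (eE (j, x))
    simp only [f', ev_rn, Equiv.symm_apply_apply] at h1
    exact h1
  have h1 : ∀ i, ∃ (Φ : MvPolynomial ((Fin (d + 1) × Fin β) × Fin n) K)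
      (τ : Fin (d + 1) × Fin β → ℕ), MH τ Φ ∧
      Gen.N (Cb A (d + 1)) Φ ∧ ev Φ (vcT (fun j => yi i j - Pi i)) = 0 := by
    intro i
    subst hd
    exact exΦ A (F i) (Pi i) (yi i) (fun j => hc (F i) (yi i j) (hyi i j))
  choose Φi τi hΦ1 hΦ2 hΦ3 using h1
  obtain ⟨⟨τ, hτ⟩, hNΦ⟩ := Gen.N_prod (Cb A (d + 1)) (irr_Cb A _)
    (Gen.N_z0 (Cb A (d + 1)) (ind_Cb A _)).2 Finset.univ Φi (fun i _ => ⟨_, hΦ1 i⟩)
    (fun i _ => hΦ2 i)
  have hG : ∀ i, ev (1 : MvPolynomial ((Option (Fin (d + 1)) × Fin β) × Fin n) K) (η i) = 0 ∨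
      ∃ t : Fin (d + 1) × Fin β → Fin n → F i,
        (∀ l, Tg (Fa A l) (η i) (t l)) ∧ ev (∏ i, Φi i) t = 0 := by
    intro i
    refine Or.inr ⟨vcT (fun j => yi i j - Pi i), fun l => ?_, ?_⟩
    · exact Fa_Tg A l (η i) (yi i l.1 l.2) (Pi i l.2) rfl rfl
    · have h2 : ev (∏ i, Φi i) (vcT (fun j => yi i j - Pi i)) =
          ∏ i', ev (Φi i') (vcT (fun j => yi i j - Pi i)) := by
        simp only [ev, map_prod]
      rw [h2]
      exact Finset.prod_eq_zero (Finset.mem_univ i) (hΦ3 i)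
  obtain ⟨A0, M, e, hM, hA⟩ := locX_G (wqX (Vd A (d + 1))) (wqX_MH _)
    (fun _ _ _ _ _ => True) f' δ' hf' F η hη3 (fun l => rd (ps l) (fun _ => 2))
    (Fa A) (Fa_MH A) (fun l => locF_fam _ (wqX_MH _) _ _ (Fa_fam A l)) 1 (fun _ => 0) MH_one
    ⟨∅, 1, 0, le_refl _, fun L _ _ w u _ _ => by
      have h3 : nvW w (fun _ => 0)
          (1 : MvPolynomial ((Option (Fin (d + 1)) × Fin β) × Fin n) K) u = 1 := by
        simp [nvW, ev]
      rw [h3, mul_one]
      exact one_le_kap _ (le_refl _) _ _⟩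
    (∏ i, Φi i) τ hτ hG
  · refine ⟨d, ∏ i, Φi i, τ, hτ, nzt_of A _ _ hNΦ, N, M, e, A0, hM, fun w P Q => ?_⟩
    let u : Option (Fin (d + 1)) × Fin β → Fin n → K :=
      fun p => Option.elim p.1 (P p.2).1 (fun j => (P p.2 + Q j p.2).1)
    have hu : OnS (wqX (Vd A (d + 1))) u := by
      refine onS_of ?_ ?_
      · rintro ⟨_ | j, b⟩
        · exact (P b).2.1.ne_zero
        · exact (P b + Q j b).2.1.ne_zero
      · rintro ⟨_ | j, b⟩ m
        · exact (P b).2.2 m
        · exact (P b + Q j b).2.2 m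
    have h2 := hA K w u hu trivial (vcT Q) (fun l => by
      have h3 := Fa_Tg A l u (P l.2 + Q l.1 l.2) (P l.2) rfl rfl
      rw [add_sub_cancel_left] at h3
      exact h3)
    refine h2.trans (le_of_eq ?_)
    congr 1
    rw [← eE.iSup_comp]
    refine iSup_congr (fun p => ?_)
    simp only [f', δ', nvW_rn, Equiv.symm_apply_apply]
    rfl

end Pool.Agent.TH954.Z
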