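import Pool.Agent.TH954.Z.Defs
import Pool.Agent.TH954.X.Gen
import Pool.Agent.TH954.X.BoxX

/-!
# Hypersurfaces of small degree through translates of a closed subset of codimension two
(job of helper954, written by helper429)
-/

set_option autoImplicit false
set_option linter.unusedSectionVars false

open MvPolynomial Pool.Agent.TH954.X Pool.Agent.TH954.V

namespace Pool.Agent.TH954.Z

namespace HypL

section count

/-- Existence of the auxiliary form, for several maps. -/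
theorem countH {K : Type} [Field K] {ι : Type} [Fintype ι] {n y : ℕ}
    {τ : Type} [Fintype τ] (F : τ → Type) [∀ i, Field (F i)] [∀ i, Algebra K (F i)]
    (η : ∀ i, ι → Fin n → F i)
    (htr : ∀ i, Algebra.trdeg K (IntermediateField.adjoin K
      (Set.range (fun p : ι × Fin n => η i p.1 p.2))) ≤ (y : Cardinal)) :
    ∃ c : ℕ, ∀ (κ : Type) [Fintype κ] (n' : ℕ) (σ : κ → ι → ℕ) (L : ℕ)
      (Fm : Fin L → κ → Finset (Fin n' → MvPolynomial (ι × Fin n) K)),
      (∀ q l, ∀ C ∈ Fm q l, ∀ c, MH (σ l) (C c)) → ∀ t : ∀ i, Fin L → κ → Fin n' → F i,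
      (∀ i q l, Tg (Fm q l) (η i) (t i q l)) →
      (∀ i q l, ∃ C ∈ Fm q l, ∃ c, ev (C c) (η i) ≠ 0) →
      ∀ (d : κ → ℕ) (B : Finset (κ × Fin n' →₀ ℕ)),
      (∀ e ∈ B, ∀ l, ∑ c, e (l, c) = d l) →
      c * L * (1 + ∑ l, d l * ∑ j, σ l j) ^ y < B.card →
      ∃ G : MvPolynomial (κ × Fin n') K, G ≠ 0 ∧ G.support ⊆ B ∧ MH d G ∧
        ∀ i q, ev G (t i q) = 0 := by
  classical
  choose c0 hc0 using fun i => Hil.hilb K (F i) (ι × Fin n)
    (fun p : ι × Fin n => η i p.1 p.2) y (htr i)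
  set c1 : ℕ := ∑ i, c0 i with hc1
  refine ⟨c1, ?_⟩
  intro κ _ n' σ L Fm hMH t ht hne d B hB hlt
  set E : ℕ := ∑ l, d l * ∑ j, σ l j with hE
  choose C hC s hs0 hs using fun (i : τ) (q : Fin L) (l : κ) =>
    Tg.exists_ne (hne i q l) (ht i q l)
  let V : (i : τ) → Submodule K (F i) := fun i =>
    Submodule.map (aeval (R := K) (fun p : ι × Fin n => η i p.1 p.2)).toLinearMap
      (restrictTotalDegree (ι × Fin n) K E)
  have hmem : ∀ (i : τ) (q : Fin L) (G : MvPolynomial (κ × Fin n') K), MH d G →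
      ev G (fun l c => ev (C i q l c) (η i)) ∈ V i := by
    intro i q G hG
    refine ⟨cmp G (C i q), ?_, ?_⟩
    · rw [SetLike.mem_coe, mem_restrictTotalDegree]
      refine (totalDegree_le_of_MH (MH_cmp hG (C i q) σ
        (fun l c => hMH q l _ (hC i q l) c))).trans (le_of_eq ?_)
      rw [Finset.sum_comm, hE]
      refine Finset.sum_congr rfl (fun l _ => ?_)
      rw [Finset.mul_sum]
    · change ev (cmp G (C i q)) (η i) = _
      rw [ev_cmp]
  have hmonMH : ∀ e ∈ B, MH d (monomial e (1 : K)) := by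
    intro e he m' hm' l
    rw [support_monomial, if_neg one_ne_zero, Finset.mem_singleton] at hm'
    rw [hm']
    exact hB e he l
  let μ : B → ((p : τ × Fin L) → V p.1) := fun e p =>
    ⟨ev (monomial e.1 (1 : K)) (fun l c => ev (C p.1 p.2 l c) (η p.1)),
      hmem p.1 p.2 _ (hmonMH e.1 e.2)⟩
  have hdep : ¬ LinearIndependent K μ := by
    intro hli
    have h1 := hli.fintype_card_le_finrank
    have h3 : Module.finrank K ((p : τ × Fin L) → V p.1) =
        ∑ p : τ × Fin L, Module.finrank K (V p.1) := Module.finrank_pi_fintype K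
    rw [Fintype.card_coe, h3, Fintype.sum_prod_type] at h1
    have h4 : ∑ i : τ, ∑ _q : Fin L, Module.finrank K (V i) ≤ c1 * L * (1 + E) ^ y := by
      rw [hc1, Finset.sum_mul, Finset.sum_mul]
      refine Finset.sum_le_sum (fun i _ => ?_)
      rw [Finset.sum_const, Finset.card_univ, Fintype.card_fin, smul_eq_mul]
      have h5 := Nat.mul_le_mul_left L (hc0 i E)
      rw [add_comm E 1] at h5
      refine h5.trans (le_of_eq (by ring))
    exact absurd (h1.trans h4) (not_le.mpr hlt)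
  rw [Fintype.not_linearIndependent_iff] at hdep
  obtain ⟨g, hg1, e0, hg2⟩ := hdep
  set G : MvPolynomial (κ × Fin n') K := ∑ e, g e • monomial e.1 (1 : K) with hG
  have hcoeff : ∀ e : B, coeff e.1 G = g e := by
    intro e
    rw [hG, coeff_sum, Finset.sum_eq_single e]
    · rw [coeff_smul, coeff_monomial, if_pos rfl, smul_eq_mul, mul_one]
    · intro e' _ hne
      rw [coeff_smul, coeff_monomial, if_neg (fun h => hne (Subtype.ext h)), smul_zero]
    · intro h
      exact absurd (Finset.mem_univ _) h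
  have hGs : G.support ⊆ B := by
    intro e he
    obtain ⟨e', -, he'⟩ := Finset.mem_biUnion.mp (support_sum he)
    have h6 := support_smul he'
    rw [support_monomial, if_neg one_ne_zero, Finset.mem_singleton] at h6
    rw [h6]
    exact e'.2
  have hGMH : MH d G := fun e he l => hB e (hGs he) l
  refine ⟨G, ?_, hGs, hGMH, ?_⟩
  · intro h0
    apply hg2
    rw [← hcoeff e0, h0, coeff_zero]
  · intro i q
    have h1 : ev G (fun l c => ev (C i q l c) (η i)) = 0 := by
      have h2 : (∑ e, g e • μ e) (i, q) = 0 := by rw [hg1]; rfl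
      have h3 : ((∑ e, g e • μ e) (i, q) : V i).val =
          ∑ e : B, g e • ev (monomial e.1 (1 : K)) (fun l c => ev (C i q l c) (η i)) := by
        rw [Finset.sum_apply, Submodule.coe_sum]
        rfl
      rw [h2] at h3
      have h4 : ev G (fun l c => ev (C i q l c) (η i)) =
          ∑ e : B, g e • ev (monomial e.1 (1 : K)) (fun l c => ev (C i q l c) (η i)) := by
        rw [hG]
        simp only [ev, map_sum, map_smul]
      rw [h4, ← h3]
      rfl
    have h5 : (fun l c => ev (C i q l c) (η i)) = fun l => s i q l • t i q l := by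
      funext l
      exact hs i q l
    rw [h5, ev_smul hGMH] at h1
    exact (mul_eq_zero.mp h1).resolve_left
      (Finset.prod_ne_zero_iff.mpr (fun l _ => pow_ne_zero _ (hs0 i q l)))

end count

section trans

variable {K : Type} [Field K] {n β : ℕ}

/-- the equations of the product -/
noncomputable abbrev wB (A : Fin β → AbV K n) :
    ((j : Fin β) × Fin ((fun b => (A b).toAbR.var) j).e) → MvPolynomial (Fin β × Fin n) K :=
  wqX (fun b : Fin β => (A b).toAbR.var)

/-- the point of `B` over an extension field -/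
def bc {A : Fin β → AbV K n} (F : Type) [Field F] [Algebra K F] (q : Bp A K) : Bp A F :=
  fun b => ⟨fun c => algebraMap K F ((q b).1 c), by
    obtain ⟨⟨i, hi, hj⟩, h2⟩ := (q b).2
    refine ⟨⟨i, ?_, fun j hj' => ?_⟩, fun m => ?_⟩
    · beta_reduce
      rw [hi, map_one]
    · beta_reduce
      rw [hj j hj', map_zero]
    · have := MvPolynomial.comp_aeval_apply (f := (q b).1) (Algebra.ofId K F) ((A b).eqn m)
      rw [h2 m, map_zero] at this
      exact this.symm⟩

/-- the tuple of forms for the subtraction of `q`, row `c0` -/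
noncomputable def Cf (A : Fin β → AbV K n) (q : Bp A K) (b : Fin β) (c0 : Fin n) :
    Fin n → MvPolynomial (Fin β × Fin n) K :=
  fun c => cmp ((A b).Λ c0 c) (fun l e => if l = 0 then X (b, e) else C ((q b).1 e))

open Classical in
/-- the family of forms for the subtraction of `q` -/
noncomputable def Ff (A : Fin β → AbV K n) (q : Bp A K) (b : Fin β) :
    Finset (Fin n → MvPolynomial (Fin β × Fin n) K) :=
  Finset.univ.image (Cf A q b)

/-- multidegrees -/
def sg (b j : Fin β) : ℕ := if j = b then 2 else 0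

lemma MH_Cf (A : Fin β → AbV K n) (q : Bp A K) (b : Fin β) (c0 c : Fin n) :
    MH (sg b) (Cf A q b c0 c) := by
  classical
  have h := MH_cmp ((A b).Λ_hom c0 c)
    (fun (l : Fin 2) (e : Fin n) => if l = 0 then X (b, e) else C ((q b).1 e))
    (fun l j => if l = 0 then (if j = b then 1 else 0) else 0) (fun l e => by
      by_cases hl : l = 0
      · simp only [hl, if_true]
        convert Gen.MH_X (K := K) b e
      · simp only [if_neg hl]
        exact MH_C _)
  have h2 : (fun j : Fin β => ∑ l : Fin 2, 2 * (if l = 0 then (if j = b then 1 else 0) else 0)) =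
      sg b := by
    funext j
    rw [Fin.sum_univ_two]
    simp only [if_true, one_ne_zero, if_false, mul_zero, add_zero, sg]
    split_ifs <;> rfl
  rw [h2] at h
  exact h

lemma ev_Cf (A : Fin β → AbV K n) (q : Bp A K) (b : Fin β) (c0 c : Fin n)
    {F : Type} [Field F] [Algebra K F] (u : Fin β → Fin n → F) :
    ev (Cf A q b c0 c) u = ev ((A b).Λ c0 c) ![u b, (bc F q b).1] := by
  unfold Cf
  rw [ev_cmp]
  congr 1
  funext l
  fin_cases l
  · funext e
    simp [ev]
  · funext e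
    simp [ev, bc]

lemma val_Cf (A : Fin β → AbV K n) (q : Bp A K) (b : Fin β)
    {F : Type} [Field F] [Algebra K F] (P : Bp A F) :
    ∃ s : F, s ≠ 0 ∧ ∀ c0 c, ev (Cf A q b c0 c) (vc P) =
      s * ((P + bc F q) b).1 c0 * ((P - bc F q) b).1 c := by
  obtain ⟨s, hs, hs'⟩ := (A b).Λ_spec F (P b) (bc F q b)
  refine ⟨s, hs, fun c0 c => ?_⟩
  rw [ev_Cf]
  have h := hs' c0 c
  rw [mul_assoc]
  exact h

lemma Tg_Ff (A : Fin β → AbV K n) (q : Bp A K) (b : Fin β)
    {F : Type} [Field F] [Algebra K F] (P : Bp A F) :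
    Tg (Ff A q b) (vc P) (((P - bc F q) b).1) := by
  classical
  refine ⟨((P - bc F q) b).2.1.ne_zero, fun C hC => ?_⟩
  obtain ⟨c0, -, rfl⟩ := Finset.mem_image.mp hC
  obtain ⟨s, hs, hs'⟩ := val_Cf A q b P
  exact ⟨s * ((P + bc F q) b).1 c0, funext fun c => hs' c0 c⟩

lemma ne_Ff (A : Fin β → AbV K n) (q : Bp A K) (b : Fin β)
    {F : Type} [Field F] [Algebra K F] (P : Bp A F) :
    ∃ C ∈ Ff A q b, ∃ c, ev (C c) (vc P) ≠ 0 := by
  classical
  obtain ⟨s, hs, hs'⟩ := val_Cf A q b P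
  obtain ⟨c0, h0, -⟩ := ((P + bc F q) b).2.1
  obtain ⟨c, h1, -⟩ := ((P - bc F q) b).2.1
  refine ⟨Cf A q b c0, Finset.mem_image_of_mem _ (Finset.mem_univ _), c, ?_⟩
  rw [hs', h0, h1, mul_one, mul_one]
  exact hs

lemma isFam_Ff (A : Fin β → AbV K n) (q : Bp A K) (b : Fin β) :
    IsFam (wB A) (sg b) (Ff A q b) := by
  classical
  refine ⟨?_, ?_⟩
  · intro C hC c
    obtain ⟨c0, -, rfl⟩ := Finset.mem_image.mp hC
    exact MH_Cf A q b c0 c
  · intro F _ _ u hu
    obtain ⟨P, s, hs, rfl⟩ := exists_ptX hu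
    obtain ⟨C, hC, c, hc⟩ := ne_Ff A q b (F := F) (P : Bp A F)
    refine ⟨C, hC, c, ?_⟩
    obtain ⟨c0, -, rfl⟩ := Finset.mem_image.mp hC
    rw [ev_smul (MH_Cf A q b c0 c)]
    exact mul_ne_zero (Finset.prod_ne_zero_iff.mpr (fun j _ => pow_ne_zero _ (hs j))) hc

end trans

section main

variable {K : Type} [Field K] {n β : ℕ}

/-- the generic point -/
lemma genB (A : Fin β → AbV K n) :
    ∃ (Ω : Type) (_ : Field Ω) (_ : Algebra K Ω) (P : Bp A Ω),
      (∀ b, (P b).1 (A b).z0 ≠ 0) ∧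
      AlgebraicIndependent K (fun p : (i : Fin β) × Fin (A i).dim =>
        (P p.1).1 ((A p.1).z p.2) / (P p.1).1 (A p.1).z0) := by
  obtain ⟨Ω, iΩ, iA, _, P, h1, h2, -⟩ := gen K n (Fin β) (Fin β) (fun _ => 1)
    (Equiv.sigmaUnique (Fin β) (fun _ => Fin 1)) (fun b => (A b).toAbR.blk)
    (fun b => (A b).irr) (fun b => (A b).ind)
  exact ⟨Ω, iΩ, iA, fun b => P b default, h1, h2⟩

/-- the monomials -/
lemma boxB (A : Fin β → AbV K n) (D : ℕ) :
    ∃ B : Finset (Fin β × Fin n →₀ ℕ), (∀ e ∈ B, ∀ l, ∑ c, e (l, c) = (A l).dim * D) ∧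
      B.card = (D + 1) ^ (∑ l, (A l).dim) ∧
      ∀ G : MvPolynomial (Fin β × Fin n) K, G ≠ 0 → G.support ⊆ B → NZ A G := by
  obtain ⟨Ω, iΩ, iA, P, h1, h2⟩ := genB A
  have hz : ∀ i : Fin β, Function.Injective (A i).z := by
    intro i a b hab
    have h3 : (⟨i, a⟩ : (i : Fin β) × Fin (A i).dim) = ⟨i, b⟩ := h2.injective (by
      simp only [hab])
    simpa using h3
  have hz0 : ∀ (i : Fin β) (a : Fin (A i).dim), (A i).z a ≠ (A i).z0 := by
    intro i a ha
    have h3 : (P i).1 ((A i).z a) / (P i).1 (A i).z0 = 1 := by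
      rw [ha]
      exact div_self (h1 i)
    have h4 := h2.transcendental ⟨i, a⟩
    simp only at h4
    rw [h3] at h4
    exact h4 isAlgebraic_one
  obtain ⟨B, hB1, hB2, hB3⟩ := boxX K (Fin β) n (fun l => (A l).dim) (fun l => (A l).z0)
    (fun l => (A l).z) hz hz0 (fun _ => D)
  refine ⟨B, hB1, ?_, fun G hG hGs => ⟨Ω, iΩ, iA, P, hB3 G hG hGs Ω (vc P) h1 h2⟩⟩
  rw [hB2, Finset.prod_pow_eq_pow_sum]

lemma sum_sg (b : Fin β) : ∑ j, sg b j = 2 := by
  unfold sg
  rw [Finset.sum_ite_eq']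
  simp

/-- the auxiliary form -/
lemma auxH (A : Fin β → AbV K n) {t : ℕ} (F : Fin t → Type) [∀ i, Field (F i)]
    [∀ i, Algebra K (F i)] (P : ∀ i, Bp A (F i))
    (htd : ∀ i, td (K := K) (vc (P i)) + ((2 : ℕ) : Cardinal) ≤
      ((∑ b, (A b).dim : ℕ) : Cardinal)) :
    ∃ C : ℕ, ∀ (L : ℕ) (q : Fin L → Bp A K), ∃ (D : ℕ) (G : MvPolynomial (Fin β × Fin n) K)
      (τ : Fin β → ℕ), D ^ 2 ≤ C * (L + 1) ∧ (∀ b, τ b ≤ D) ∧ MH τ G ∧ NZ A G ∧
      ∀ i j, ev G (vc (P i - bc (F i) (q j))) = 0 := by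
  classical
  rcases Nat.eq_zero_or_pos t with rfl | ht
  · refine ⟨0, fun L q => ⟨0, 1, fun _ => 0, by simp, fun _ => le_rfl, MH_one, ?_,
      fun i => i.elim0⟩⟩
    refine ⟨K, inferInstance, inferInstance, 0, ?_⟩
    simp [ev]
  set g : ℕ := ∑ b, (A b).dim with hg
  have h2g : 2 ≤ g := by
    have h1 := (self_le_add_left _ _).trans (htd ⟨0, ht⟩)
    exact_mod_cast h1
  obtain ⟨y, hy⟩ : ∃ y, g = y + 2 := ⟨g - 2, by omega⟩
  have htr : ∀ i, Algebra.trdeg K (IntermediateField.adjoin K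
      (Set.range (fun p : Fin β × Fin n => vc (P i) p.1 p.2))) ≤ (y : Cardinal) := by
    intro i
    have h1 := htd i
    rw [hy, Nat.cast_add] at h1
    exact (Cardinal.add_le_add_iff_of_lt_aleph0 (Cardinal.natCast_lt_aleph0 (n := 2))).mp h1
  obtain ⟨c, hc⟩ := countH F (fun i => vc (P i)) htr
  refine ⟨g ^ 2 * (c * (1 + 2 * g) ^ y), fun L q => ?_⟩
  set D' : ℕ := Nat.sqrt (c * (1 + 2 * g) ^ y * L) with hD'
  obtain ⟨B, hB1, hB2, hB3⟩ := boxB A D'
  have hcard : c * L * (1 + ∑ l, ((A l).dim * D') * ∑ j, sg l j) ^ y < B.card := by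
    rw [hB2, ← hg]
    simp only [sum_sg]
    have e1 : ∑ l, (A l).dim * D' * 2 = 2 * g * D' := by
      rw [hg, ← Finset.sum_mul, ← Finset.sum_mul]
      ring
    rw [e1]
    have e2 : 1 + 2 * g * D' ≤ (1 + 2 * g) * (D' + 1) := by nlinarith
    have e3 : c * (1 + 2 * g) ^ y * L < (D' + 1) * (D' + 1) := Nat.lt_succ_sqrt _
    calc c * L * (1 + 2 * g * D') ^ y ≤ c * L * ((1 + 2 * g) * (D' + 1)) ^ y :=
          Nat.mul_le_mul_left _ (Nat.pow_le_pow_left e2 _)
      _ = (c * (1 + 2 * g) ^ y * L) * (D' + 1) ^ y := by rw [mul_pow]; ring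
      _ < ((D' + 1) * (D' + 1)) * (D' + 1) ^ y :=
          Nat.mul_lt_mul_of_pos_right e3 (Nat.pow_pos (Nat.succ_pos _))
      _ = (D' + 1) ^ g := by rw [hy, pow_add]; ring
  obtain ⟨G, hG0, hGs, hG1, hG2⟩ := hc (Fin β) n sg L (fun j b => Ff A (q j) b)
    (fun j b C hC e => (isFam_Ff A (q j) b).1 C hC e)
    (fun i j b => ((P i - bc (F i) (q j)) b).1) (fun i j b => Tg_Ff A (q j) b (P i))
    (fun i j b => ne_Ff A (q j) b (P i)) (fun l => (A l).dim * D') B hB1 hcard
  refine ⟨g * D', G, fun l => (A l).dim * D', ?_, ?_, hG1, hB3 G hG0 hGs, hG2⟩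
  · have e1 : D' * D' ≤ c * (1 + 2 * g) ^ y * L := Nat.sqrt_le _
    calc (g * D') ^ 2 = g ^ 2 * (D' * D') := by ring
      _ ≤ g ^ 2 * (c * (1 + 2 * g) ^ y * L) := Nat.mul_le_mul_left _ e1
      _ ≤ g ^ 2 * (c * (1 + 2 * g) ^ y) * (L + 1) := by
          rw [← mul_assoc]
          exact Nat.mul_le_mul_left _ (Nat.le_succ L)
  · intro b
    refine Nat.mul_le_mul_right _ ?_
    exact Finset.single_le_sum (f := fun b => (A b).dim) (fun _ _ => Nat.zero_le _)
      (Finset.mem_univ b)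

end main

end HypL

open HypL in
theorem hyp : T_hyp := by
  classical
  intro K _ n β A E _ f δ hf hcod
  let e' := Fintype.equivFin E
  obtain ⟨N, hN, t', F, iF, iA, η, hη0, hη1, hη2, hη3⟩ := nullW K (wB A)
    (wqX_MH _) (fun i => f (e'.symm i)) (fun i => ⟨_, hf _⟩)
  have hP : ∀ i, ∃ P : Bp A (F i), vc P = η i := by
    intro i
    refine ⟨fun b => ⟨η i b, hη0 i b, fun m => ?_⟩, rfl⟩
    have h2 := hη1 i ⟨b, m⟩
    unfold wB wqX at h2
    rw [ev_rename] at h2
    exact h2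
  choose P hP using hP
  obtain ⟨C, hC⟩ := auxH A F P (fun i => hcod (F i) (P i) (fun j => by
    rw [hP]
    have := hη2 i (e' j)
    simpa using this))
  refine ⟨C, N, fun L q => ?_⟩
  obtain ⟨D, G, τ, h1, h2, h3, h4, h5⟩ := hC L q
  refine ⟨D, G, τ, h1, h2, h3, h4, ?_⟩
  have hloc : ∀ i : Fin L, ∃ (A0 : Finset K) (M e : ℕ), 1 ≤ M ∧ ∀ (w : AbsoluteValue K ℝ)
      (P : Bp A K), nvW w τ G (vc P) ^ N ≤
        kap A0 M e w * ⨆ j, nvW w (δ j) (f j) (vc (P + q i)) := by
    intro i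
    obtain ⟨A0, M, e, hM, hA0⟩ := locX_G (wB A) (wqX_MH _) (fun _ _ _ _ _ => True)
      (fun i => f (e'.symm i)) (fun i => δ (e'.symm i)) (fun i => hf _) F η hη3 sg
      (fun b => Ff A (q i) b) (fun b C hC c => (isFam_Ff A (q i) b).1 C hC c)
      (fun b => locF_fam (wB A) (wqX_MH _) _ _ (isFam_Ff A (q i) b))
      1 (fun _ => 0) MH_one
      ⟨∅, 1, 0, le_rfl, fun L _ _ w u _ _ => by simp [kap, nvW, ev]⟩
      G τ h3 (fun j => Or.inr ⟨vc (P j - bc (F j) (q i)), fun b => by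
        rw [← hP]
        exact Tg_Ff A (q i) b (P j), h5 j i⟩)
    refine ⟨A0, M, e, hM, fun w R => ?_⟩
    have h6 := hA0 K w (vc (R + q i)) (onS_of (fun j => ((R + q i) j).2.1.ne_zero)
      (fun j m => ((R + q i) j).2.2 m)) trivial (vc R) (fun b => by
        have h7 := Tg_Ff A (q i) b (R + q i)
        have h8 : bc K (q i) = q i := by
          funext b
          exact Subtype.ext (funext fun c => rfl)
        rw [h8, add_sub_cancel_right] at h7
        exact h7)
    have h9 : (⨆ j, nvW w (δ (e'.symm j)) (f (e'.symm j)) (vc (R + q i))) =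
        ⨆ j, nvW w (δ j) (f j) (vc (R + q i)) :=
      Equiv.iSup_comp (g := fun j => nvW w (δ j) (f j) (vc (R + q i))) e'.symm
    rw [h9] at h6
    exact h6
  choose A0 M e hM hA0 using hloc
  obtain ⟨B, hB⟩ := kap_prod_le Finset.univ A0 M e
  refine ⟨∏ i, M i, ∑ i, e i, B, Nat.succ_le_of_lt (Finset.prod_pos (fun i _ => hM i)),
    fun w R i => ?_⟩
  refine (hA0 i w R).trans (mul_le_mul_of_nonneg_right ?_
    (Real.iSup_nonneg (fun _ => nvW_nonneg _ _ _ _)))
  refine le_trans ?_ (hB K w)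
  have hk : ∀ i, 1 ≤ kap (A0 i) (M i) (e i) w := fun i => one_le_kap _ (hM i) _ _
  rw [← Finset.mul_prod_erase Finset.univ (fun i => kap (A0 i) (M i) (e i) w)
    (Finset.mem_univ i)]
  exact le_mul_of_one_le_right (zero_le_one.trans (hk i)) (one_le_prodR _ (fun j _ => hk j))

end Pool.Agent.TH954.Z
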