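import Pool.Agent.TH954.Z.Defs
import Pool.Agent.TH954.X.NullX

/-!
# The closure of the image in a product of abelian varieties of a closed subset: `T_redG`
-/

set_option autoImplicit false
set_option linter.unusedSectionVars false

open MvPolynomial Pool.Agent.TH954.X Pool.Agent.TH954.V

namespace Pool.Agent.TH954.Z.RedG

/-- specialisation decreases the transcendence degree -/
theorem trdeg_spec {K : Type} [Field K] {ι : Type} {F F' : Type} [Field F] [Algebra K F]
    [Field F'] [Algebra K F'] (z : ι → F) (y : ι → F') (E' : IntermediateField K F')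
    (hy : ∀ i, y i ∈ E') (h : ∀ P : MvPolynomial ι K, aeval y P = 0 → aeval z P = 0) :
    Algebra.trdeg K (IntermediateField.adjoin K (Set.range z)) ≤ Algebra.trdeg K E' := by
  classical
  set E := IntermediateField.adjoin K (Set.range z) with hE
  let z' : ι → E := fun i => ⟨z i, IntermediateField.subset_adjoin K _ ⟨i, rfl⟩⟩
  have htop : IntermediateField.adjoin K (Set.range z') = ⊤ := by
    apply IntermediateField.map_injective E.val
    rw [IntermediateField.adjoin_map]
    have h1 : E.val '' Set.range z' = Set.range z := by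
      rw [← Set.range_comp]; rfl
    rw [h1]
    have h2 : IntermediateField.map E.val ⊤ = E := by
      rw [← AlgHom.fieldRange_eq_map, IntermediateField.fieldRange_val]
    rw [h2]
  have halg : Algebra.IsAlgebraic (Algebra.adjoin K (Set.range z')) E := by
    rw [← IntermediateField.isAlgebraic_adjoin_iff_top, htop, Algebra.isAlgebraic_iff_isIntegral]
    exact Algebra.isIntegral_of_surjective IntermediateField.topEquiv.surjective
  obtain ⟨t, hts, ht⟩ := exists_isTranscendenceBasis_subset (R := K) (Set.range z')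
  have hpre : ∀ x : t, ∃ i, z' i = x := fun x => hts x.2
  choose g hg using hpre
  rw [← ht.cardinalMk_eq_trdeg]
  let y' : t → E' := fun x => ⟨y (g x), hy (g x)⟩
  have hind : AlgebraicIndependent K y' := by
    rw [algebraicIndependent_iff]
    intro P hP
    -- the relation for `y`
    have h1 : aeval y (rename g P) = 0 := by
      rw [aeval_rename]
      have h2 : (aeval (y ∘ g) : MvPolynomial t K →ₐ[K] F') = E'.val.comp (aeval y') := by
        apply MvPolynomial.algHom_ext
        intro i
        rw [AlgHom.comp_apply, aeval_X, aeval_X]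
        rfl
      rw [h2, AlgHom.comp_apply, hP, map_zero]
    have h3 := h _ h1
    rw [aeval_rename] at h3
    have h4 : (aeval (z ∘ g) : MvPolynomial t K →ₐ[K] F) =
        E.val.comp (aeval (fun x : t => (x : E))) := by
      apply MvPolynomial.algHom_ext
      intro i
      rw [AlgHom.comp_apply, aeval_X, aeval_X, ← hg i]
      rfl
    rw [h4, AlgHom.comp_apply, map_eq_zero] at h3
    exact (algebraicIndependent_iff.1 ht.1) P h3
  exact hind.cardinalMk_le_trdeg

section homog

variable {K : Type} [Field K] {k n : ℕ}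

/-- the exponents which make all degrees equal to `D` -/
noncomputable def ext (c : Fin k → Fin n) (D : ℕ) (m : Fin k × Fin n →₀ ℕ) : Fin k × Fin n →₀ ℕ :=
  Finsupp.equivFunOnFinite.symm (fun p => if p.2 = c p.1 then D - ∑ e, m (p.1, e) else 0)

lemma ext_apply (c : Fin k → Fin n) (D : ℕ) (m : Fin k × Fin n →₀ ℕ) (p : Fin k × Fin n) :
    ext c D m p = if p.2 = c p.1 then D - ∑ e, m (p.1, e) else 0 := rfl

/-- homogenisation group by group -/
noncomputable def hmg (c : Fin k → Fin n) (D : ℕ) (P : MvPolynomial (Fin k × Fin n) K) :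
    MvPolynomial (Fin k × Fin n) K :=
  ∑ m ∈ P.support, monomial (m + ext c D m) (coeff m P)

lemma MH_hmg (c : Fin k → Fin n) (D : ℕ) (P : MvPolynomial (Fin k × Fin n) K)
    (hD : P.totalDegree ≤ D) : MH (fun _ => D) (hmg c D P) := by
  classical
  unfold hmg
  refine MH_sum _ _ _ fun m hm => ?_
  intro m' hm' j
  have h1 : m' = m + ext c D m := by
    have := support_monomial_subset hm'
    rwa [Finset.mem_singleton] at this
  rw [h1]
  have h2 : ∑ e, m (j, e) ≤ D := by
    refine le_trans ?_ ((le_totalDegree hm).trans hD)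
    rw [Finsupp.sum_fintype _ _ (fun _ => rfl), Fintype.sum_prod_type]
    exact Finset.single_le_sum (f := fun j => ∑ e, m (j, e)) (fun _ _ => Nat.zero_le _)
      (Finset.mem_univ j)
  simp only [Finsupp.coe_add, Pi.add_apply, Finset.sum_add_distrib, ext_apply]
  rw [Finset.sum_ite_eq' Finset.univ (c j), if_pos (Finset.mem_univ _)]
  omega

lemma ev_hmg {F : Type} [Field F] [Algebra K F] (c : Fin k → Fin n) (D : ℕ)
    (P : MvPolynomial (Fin k × Fin n) K) (y : Fin k → Fin n → F) (hy : ∀ j, y j (c j) = 1) :
    ev (hmg c D P) y = ev P y := by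
  unfold hmg
  have h1 : ev (∑ m ∈ P.support, monomial (m + ext c D m) (coeff m P)) y =
      ∑ m ∈ P.support, ev (monomial (m + ext c D m) (coeff m P)) y := by
    simp only [ev, map_sum]
  rw [h1, ev_expand P]
  refine Finset.sum_congr rfl fun m _ => ?_
  unfold ev
  rw [aeval_monomial, Finsupp.prod_fintype _ _ (fun p => pow_zero _)]
  congr 1
  refine Finset.prod_congr rfl fun p _ => ?_
  rw [Finsupp.coe_add, Pi.add_apply, ext_apply]
  by_cases hp : p.2 = c p.1
  · rw [hp, hy, one_pow, one_pow]
  · rw [if_neg hp, add_zero]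

end homog

lemma MH_var {K : Type} [Field K] {ι : Type} [DecidableEq ι] {n : ℕ} (j : ι) (c : Fin n) :
    MH (fun i => if i = j then 1 else 0) (X (j, c) : MvPolynomial (ι × Fin n) K) := by
  classical
  intro m hm i
  rw [support_X, Finset.mem_singleton] at hm
  subst hm
  change _ = if i = j then 1 else 0
  by_cases hij : i = j
  · subst hij
    rw [if_pos rfl, Finset.sum_eq_single c]
    · simp
    · intro b _ hb
      rw [Finsupp.single_apply, if_neg]
      intro h
      exact hb (Prod.mk.inj h).2.symm
    · intro h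
      exact absurd (Finset.mem_univ _) h
  · rw [if_neg hij]
    refine Finset.sum_eq_zero fun b _ => ?_
    rw [Finsupp.single_apply, if_neg]
    intro h
    exact hij (Prod.mk.inj h).1.symm

/-- if every form vanishing at `u'` vanishes at `u` then the transcendence degree of `u` is at most
the one of `u'` -/
theorem trdeg_le {K : Type} [Field K] {k n : ℕ} {F F' : Type} [Field F] [Algebra K F]
    [Field F'] [Algebra K F'] (u : Fin k → Fin n → F) (u' : Fin k → Fin n → F')
    (hu : ∀ j, Normed (u j))
    (h : ∀ q : MvPolynomial (Fin k × Fin n) K, (∃ σ, MH σ q) → ev q u' = 0 → ev q u = 0) :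
    Algebra.trdeg K (IntermediateField.adjoin K (Set.range (fun p : Fin k × Fin n => u p.1 p.2))) ≤
      Algebra.trdeg K (IntermediateField.adjoin K
        (Set.range (fun p : Fin k × Fin n => u' p.1 p.2))) := by
  classical
  choose c hc _ using hu
  have hX : ∀ j, u' j (c j) ≠ 0 := by
    intro j h0
    have h1 := h (X (j, c j)) ⟨_, MH_var j (c j)⟩ (by
      unfold ev
      rw [aeval_X]
      exact h0)
    unfold ev at h1
    rw [aeval_X] at h1
    change u j (c j) = 0 at h1
    rw [hc j] at h1
    exact one_ne_zero h1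
  refine trdeg_spec (fun p : Fin k × Fin n => u p.1 p.2)
    (fun p : Fin k × Fin n => u' p.1 p.2 / u' p.1 (c p.1)) _ (fun p => ?_) (fun P hP => ?_)
  · exact div_mem (IntermediateField.subset_adjoin K _ ⟨p, rfl⟩)
      (IntermediateField.subset_adjoin K _ ⟨(p.1, c p.1), rfl⟩)
  · have hMH := MH_hmg c P.totalDegree P le_rfl
    have h1 : u' = fun j => u' j (c j) • (fun e => u' j e / u' j (c j)) := by
      funext j e
      rw [Pi.smul_apply, smul_eq_mul, mul_div_cancel₀ _ (hX j)]
    have h2 : ev (hmg c P.totalDegree P) u' = 0 := by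
      rw [h1, ev_smul hMH (fun j => u' j (c j)) (fun j e => u' j e / u' j (c j)),
        ev_hmg c _ P _ (fun j => div_self (hX j))]
      have h3 : ev P (fun j e => u' j e / u' j (c j)) = 0 := hP
      rw [h3, mul_zero]
    have h4 := h _ ⟨_, hMH⟩ h2
    rw [ev_hmg c _ P _ hc] at h4
    exact h4

/-- finitely many forms vanishing at the points `v i`, whose common zeros are specialisations of
one of these points -/
theorem exists_forms {K : Type} [Field K] {k n t : ℕ} (F : Fin t → Type) (_ : ∀ i, Field (F i))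
    (_ : ∀ i, Algebra K (F i)) (v : ∀ i, Fin k → Fin n → F i) :
    ∃ (s : ℕ) (h : Fin s → MvPolynomial (Fin k × Fin n) K) (η : Fin s → Fin k → ℕ),
      (∀ l, MH (η l) (h l)) ∧ (∀ l i, ev (h l) (v i) = 0) ∧
      ∀ (G : Type) [Field G] [Algebra K G] (u : Fin k → Fin n → G), (∀ l, ev (h l) u = 0) →
        ∃ i, ∀ q : MvPolynomial (Fin k × Fin n) K, (∃ σ, MH σ q) → ev q (v i) = 0 →
          ev q u = 0 := by
  classical
  set S : Set (MvPolynomial (Fin k × Fin n) K) :=
    {q | (∃ σ, MH σ q) ∧ ∀ i, ev q (v i) = 0} with hS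
  have hfg : (Submodule.span (MvPolynomial (Fin k × Fin n) K) S).FG :=
    IsNoetherian.noetherian _
  obtain ⟨T, hTS, hT⟩ := (Submodule.fg_span_iff_fg_span_finset_subset S).1 hfg
  have hmem : ∀ l : Fin T.card, (T.equivFin.symm l).1 ∈ S := fun l => hTS (T.equivFin.symm l).2
  choose η hη using fun l => (hmem l).1
  refine ⟨T.card, fun l => (T.equivFin.symm l).1, η, hη, fun l i => (hmem l).2 i, ?_⟩
  intro G _ _ u hu
  by_contra hcon
  push Not at hcon
  choose q hq hq0 hq1 using hcon
  choose σ hσ using hq
  have h1 : (∏ i, q i) ∈ S := by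
    refine ⟨⟨_, MH_prod Finset.univ σ q fun i _ => hσ i⟩, fun i => ?_⟩
    have h2 : ev (∏ i, q i) (v i) = ∏ i', ev (q i') (v i) := by
      simp only [ev, map_prod]
    rw [h2]
    exact Finset.prod_eq_zero (Finset.mem_univ i) (hq0 i)
  have h2 : (∏ i, q i) ∈ Submodule.span (MvPolynomial (Fin k × Fin n) K) (T : Set _) := by
    rw [← hT]
    exact Submodule.subset_span h1
  have h3 : Submodule.span (MvPolynomial (Fin k × Fin n) K) (T : Set _) ≤
      RingHom.ker (aeval (fun p : Fin k × Fin n => u p.1 p.2) :
        MvPolynomial (Fin k × Fin n) K →ₐ[K] G) := by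
    rw [Submodule.span_le]
    intro x hx
    have h4 := hu (T.equivFin ⟨x, hx⟩)
    dsimp only at h4
    rw [Equiv.symm_apply_apply] at h4
    exact h4
  have h4 : aeval (fun p : Fin k × Fin n => u p.1 p.2) (∏ i, q i) = 0 := h3 h2
  rw [map_prod] at h4
  exact Finset.prod_ne_zero_iff.2 (fun i _ => hq1 i) h4

lemma kap_mono {K : Type} [Field K] {A B : Finset K} (h : A ⊆ B) {M M' : ℕ} (hM : M ≤ M')
    (w : AbsoluteValue K ℝ) : kap A M 1 w ≤ kap B M' 1 w := by
  unfold kap
  rw [pow_one, pow_one]
  have h1 := cM_mono h w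
  have h2 : 0 ≤ cM A w := zero_le_one.trans (one_le_cM A w)
  split_ifs
  · rw [one_mul, one_mul]
    exact h1
  · have h3 : (M : ℝ) ≤ M' := by exact_mod_cast hM
    exact mul_le_mul h3 h1 h2 (Nat.cast_nonneg _)

section sys

variable {K : Type} [Field K] {β n : ℕ}

/-- the equation of an abelian variety in the group `some b` -/
noncomputable def geq (b : Fin β) (P : MvPolynomial (Fin n) K) :
    MvPolynomial (Option (Fin β) × Fin n) K :=
  rename (fun c => (some b, c)) P

lemma MH_geq (b : Fin β) {P : MvPolynomial (Fin n) K} {d : ℕ} (hP : P.IsHomogeneous d) :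
    MH (fun i => if i = some b then d else 0) (geq b P) := by
  classical
  have hinj : Function.Injective (fun c : Fin n => ((some b, c) : Option (Fin β) × Fin n)) :=
    fun c c' h => (Prod.mk.inj h).2
  intro m hm i
  unfold geq at hm
  rw [support_rename_of_injective hinj, Finset.mem_image] at hm
  obtain ⟨m', hm', rfl⟩ := hm
  by_cases hi : i = some b
  · subst hi
    dsimp only
    rw [if_pos rfl]
    have h1 : ∀ c : Fin n, Finsupp.mapDomain
        (fun c : Fin n => ((some b, c) : Option (Fin β) × Fin n)) m' (some b, c) = m' c :=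
      fun c => Finsupp.mapDomain_apply hinj m' c
    simp only [h1]
    have h2 := hP (mem_support_iff.1 hm')
    rw [Finsupp.weight_apply, Finsupp.sum_fintype _ _ (by intro i; simp)] at h2
    simpa using h2
  · dsimp only
    rw [if_neg hi]
    refine Finset.sum_eq_zero fun c _ => ?_
    refine Finsupp.mapDomain_of_notMem_range _ _ ?_
    rintro ⟨c', hc'⟩
    exact hi (Prod.mk.inj hc').1.symm

lemma ev_geq {F : Type} [Field F] [Algebra K F] (b : Fin β) (P : MvPolynomial (Fin n) K)
    (y : Option (Fin β) → Fin n → F) : ev (geq b P) y = aeval (y (some b)) P := by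
  unfold ev geq
  rw [aeval_rename]
  rfl

/-- the forms in the groups `some j` -/
noncomputable def up (h : MvPolynomial (Fin β × Fin n) K) :
    MvPolynomial (Option (Fin β) × Fin n) K :=
  cmp h (fun j e => X (some j, e))

lemma MH_up {h : MvPolynomial (Fin β × Fin n) K} {η : Fin β → ℕ} (hh : MH η h) :
    MH (fun o => Option.elim o 0 η) (up h) := by
  have h1 := MH_cmp hh (fun j e => (X (some j, e) :
    MvPolynomial (Option (Fin β) × Fin n) K)) (fun j i => if i = some j then 1 else 0)
    (fun j e => MH_var (some j) e)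
  have e : (fun o : Option (Fin β) => ∑ l, η l * (if o = some l then 1 else 0)) =
      fun o => Option.elim o 0 η := by
    funext o
    cases o with
    | none => simp
    | some j => simp
  rw [e] at h1
  exact h1

lemma ev_up {F : Type} [Field F] [Algebra K F] (h : MvPolynomial (Fin β × Fin n) K)
    (y : Option (Fin β) → Fin n → F) :
    ev (up h) y = ev h (fun j c => y (some j) c) := by
  unfold up
  rw [ev_cmp]
  congr 1
  funext j c
  unfold ev
  rw [aeval_X]

lemma nvW_up {A : Fin β → AbV K n} (w : AbsoluteValue K ℝ) (η : Fin β → ℕ)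
    (h : MvPolynomial (Fin β × Fin n) K) (t : Fin n → K) (P : Bp A K) :
    nvW w (fun o => Option.elim o 0 η) (up h) (fl t P) = nvW w η h (vc P) := by
  unfold nvW
  rw [ev_up, Fintype.prod_option]
  have e1 : (fun (j : Fin β) (c : Fin n) => fl t P (some j) c) = vc P := rfl
  have e2 : ∀ j : Fin β, (⨆ c, w (fl t P (some j) c)) = ⨆ c, w (vc P j c) := fun j => rfl
  rw [e1]
  simp only [Option.elim_none, Option.elim_some, pow_zero, one_mul, e2]

end sys

end Pool.Agent.TH954.Z.RedG

namespace Pool.Agent.TH954.Z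

open RedG

theorem redG : T_redG := by
  classical
  intro K _ n β A E1 E2 _ _ g hg f δ hf c hcod
  -- the system
  set wq : E1 ⊕ (Σ b : Fin β, Fin (A b).e) → MvPolynomial (Option (Fin β) × Fin n) K :=
    Sum.elim g (fun p => geq p.1 ((A p.1).eqn p.2)) with hwq
  have hwq1 : ∀ i, ∃ d, MH d (wq i) := by
    rintro (i | p)
    · exact hg i
    · exact ⟨_, MH_geq p.1 ((A p.1).hom p.2)⟩
  choose ρ hρ using hwq1
  set e2 := Fintype.equivFin E2 with he2
  obtain ⟨N, hN, t, F, iF, iA, y, hy1, hy2, hy3, hy4⟩ := nullW K wq (fun i => ⟨ρ i, hρ i⟩)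
    (fun l => f (e2.symm l)) (fun l => ⟨δ (e2.symm l), hf _⟩)
  -- the points
  have hpt : ∀ i b, Normed (y i (some b)) ∧ ∀ l, aeval (y i (some b)) ((A b).eqn l) = 0 := by
    intro i b
    refine ⟨hy1 i (some b), fun l => ?_⟩
    have h1 := hy2 i (Sum.inr ⟨b, l⟩)
    change ev (geq b ((A b).eqn l)) (y i) = 0 at h1
    rw [ev_geq] at h1
    exact h1
  set P : ∀ i, Bp A (F i) := fun i b => ⟨y i (some b), hpt i b⟩ with hP
  have hful : ∀ i, fl (y i none) (P i) = y i := by
    intro i
    funext o
    cases o with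
    | none => rfl
    | some b => rfl
  have htr : ∀ i, td (K := K) (vc (P i)) + (c : Cardinal) ≤
      ((∑ b, (A b).dim : ℕ) : Cardinal) := by
    intro i
    refine hcod (F i) (y i none) (P i) (hy1 i none).ne_zero (fun l => ?_) (fun l => ?_)
    · rw [hful i]
      exact hy2 i (Sum.inl l)
    · rw [hful i]
      have h1 := hy3 i (e2 l)
      rw [Equiv.symm_apply_apply] at h1
      exact h1
  obtain ⟨s, h, η, hη, h0, hsp⟩ := exists_forms F iF iA (fun i => vc (P i))
  refine ⟨s, h, η, hη, ?_, ?_⟩
  · intro G _ _ u hhu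
    obtain ⟨i, hi⟩ := hsp G (vc u) hhu
    exact (add_le_add_left (trdeg_le (vc u) (vc (P i)) (fun b => (u b).2.1) hi) _).trans (htr i)
  · have hup : ∀ l i, ev (up (h l)) (y i) = 0 := by
      intro l i
      rw [ev_up]
      exact h0 l i
    have key := fun l => locW_null wq ρ hρ (fun l => f (e2.symm l)) (fun l => δ (e2.symm l))
      (fun l => hf _) (up (h l)) _ (MH_up (hη l)) N
      (hy4 (up (h l)) ⟨_, MH_up (hη l)⟩ (hup l))
    choose A' M hM hAM using key
    refine ⟨N, (∑ l, M l) + 1, Finset.univ.biUnion A', Nat.succ_pos _, fun w t u ht hgu => ?_⟩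
    have hsup0 : 0 ≤ ⨆ i, nvW w (δ i) (f i) (fl t u) :=
      Real.iSup_nonneg fun i => nvW_nonneg _ _ _ _
    have hkap0 : 0 ≤ kap (Finset.univ.biUnion A') ((∑ l, M l) + 1) 1 w :=
      zero_le_one.trans (one_le_kap _ (Nat.succ_pos _) _ _)
    rcases Nat.eq_zero_or_pos s with hs | hs
    · subst hs
      rw [Real.iSup_of_isEmpty, zero_pow hN.ne']
      exact mul_nonneg hkap0 hsup0
    · have : Nonempty (Fin s) := ⟨⟨0, hs⟩⟩
      obtain ⟨l, hl⟩ := exists_eq_ciSup_of_finite (f := fun l => nvW w (η l) (h l) (vc u))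
      rw [← hl]
      have h1 := hAM l K w (fl t u) ?_ ?_
      · rw [nvW_up] at h1
        have h2 : (⨆ i, nvW w (δ (e2.symm i)) (f (e2.symm i)) (fl t u)) =
            ⨆ i, nvW w (δ i) (f i) (fl t u) :=
          Equiv.iSup_comp (g := fun i => nvW w (δ i) (f i) (fl t u)) e2.symm
        rw [h2] at h1
        refine h1.trans (mul_le_mul_of_nonneg_right (kap_mono ?_ ?_ w) hsup0)
        · exact Finset.subset_biUnion_of_mem A' (Finset.mem_univ l)
        · exact (Finset.single_le_sum (f := M) (fun _ _ => Nat.zero_le _)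
            (Finset.mem_univ l)).trans (Nat.le_succ _)
      · rintro (_ | b)
        · exact ht
        · exact (u b).2.1.ne_zero
      · rintro (i | p)
        · exact hgu i
        · change ev (geq p.1 ((A p.1).eqn p.2)) (fl t u) = 0
          rw [ev_geq]
          exact (u p.1).2.2 p.2

end Pool.Agent.TH954.Z
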