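import Pool.Agent.TH954.Z.Defs2
import Pool.Agent.TH954.X.Gen
import Pool.Agent.TH954.X.FinA
import Pool.Agent.TH954.Y.Red
import Pool.Agent.TH634.T3733.Key

/-!
# Hypersurfaces have codimension at least one (job 3733, written by helper634)
-/

set_option autoImplicit false

open MvPolynomial Pool.Agent.TH954.X Pool.Agent.TH954.V

namespace Pool.Agent.TH954.Z

open Pool.Agent.TH954.Y.RedL in
theorem top : T_top := by
  classical
  intro K _ n β A hTop G τ hG hNZ F _ _ P hP
  -- the generic point
  obtain ⟨Ω, iΩ, iKΩ, iΩc, u, hu, hgen⟩ := Gen.generic (BA A) (fun b => (A b).irr)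
    (fun b => (A b).ind)
  have hu' : ∀ b, ∃ Q : (A b).Pt Ω, Q.1 = u b := hu
  choose Q hQ using hu'
  have hvQ : vc (A := A) Q = u := funext hQ
  have hN : ∀ (Φ : MvPolynomial (Fin β × Fin n) K) (σ : Fin β → ℕ), MH σ Φ → ∀ (F' : Type)
      [Field F'] [Algebra K F'] (P' : Bp A F'), ev Φ (vc P') ≠ 0 → ev Φ u ≠ 0 := by
    intro Φ σ hΦ F' _ _ P' hP'
    exact hgen Φ σ hΦ ⟨F', inferInstance, inferInstance, vc P', fun b => ⟨P' b, rfl⟩, hP'⟩
  obtain ⟨F0, iF0, iA0, P0, hP0⟩ := hNZ
  have hGu : ev G u ≠ 0 := hN G τ hG F0 P0 hP0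
  -- coordinates equal to one
  have hnorm : ∀ b, ∃ c, vc P b c = 1 := fun b => by
    obtain ⟨c, hc, _⟩ := (P b).2.1
    exact ⟨c, hc⟩
  choose c hc using hnorm
  have hX : ∀ b, u b (c b) ≠ 0 := by
    intro b
    have h1 := hN (X (b, c b)) _ (MH_var b (c b)) F P (by
      unfold ev
      rw [aeval_X]
      change vc P b (c b) ≠ 0
      rw [hc b]
      exact one_ne_zero)
    unfold ev at h1
    rw [aeval_X] at h1
    exact h1
  -- the specialisation
  have hsc : u = fun b => u b (c b) • (fun e => u b e / u b (c b)) := by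
    funext b e
    rw [Pi.smul_apply, smul_eq_mul, mul_div_cancel₀ _ (hX b)]
  have key := Pool.Agent.TH634.T3733.trdeg_spec_lt (K := K)
    (fun p : Fin β × Fin n => vc P p.1 p.2)
    (fun p : Fin β × Fin n => u p.1 p.2 / u p.1 (c p.1))
    (IntermediateField.adjoin K (Set.range (fun p : Fin β × Fin n => vc (A := A) Q p.1 p.2)))
    (fun p => by
      rw [hvQ]
      exact div_mem (IntermediateField.subset_adjoin K _ ⟨p, rfl⟩)
        (IntermediateField.subset_adjoin K _ ⟨(p.1, c p.1), rfl⟩))
    (fun R hR => by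
      have hMH := MH_hmg c R.totalDegree R le_rfl
      have h2 : ev (hmg c R.totalDegree R) u = 0 := by
        rw [hsc, ev_smul hMH (fun b => u b (c b)) (fun b e => u b e / u b (c b)),
          ev_hmg c _ R _ (fun b => div_self (hX b))]
        have h3 : ev R (fun b e => u b e / u b (c b)) = 0 := hR
        rw [h3, mul_zero]
      have h4 : ev (hmg c R.totalDegree R) (vc P) = 0 := by
        by_contra h5
        exact hN _ _ hMH F P h5 h2
      rw [ev_hmg c _ R _ hc] at h4
      exact h4)
    G (by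
      intro h1
      apply hGu
      rw [hsc, ev_smul hG (fun b => u b (c b)) (fun b e => u b e / u b (c b))]
      have h3 : ev G (fun b e => u b e / u b (c b)) = 0 := h1
      rw [h3, mul_zero])
    (hP ())
  have h1 := hTop Ω Q
  rw [Nat.cast_one]
  exact key.trans h1

end Pool.Agent.TH954.Z
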