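import Pool.Agent.TH954.Z.Defs2
import Pool.Agent.TH954.X2.Inst
import Pool.Agent.TH954.X2.Pad

/-!
# Products of Weierstrass curves as instances of the structure `AbV`, with the right dimension
-/

set_option autoImplicit false

open MvPolynomial Pool.Agent.TH954.X Pool.Agent.TH954.V

namespace Pool.Agent.TH954.Z

namespace WTop

/-- one curve -/
lemma one {K : Type} [Field K] [CharZero K] {n : ℕ} (hn : 3 ≤ n) (a b : K)
    (hD : 4 * a ^ 3 + 27 * b ^ 2 ≠ 0) :
    ∃ A : AbV K n, A.dim = 1 ∧
      ∀ (F : Type) [Field F] [DecidableEq F] [Algebra K F],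
        ∃ e : A.Pt F ≃+ (We.curve (algebraMap K F a) (algebraMap K F b)).toAffine.Point,
          ∀ P : A.Pt F, P.1 =
            fun c : Fin n => if h : c.1 < 3 then We.coords (e P) ⟨c.1, h⟩ else 0 := by
  obtain ⟨A, h1, h2, h3⟩ := We.exists_weierstrass a b hD
  obtain ⟨A', h4, h5, h6⟩ := pad K 3 n hn A
  refine ⟨A', h4.trans h1, fun F _ _ _ => ?_⟩
  obtain ⟨e, he⟩ := h3 F
  obtain ⟨e', he'⟩ := h6 F
  refine ⟨e'.trans e, fun P => ?_⟩
  funext c
  rw [he' P c]
  split_ifs with h
  · rw [he (e' P)]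
    rfl
  · rfl

/-- the values of the coordinates -/
lemma vals {K : Type} [Field K] {n : ℕ} (hn : 3 ≤ n) {a b : K} {F : Type} [Field F]
    [Algebra K F] (P : (We.curve (algebraMap K F a) (algebraMap K F b)).toAffine.Point)
    (v : Fin n → F) (hv : v = fun c : Fin n => if h : c.1 < 3 then We.coords P ⟨c.1, h⟩ else 0)
    (c : Fin n) : v c = 0 ∨ v c = 1 ∨ v c = v ⟨1, by omega⟩ ∨
      v c ^ 2 = v ⟨1, by omega⟩ ^ 3 + algebraMap K F a * v ⟨1, by omega⟩ + algebraMap K F b := by
  have hv' : ∀ (c : Fin n) (h : c.1 < 3), v c = We.coords P ⟨c.1, h⟩ := by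
    intro c h
    rw [hv]
    exact dif_pos h
  have h1 : v ⟨1, by omega⟩ = We.coords P 1 := hv' ⟨1, by omega⟩ (by norm_num)
  by_cases h : c.1 < 3
  · rw [hv' c h, h1]
    obtain ⟨c, hc⟩ := c
    cases P with
    | zero =>
      have h3 : c = 0 ∨ c = 1 ∨ c = 2 := by
        change c < 3 at h
        omega
      rcases h3 with rfl | rfl | rfl
      · left; rfl
      · left; rfl
      · right; left; rfl
    | some x y hxy =>
      have h3 : c = 0 ∨ c = 1 ∨ c = 2 := by
        change c < 3 at h
        omega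
      rcases h3 with rfl | rfl | rfl
      · right; left; rfl
      · right; right; left; rfl
      · right; right; right
        change y ^ 2 = x ^ 3 + algebraMap K F a * x + algebraMap K F b
        have h4 := (WeierstrassCurve.Affine.equation_iff _ _).1 hxy.1
        simp only [We.curve] at h4
        linear_combination h4
  · left
    rw [hv]
    exact dif_neg h

/-- the coordinates of a point of the product are algebraic over the coordinates `x` -/
lemma isAlg {K : Type} [Field K] {n β : ℕ} {F : Type} [Field F] [Algebra K F] (i1 : Fin n)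
    {a b : Fin β → K} {u : Fin β → Fin n → F}
    (hu : ∀ j c, u j c = 0 ∨ u j c = 1 ∨ u j c = u j i1 ∨
      u j c ^ 2 = u j i1 ^ 3 + algebraMap K F (a j) * u j i1 + algebraMap K F (b j)) :
    Algebra.IsAlgebraic (Algebra.adjoin K (Set.range (fun j : Fin β =>
      (⟨u j i1, IntermediateField.subset_adjoin K _ ⟨(j, i1), rfl⟩⟩ :
        IntermediateField.adjoin K (Set.range (fun p : Fin β × Fin n => u p.1 p.2))))))
      (IntermediateField.adjoin K (Set.range (fun p : Fin β × Fin n => u p.1 p.2))) := by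
  set L := IntermediateField.adjoin K (Set.range (fun p : Fin β × Fin n => u p.1 p.2)) with hL
  set x : Fin β → L := fun j => ⟨u j i1, IntermediateField.subset_adjoin K _ ⟨(j, i1), rfl⟩⟩ with hx
  set R := Algebra.adjoin K (Set.range x) with hR
  have hK : ∀ y : K, IsAlgebraic R (algebraMap K L y) := by
    intro y
    have : algebraMap K L y = algebraMap R L (algebraMap K R y) := rfl
    rw [this]
    exact isAlgebraic_algebraMap _
  have hxa : ∀ j, IsAlgebraic R (x j) := by
    intro j
    exact isAlgebraic_algebraMap (⟨x j, Algebra.subset_adjoin ⟨j, rfl⟩⟩ : R)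
  refine ⟨fun z => ?_⟩
  obtain ⟨z, hz⟩ := z
  refine IntermediateField.adjoin_induction K (p := fun z hz => IsAlgebraic R (⟨z, hz⟩ : L))
    ?_ ?_ ?_ ?_ ?_ hz
  · rintro _ ⟨⟨j, c⟩, rfl⟩
    rcases hu j c with h | h | h | h
    · have key : ∀ (y : F) (hy : y ∈ L), y = 0 → IsAlgebraic R (⟨y, hy⟩ : L) := by
        rintro y hy rfl
        exact isAlgebraic_zero
      exact key _ _ h
    · have key : ∀ (y : F) (hy : y ∈ L), y = 1 → IsAlgebraic R (⟨y, hy⟩ : L) := by
        rintro y hy rfl
        exact isAlgebraic_one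
      exact key _ _ h
    · have key : ∀ (y : F) (hy : y ∈ L), y = u j i1 → IsAlgebraic R (⟨y, hy⟩ : L) := by
        rintro y hy rfl
        exact hxa j
      exact key _ _ h
    · have h3 : (⟨u j c, IntermediateField.subset_adjoin K _ ⟨(j, c), rfl⟩⟩ : L) ^ 2 =
          x j ^ 3 + algebraMap K L (a j) * x j + algebraMap K L (b j) := by
        apply Subtype.ext
        simpa using h
      refine IsAlgebraic.of_pow (n := 2) (by norm_num) ?_
      change IsAlgebraic R ((⟨u j c, IntermediateField.subset_adjoin K _ ⟨(j, c), rfl⟩⟩ : L) ^ 2)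
      rw [h3]
      exact (((hxa j).pow 3).add ((hK _).mul (hxa j))).add (hK _)
  · intro y
    exact hK y
  · intro y z hy hz h1 h2
    exact h1.add h2
  · intro y hy h1
    exact IsAlgebraic.inv_iff.2 h1
  · intro y z hy hz h1 h2
    exact h1.mul h2

lemma td_le {K : Type} [Field K] {n β : ℕ} {F : Type} [Field F] [Algebra K F] (i1 : Fin n)
    {a b : Fin β → K} {u : Fin β → Fin n → F}
    (hu : ∀ j c, u j c = 0 ∨ u j c = 1 ∨ u j c = u j i1 ∨
      u j c ^ 2 = u j i1 ^ 3 + algebraMap K F (a j) * u j i1 + algebraMap K F (b j)) :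
    td (K := K) u ≤ (β : Cardinal) := by
  unfold td
  have halg := isAlg i1 hu
  refine (Algebra.IsAlgebraic.trdeg_le_cardinalMk K (Set.range (fun j : Fin β =>
      (⟨u j i1, IntermediateField.subset_adjoin K _ ⟨(j, i1), rfl⟩⟩ :
        IntermediateField.adjoin K (Set.range (fun p : Fin β × Fin n => u p.1 p.2)))))).trans ?_
  refine Cardinal.mk_range_le.trans ?_
  simp

end WTop

theorem wtop : T_wtop := by
  intro K _ _ n hn β a b hD
  choose A hA1 hA2 using fun i => WTop.one hn (a i) (b i) (hD i)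
  refine ⟨A, ?_, fun i => ⟨hA1 i, hA2 i⟩⟩
  intro F _ _ P
  classical
  have hs : ∑ b, (A b).dim = β := by
    rw [Finset.sum_congr rfl fun b _ => hA1 b]
    simp
  rw [hs]
  refine WTop.td_le (a := a) (b := b) ⟨1, by omega⟩ fun j c => ?_
  obtain ⟨e, he⟩ := hA2 j F
  exact WTop.vals hn (e (P j)) (vc P j) (he (P j)) c

end Pool.Agent.TH954.Z
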