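import Pool.Agent.TH954.Z.Avg

/-!
# Averaging over translates; all places
-/

set_option autoImplicit false
set_option linter.unusedSectionVars false

open MvPolynomial Pool.Agent.TH954.X Pool.Agent.TH954.V Pool.Agent.TH954.Y NumberField

namespace Pool.Agent.TH954.Z

variable {K : Type} [Field K] [NumberField K] {n β : ℕ}

/-- points of `Γ` on or near `f = 0` with respect to all places -/
def BadG {A : Fin β → AbV K n} {E : Type} (Γ : AddSubgroup (Bp A K))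
    (δ : E → Fin β → ℕ) (f : E → MvPolynomial (Fin β × Fin n) K) (ε T : ℝ) : Set (Bp A K) :=
  {P | P ∈ GB Γ T ∧ ((∀ i, ev (f i) (vc P) = 0) ∨ ε * T < tot (lam0 δ f (vc P)))}

/-- the number of translates of a point that are bad -/
lemma fewbad (hcomb : T_comb) {A : Fin β → AbV K n}
    {Γ : AddSubgroup (Bp A K)} {E : Type} [Fintype E]
    (f : E → MvPolynomial (Fin β × Fin n) K) (δ : E → Fin β → ℕ) (hf : ∀ i, MH (δ i) (f i))
    {d : ℕ} {Φ : MvPolynomial ((Fin (d + 1) × Fin β) × Fin n) K} {τ : Fin (d + 1) × Fin β → ℕ}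
    (hτ : MH τ Φ) {N M e0 : ℕ} {A0 : Finset K} (hM : 1 ≤ M)
    (hloc : ∀ (w : AbsoluteValue K ℝ) (P : Bp A K) (Q : Fin (d + 1) → Bp A K),
      nvW w τ Φ (vcT Q) ^ N ≤ kap A0 M e0 w *
        ⨆ p : Fin (d + 1) × E, nvW w (δ p.2) (f p.2) (vc (P + Q p.1)))
    {L : ℕ} {q : Fin L → Bp A K}
    (hqΦ : ∀ e : Fin (d + 1) ↪ Fin L, ev Φ (vcT (fun j => q (e j))) ≠ 0)
    {D : ℕ} {G : MvPolynomial (Fin β × Fin n) K} {σ : Fin β → ℕ} (hσD : ∀ b, σ b ≤ D)
    (hσ : MH σ G) {N1 M1 e1 : ℕ} {A1 : Finset K} (hM1 : 1 ≤ M1)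
    (hG : ∀ (w : AbsoluteValue K ℝ) (P : Bp A K) (i : Fin L),
        nvW w σ G (vc P) ^ N1 ≤ kap A1 M1 e1 w * ⨆ j, nvW w (δ j) (f j) (vc (P + q i)))
    (ε : ℝ) (hε : 0 < ε) :
    ∃ T0 : ℝ, ∀ T, T0 ≤ T → 1 ≤ T → ∀ P ∈ GB Γ (4 * T), ev G (vc P) ≠ 0 →
      ({i | P + q i ∈ BadG Γ δ f ε T}.ncard : ℝ) ≤ (4 * d * N1 * D + 1) / ε := by
  classical
  obtain ⟨Ag, Mg, hMg, hAg⟩ := nvW_le_kap G σ hσ
  obtain ⟨ck, hck0, hck⟩ := tot_kap A0 hM e0
  obtain ⟨ck1, hck10, hck1⟩ := tot_kap A1 hM1 e1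
  obtain ⟨ckg, hckg0, hckg⟩ := tot_kap Ag hMg 1
  set dK : ℝ := (Module.finrank ℚ K : ℝ) with hdK
  set C2 : ℝ := N1 * (ckg * dK) + ck1 * dK with hC2
  set ce : (Fin (d + 1) ↪ Fin L) → ℝ := fun e =>
    N * tot (lam0 (fun _ : Unit => τ) (fun _ => Φ) (vcT (fun j => q (e j)))) + ck * dK with hce
  refine ⟨d * C2 + ∑ e, ce e, fun T hT0 hT1 P hP hgu => ?_⟩
  have hTpos : 0 < T := one_pos.trans_le hT1
  have hu0 : ∀ b, vc P b ≠ 0 := fun b => vc_ne_zero P b
  have w1 : AbsoluteValue K ℝ := ai (Classical.arbitrary (InfinitePlace K))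
  have hUpos : ∀ w i, 0 < ⨆ j, nvW w (δ j) (f j) (vc (P + q i)) := by
    intro w i
    have h1 := hG w P i
    have h2 : 0 < nvW w σ G (vc P) ^ N1 := pow_pos (nvW_pos w σ G hu0 hgu) _
    have h3 : 0 < kap A1 M1 e1 w := zero_lt_one.trans_le (one_le_kap A1 hM1 e1 w)
    by_contra hcon
    have h4 := mul_nonpos_of_nonneg_of_nonpos h3.le (not_lt.mp hcon)
    linarith
  have hfne : ∀ i, ∃ j, ev (f j) (vc (P + q i)) ≠ 0 := fun i =>
    exists_of_sup_pos w1 δ f (hUpos w1 i)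
  set x : Fin L → AbsoluteValue K ℝ → ℝ := fun i => lam0 δ f (vc (P + q i)) with hx
  have hxF : ∀ i, FS (x i) := fun i => FS_lam0 δ f hf (fun b => vc_ne_zero _ b) (hfne i)
  have hx0 : ∀ i w, 0 ≤ x i w := fun i w => lam0_nonneg _ _ _ w
  -- the function `Gf`
  set Gf : AbsoluteValue K ℝ → ℝ := fun w =>
    (N1 : ℝ) * ((-1 : ℝ) * Real.log (nvW w σ G (vc P)) + Real.log (kap Ag Mg 1 w)) +
      Real.log (kap A1 M1 e1 w) with hGf
  have hg1 := FS_lognv σ G hu0 hgu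
  have hGF1 : FS (fun w => (-1 : ℝ) * Real.log (nvW w σ G (vc P)) +
      Real.log (kap Ag Mg 1 w)) := FS_add (FS_mul hg1 _) (hckg K).1
  have hGF : FS Gf := FS_add (FS_mul hGF1 _) (hck1 K).1
  have hGT : tot Gf ≤ 4 * N1 * D * T + C2 := by
    rw [hGf, tot_add (FS_mul hGF1 _) (hck1 K).1, tot_mul hGF1,
      tot_add (FS_mul hg1 _) (hckg K).1, tot_mul hg1, tot_lognv σ G hu0 hgu]
    have h1 := (hck1 K).2
    have h2 := (hckg K).2
    have h3 : ∑ b, (σ b : ℝ) * Height.logHeight (vc P b) ≤ D * (4 * T) := by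
      calc ∑ b, (σ b : ℝ) * Height.logHeight (vc P b) ≤
            ∑ b, (D : ℝ) * Height.logHeight (vc P b) :=
            Finset.sum_le_sum (fun b _ => mul_le_mul_of_nonneg_right
              (by exact_mod_cast hσD b) (Height.logHeight_nonneg _))
        _ = D * ht P := by rw [← Finset.mul_sum]; rfl
        _ ≤ _ := mul_le_mul_of_nonneg_left hP.2 (Nat.cast_nonneg _)
    have h4 : (N1 : ℝ) * (-1 * -∑ b, (σ b : ℝ) * Height.logHeight (vc P b) +
        tot (fun w : AbsoluteValue K ℝ => Real.log (kap Ag Mg 1 w))) ≤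
        N1 * (D * (4 * T) + ckg * dK) := by
      refine mul_le_mul_of_nonneg_left ?_ (Nat.cast_nonneg _)
      linarith
    have h5 : (N1 : ℝ) * (D * (4 * T) + ckg * dK) = 4 * N1 * D * T + N1 * (ckg * dK) := by
      ring
    rw [hC2]
    linarith
  have hG0 : ∀ w, 0 ≤ Gf w := by
    intro w
    have h1 : Real.log (nvW w σ G (vc P)) ≤ Real.log (kap Ag Mg 1 w) :=
      Real.log_le_log (nvW_pos w σ G hu0 hgu) (hAg w _ hu0)
    have h2 : 0 ≤ Real.log (kap A1 M1 e1 w) := Real.log_nonneg (one_le_kap A1 hM1 e1 w)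
    have h3 : 0 ≤ (N1 : ℝ) * ((-1 : ℝ) * Real.log (nvW w σ G (vc P)) +
        Real.log (kap Ag Mg 1 w)) := mul_nonneg (Nat.cast_nonneg _) (by linarith)
    change 0 ≤ (N1 : ℝ) * ((-1 : ℝ) * Real.log (nvW w σ G (vc P)) +
      Real.log (kap Ag Mg 1 w)) + Real.log (kap A1 M1 e1 w)
    linarith
  have hxG : ∀ i w, x i w ≤ Gf w := by
    intro i w
    refine max_le (hG0 w) ?_
    have h1 := Real.log_le_log (pow_pos (nvW_pos w σ G hu0 hgu) _) (hG w P i)
    rw [Real.log_pow, Real.log_mul (zero_lt_one.trans_le (one_le_kap A1 hM1 e1 w)).ne'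
      (hUpos w i).ne'] at h1
    have h2 : 0 ≤ (N1 : ℝ) * Real.log (kap Ag Mg 1 w) :=
      mul_nonneg (Nat.cast_nonneg _) (Real.log_nonneg (one_le_kap Ag hMg 1 w))
    change _ ≤ (N1 : ℝ) * ((-1 : ℝ) * Real.log (nvW w σ G (vc P)) +
      Real.log (kap Ag Mg 1 w)) + Real.log (kap A1 M1 e1 w)
    linarith
  -- the tuples
  set z : (Fin (d + 1) ↪ Fin L) → AbsoluteValue K ℝ → ℝ := fun e =>
    lam0 (fun _ : Unit => τ) (fun _ => Φ) (vcT (fun j => q (e j))) with hz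
  have hzF : ∀ e, FS (z e) := fun e =>
    FS_lam0 _ _ (fun _ => hτ) (fun p => vcT_ne_zero _ p) ⟨(), hqΦ e⟩
  have htup : ∀ (e : Fin (d + 1) ↪ Fin L) (w : AbsoluteValue K ℝ),
      (⨅ j, x (e j) w) ≤ (N : ℝ) * z e w + Real.log (kap A0 M e0 w) := by
    intro e w
    have hk1 : 1 ≤ kap A0 M e0 w := one_le_kap A0 hM e0 w
    have h1 := hloc w P (fun j => q (e j))
    obtain ⟨jE, -⟩ := hfne (e 0)
    have hne2 : Nonempty (Fin (d + 1) × E) := ⟨(0, jE)⟩
    obtain ⟨p0, hp0⟩ := Finite.exists_max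
      (fun p : Fin (d + 1) × E => nvW w (δ p.2) (f p.2) (vc (P + q (e p.1))))
    set R : ℝ := ⨆ i, nvW w (δ i) (f i) (vc (P + q (e p0.1))) with hR
    have h2 : (⨆ p : Fin (d + 1) × E, nvW w (δ p.2) (f p.2) (vc (P + q (e p.1)))) ≤ R := by
      refine ciSup_le (fun p => (hp0 p).trans ?_)
      exact le_ciSup (f := fun i => nvW w (δ i) (f i) (vc (P + q (e p0.1))))
        (Set.finite_range _).bddAbove p0.2
    have hR0 : 0 < R := hUpos w (e p0.1)
    have h3 := h1.trans (mul_le_mul_of_nonneg_left h2 (zero_le_one.trans hk1))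
    have h4 : 0 < nvW w τ Φ (vcT (fun j => q (e j))) :=
      nvW_pos w τ Φ (fun p => vcT_ne_zero _ p) (hqΦ e)
    have h5 := Real.log_le_log (pow_pos h4 N) h3
    rw [Real.log_pow, Real.log_mul (zero_lt_one.trans_le hk1).ne' hR0.ne'] at h5
    have h6 : -Real.log (nvW w τ Φ (vcT (fun j => q (e j)))) ≤ z e w := by
      have h7 : (⨆ _ : Unit, nvW w τ Φ (vcT (fun j => q (e j)))) =
          nvW w τ Φ (vcT (fun j => q (e j))) := ciSup_const
      have h8 : z e w = max 0 (-Real.log (⨆ _ : Unit, nvW w τ Φ (vcT (fun j => q (e j))))) := rfl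
      rw [h8, h7]
      exact le_max_right _ _
    have h7 := mul_le_mul_of_nonneg_left h6 (Nat.cast_nonneg (α := ℝ) N)
    have h9 : 0 ≤ (N : ℝ) * z e w + Real.log (kap A0 M e0 w) := by
      have h10 := Real.log_nonneg hk1
      have h11 : 0 ≤ (N : ℝ) * z e w := mul_nonneg (Nat.cast_nonneg _) (lam0_nonneg _ _ _ w)
      linarith
    refine (ciInf_le (f := fun i => x (e i) w) (Set.finite_range _).bddBelow p0.1).trans ?_
    refine max_le h9 ?_
    change -Real.log R ≤ _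
    linarith
  have hFe : ∀ e : Fin (d + 1) ↪ Fin L, FS (fun w => (N : ℝ) * z e w + Real.log (kap A0 M e0 w)) ∧
      tot (fun w => (N : ℝ) * z e w + Real.log (kap A0 M e0 w)) ≤ ce e := by
    intro e
    refine ⟨FS_add (FS_mul (hzF e) _) (hck K).1, ?_⟩
    rw [tot_add (FS_mul (hzF e) _) (hck K).1, tot_mul (hzF e)]
    exact add_le_add le_rfl (hck K).2
  have hsum : ∀ w, ∑ i, x i w ≤ (d : ℝ) * Gf w + ∑ e : Fin (d + 1) ↪ Fin L,
      ((N : ℝ) * z e w + Real.log (kap A0 M e0 w)) := by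
    intro w
    refine (hcomb L d (fun i => x i w) (Gf w) (hG0 w) (fun i => hx0 i w)
      (fun i => hxG i w)).trans ?_
    exact add_le_add le_rfl (Finset.sum_le_sum (fun e _ => htup e w))
  have htot := tot_le (FS_sum Finset.univ (fun i _ => hxF i))
    (FS_add (FS_mul hGF _) (FS_sum Finset.univ (fun e _ => (hFe e).1)))
    (fun w => hsum (ai w)) (fun w => hsum (av w))
  rw [tot_sum _ (fun i _ => hxF i), tot_add (FS_mul hGF _)
    (FS_sum Finset.univ (fun e _ => (hFe e).1)), tot_mul hGF,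
    tot_sum _ (fun e _ => (hFe e).1)] at htot
  -- the number of bad translates
  have hfin : {i | P + q i ∈ BadG Γ δ f ε T}.Finite := Set.toFinite _
  rw [Set.ncard_eq_toFinset_card _ hfin]
  have h1 : (hfin.toFinset.card : ℝ) * (ε * T) ≤ ∑ i, tot (x i) := by
    rw [← nsmul_eq_mul, ← Finset.sum_const]
    refine (Finset.sum_le_sum (fun i hi => ?_)).trans (Finset.sum_le_sum_of_subset_of_nonneg
      (Finset.subset_univ hfin.toFinset) (fun i _ _ => tot_nonneg (hxF i) (hx0 i)))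
    have hi' : P + q i ∈ BadG Γ δ f ε T := hfin.mem_toFinset.mp hi
    rcases hi'.2 with h | h
    · obtain ⟨j, hj⟩ := hfne i
      exact absurd (h j) hj
    · exact h.le
  have h2 : ∑ e : Fin (d + 1) ↪ Fin L, tot (fun w =>
      (N : ℝ) * z e w + Real.log (kap A0 M e0 w)) ≤ ∑ e, ce e :=
    Finset.sum_le_sum (fun e _ => (hFe e).2)
  have h3 : (d : ℝ) * tot Gf ≤ d * (4 * N1 * D * T + C2) :=
    mul_le_mul_of_nonneg_left hGT (Nat.cast_nonneg _)
  rw [le_div_iff₀ hε]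
  have h4 : (hfin.toFinset.card : ℝ) * ε * T ≤ (4 * d * N1 * D + 1) * T := by
    have h5 : (hfin.toFinset.card : ℝ) * (ε * T) = (hfin.toFinset.card : ℝ) * ε * T := by ring
    rw [← h5]
    linarith
  exact le_of_mul_le_mul_right h4 hTpos

end Pool.Agent.TH954.Z
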