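import Pool.Agent.TH954.Z.Defs
import Pool.Agent.TH954.Y.Fin1
import Pool.Agent.TH954.X.ParR

/-!
# Averaging over translates; one place
-/

set_option autoImplicit false
set_option linter.unusedSectionVars false

open MvPolynomial Pool.Agent.TH954.X Pool.Agent.TH954.V Pool.Agent.TH954.Y NumberField

namespace Pool.Agent.TH954.Z

open Classical in
/-- averaging over translates -/
lemma avg {G : Type} [AddCommGroup G] {L : ℕ} (q : Fin L → G) (Bad Big Exc : Set G)
    (hBig : Big.Finite) (hmove : ∀ P ∈ Bad, ∀ i, P - q i ∈ Big) (M : ℕ)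
    (hM : ∀ P ∈ Big, P ∉ Exc → {i | P + q i ∈ Bad}.ncard ≤ M) :
    L * Bad.ncard ≤ M * Big.ncard + L * (Exc ∩ Big).ncard := by
  rcases Nat.eq_zero_or_pos L with h0 | h0
  · rw [h0]; simp
  have hinj : ∀ i, Function.Injective (fun P : G => P - q i) := fun i P Q h => sub_left_injective h
  have hBad : Bad.Finite := by
    refine Set.Finite.of_finite_image (f := fun P : G => P - q ⟨0, h0⟩) (hBig.subset ?_)
      (hinj _).injOn
    rintro _ ⟨P, hP, rfl⟩
    exact hmove P hP _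
  have hEB : (Exc ∩ Big).Finite := hBig.subset Set.inter_subset_right
  rw [Set.ncard_eq_toFinset_card Bad hBad, Set.ncard_eq_toFinset_card Big hBig,
    Set.ncard_eq_toFinset_card _ hEB]
  set B := hBad.toFinset with hB
  set A := hBig.toFinset with hA
  have h1 : ∀ i, B.card ≤ (A.filter (fun P => P + q i ∈ B)).card := by
    intro i
    refine Finset.card_le_card_of_injOn (fun P => P - q i) (fun P hP => ?_) (hinj i).injOn
    rw [Finset.mem_coe, Finset.mem_filter, sub_add_cancel]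
    exact ⟨hBig.mem_toFinset.mpr (hmove P (hBad.mem_toFinset.mp hP) i), hP⟩
  have h2 : L * B.card ≤ ∑ i : Fin L, (A.filter (fun P => P + q i ∈ B)).card := by
    calc L * B.card = ∑ _i : Fin L, B.card := by
          rw [Finset.sum_const, Finset.card_univ, Fintype.card_fin, smul_eq_mul]
      _ ≤ _ := Finset.sum_le_sum (fun i _ => h1 i)
  have h3 : ∑ i : Fin L, (A.filter (fun P => P + q i ∈ B)).card =
      ∑ P ∈ A, (Finset.univ.filter (fun i : Fin L => P + q i ∈ B)).card := by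
    simp_rw [Finset.card_filter]
    exact Finset.sum_comm
  rw [h3] at h2
  refine h2.trans ?_
  have h4 : ∀ P ∈ A, (Finset.univ.filter (fun i : Fin L => P + q i ∈ B)).card ≤
      M + if P ∈ Exc then L else 0 := by
    intro P hP
    by_cases hE : P ∈ Exc
    · rw [if_pos hE]
      refine le_trans (Finset.card_le_univ _) ?_
      rw [Fintype.card_fin]
      exact Nat.le_add_left _ _
    · rw [if_neg hE, add_zero]
      refine le_trans (le_of_eq ?_) (hM P (hBig.mem_toFinset.mp hP) hE)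
      rw [← Set.ncard_coe_finset]
      congr 1
      ext i
      simp [hB]
  refine (Finset.sum_le_sum h4).trans ?_
  rw [Finset.sum_add_distrib, Finset.sum_const, smul_eq_mul, mul_comm M, ← Finset.sum_filter,
    Finset.sum_const, smul_eq_mul, mul_comm L]
  refine Nat.add_le_add_left (Nat.mul_le_mul_right _ (Finset.card_le_card ?_)) _
  intro P hP
  obtain ⟨h5, h6⟩ := Finset.mem_filter.mp hP
  exact hEB.mem_toFinset.mpr ⟨h6, hBig.mem_toFinset.mp h5⟩

variable {K : Type} [Field K] [NumberField K] {n β : ℕ}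

lemma vc_ne_zero {A : Fin β → AbV K n} (P : Bp A K) (b : Fin β) : vc P b ≠ 0 :=
  (P b).2.1.ne_zero

lemma vcT_ne_zero {A : Fin β → AbV K n} {d : ℕ} (Q : Fin d → Bp A K) (p : Fin d × Fin β) :
    vcT Q p ≠ 0 := (Q p.1 p.2).2.1.ne_zero

lemma ht_nonneg {A : Fin β → AbV K n} (P : Bp A K) : 0 ≤ ht P :=
  Finset.sum_nonneg (fun _ _ => Height.logHeight_nonneg _)

lemma ht_add (A : Fin β → AbV K n) : ∃ C : ℝ, 0 ≤ C ∧ ∀ P Q : Bp A K,
    ht (P - Q) ≤ 2 * ht P + 2 * ht Q + C := by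
  choose C hC0 hC using fun b => par_unif (A b).toAbR
  refine ⟨∑ b, C b * Module.finrank ℚ K, Finset.sum_nonneg (fun b _ =>
    mul_nonneg (hC0 b) (Nat.cast_nonneg _)), fun P Q => ?_⟩
  unfold ht
  rw [Finset.mul_sum, Finset.mul_sum, ← Finset.sum_add_distrib, ← Finset.sum_add_distrib]
  refine Finset.sum_le_sum (fun b _ => ?_)
  have h1 := hC b K (P b) (Q b)
  rw [abs_le] at h1
  have h2 : 0 ≤ Height.logHeight ((P b + Q b).1) := Height.logHeight_nonneg _
  have h3 : vc (P - Q) b = (P b - Q b).1 := rfl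
  have h4 : vc P b = (P b).1 := rfl
  have h5 : vc Q b = (Q b).1 := rfl
  rw [h3, h4, h5]
  linarith [h1.2]

/-- the points of `Γ` of height at most `T` -/
def GB {A : Fin β → AbV K n} (Γ : AddSubgroup (Bp A K)) (T : ℝ) : Set (Bp A K) :=
  {P | P ∈ Γ ∧ ht P ≤ T}

/-- translates of balls -/
lemma move {A : Fin β → AbV K n} (Γ : AddSubgroup (Bp A K)) {L : ℕ} (q : Fin L → Bp A K)
    (hq : ∀ l, q l ∈ Γ) : ∃ T0 : ℝ, ∀ T, T0 ≤ T → ∀ P ∈ GB Γ T, ∀ i, P - q i ∈ GB Γ (4 * T) := by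
  obtain ⟨C, hC0, hC⟩ := ht_add A
  refine ⟨∑ i, ht (q i) + C, fun T hT P hP i => ⟨Γ.sub_mem hP.1 (hq i), ?_⟩⟩
  have h1 := hC P (q i)
  have h2 : ht (q i) ≤ ∑ i, ht (q i) :=
    Finset.single_le_sum (f := fun i => ht (q i)) (fun i _ => ht_nonneg _) (Finset.mem_univ i)
  have h3 := hP.2
  linarith

/-- points of `Γ` near `f = 0` at the absolute value `w` -/
def BadA {A : Fin β → AbV K n} {E : Type} (Γ : AddSubgroup (Bp A K)) (w : AbsoluteValue K ℝ)
    (δ : E → Fin β → ℕ) (f : E → MvPolynomial (Fin β × Fin n) K) (ε T : ℝ) : Set (Bp A K) :=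
  {P | P ∈ GB Γ T ∧ (⨆ i, nvW w (δ i) (f i) (vc P)) ≤ Real.exp (-(ε * T))}

/-- more than `d` elements -/
lemma exists_emb {L d : ℕ} (s : Set (Fin L)) (h : ¬ s.ncard ≤ d) :
    ∃ e : Fin (d + 1) ↪ Fin L, ∀ j, e j ∈ s := by
  classical
  have hfin : s.Finite := Set.toFinite s
  rw [Set.ncard_eq_toFinset_card s hfin, not_le] at h
  have h2 : Fintype.card (Fin (d + 1)) ≤ Fintype.card hfin.toFinset := by
    rw [Fintype.card_fin, Fintype.card_coe]
    exact h
  obtain ⟨e⟩ := Function.Embedding.nonempty_of_card_le h2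
  exact ⟨e.trans (Function.Embedding.subtype _), fun j => hfin.mem_toFinset.mp (e j).2⟩

/-- **Almost all points at one place.** -/
theorem oneplace (hgp : T_gp) (hde : T_dense) (hcn : T_cnt) (A : Fin β → AbV K n)
    (Γ : AddSubgroup (Bp A K)) (hFG : Γ.FG) (hD : DenseB A Γ) {E : Type} [Fintype E]
    (f : E → MvPolynomial (Fin β × Fin n) K) (δ : E → Fin β → ℕ) (hf : ∀ i, MH (δ i) (f i))
    (hc : CodimB A f 1) (w : AbsoluteValue K ℝ) (ε : ℝ) (hε : 0 < ε) (η : ℝ) (hη : 0 < η) :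
    ∃ T0 : ℝ, ∀ T, T0 ≤ T →
      ((BadA Γ w δ f ε T).ncard : ℝ) ≤ η * T ^ ((Module.finrank ℤ Γ : ℝ) / 2) := by
  classical
  obtain ⟨d, Φ, τ, hτ, hΦ, N, M, e0, A0, hM, hloc⟩ := hgp K n β A E f δ hf hc
  obtain ⟨c1, c2, T0, hc1, hT0, hcnt⟩ := hcn K n β A Γ hFG
  set r : ℝ := (Module.finrank ℤ Γ : ℝ) / 2 with hr
  have hr0 : 0 ≤ r := by positivity
  obtain ⟨L, hL⟩ := exists_nat_gt (d * (|c2| * 4 ^ r) / η)
  have hL0 : (0 : ℝ) < L := lt_of_le_of_lt (by positivity) hL
  obtain ⟨q, hq, hqΦ⟩ := hde K n β A Γ hD (d + 1) Φ τ hτ hΦ L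
  obtain ⟨T1, hT1⟩ := move Γ q hq
  have hk : 0 < kap A0 M e0 w := zero_lt_one.trans_le (one_le_kap A0 hM e0 w)
  -- the bound for `T`
  set c : (Fin (d + 1) ↪ Fin L) → ℝ := fun e =>
    (Real.log (kap A0 M e0 w) - N * Real.log (nvW w τ Φ (vcT (fun j => q (e j))))) / ε with hcd
  refine ⟨max (max T0 T1) (∑ e, |c e| + 1), fun T hT => ?_⟩
  have hTT0 : T0 ≤ T := (le_max_left _ _).trans ((le_max_left _ _).trans hT)
  have hTT1 : T1 ≤ T := (le_max_right _ _).trans ((le_max_left _ _).trans hT)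
  have hTc : ∑ e, |c e| + 1 ≤ T := (le_max_right _ _).trans hT
  have hT1' : 1 ≤ T := hT0.trans hTT0
  have hTpos : 0 < T := one_pos.trans_le hT1'
  obtain ⟨hfin, -, hup⟩ := hcnt (4 * T) (by linarith)
  have hmain := avg q (BadA Γ w δ f ε T) (GB Γ (4 * T)) ∅ hfin
    (fun P hP i => hT1 T hTT1 P hP.1 i) d (fun P _ _ => by
      by_contra hcon
      obtain ⟨e, he⟩ := exists_emb _ hcon
      have h1 := hloc w P (fun j => q (e j))
      have h2 : (⨆ p : Fin (d + 1) × E, nvW w (δ p.2) (f p.2) (vc (P + q (e p.1)))) ≤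
          Real.exp (-(ε * T)) := by
        rcases isEmpty_or_nonempty (Fin (d + 1) × E) with he' | he'
        · rw [Real.iSup_of_isEmpty]
          exact (Real.exp_pos _).le
        · refine ciSup_le (fun p => ?_)
          refine le_trans ?_ (he p.1).2
          exact le_ciSup (f := fun i => nvW w (δ i) (f i) (vc (P + q (e p.1))))
            (Set.finite_range _).bddAbove p.2
      have h3 : 0 < nvW w τ Φ (vcT (fun j => q (e j))) :=
        nvW_pos w τ Φ (fun p => vcT_ne_zero _ p) (hqΦ e)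
      have h4 := Real.log_le_log (pow_pos h3 N) (h1.trans (mul_le_mul_of_nonneg_left h2 hk.le))
      rw [Real.log_pow, Real.log_mul hk.ne' (Real.exp_pos _).ne', Real.log_exp] at h4
      have h5 : T ≤ c e := by
        rw [hcd]
        simp only
        rw [le_div_iff₀ hε]
        linarith
      have h6 : |c e| ≤ ∑ e, |c e| :=
        Finset.single_le_sum (f := fun e => |c e|) (fun _ _ => abs_nonneg _) (Finset.mem_univ e)
      have h7 := le_abs_self (c e)
      linarith)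
  rw [Set.empty_inter, Set.ncard_empty, mul_zero, add_zero] at hmain
  have h1 : (L : ℝ) * ((BadA Γ w δ f ε T).ncard : ℝ) ≤ d * ((GB Γ (4 * T)).ncard : ℝ) := by
    exact_mod_cast hmain
  have h2 : ((GB Γ (4 * T)).ncard : ℝ) ≤ |c2| * 4 ^ r * T ^ r := by
    refine hup.trans ?_
    rw [Real.mul_rpow (by norm_num) hTpos.le, mul_assoc]
    exact mul_le_mul_of_nonneg_right (le_abs_self _) (by positivity)
  have h3 : (d : ℝ) * (|c2| * 4 ^ r) ≤ η * L := by
    rw [div_lt_iff₀ hη] at hL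
    linarith
  have h4 : (L : ℝ) * ((BadA Γ w δ f ε T).ncard : ℝ) ≤ L * (η * T ^ r) := by
    calc _ ≤ _ := h1
      _ ≤ d * (|c2| * 4 ^ r * T ^ r) := mul_le_mul_of_nonneg_left h2 (Nat.cast_nonneg _)
      _ = d * (|c2| * 4 ^ r) * T ^ r := by ring
      _ ≤ η * L * T ^ r := mul_le_mul_of_nonneg_right h3 (Real.rpow_nonneg hTpos.le _)
      _ = _ := by ring
  exact le_of_mul_le_mul_left h4 hL0

end Pool.Agent.TH954.Z
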