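import Pool.Agent.TH954.X.AbV
import Pool.Agent.TH954.X.Basic

/-!
# Local heights on products of abelian varieties for almost all rational points: definitions and
targets
-/

set_option autoImplicit false

open MvPolynomial Pool.Agent.TH954.X Pool.Agent.TH954.V

namespace Pool.Agent.TH954.Z

section defs

variable {K : Type} [Field K] {n β : ℕ}

/-- the points over `F` of the product `B` of the abelian varieties `A b` -/
abbrev Bp (A : Fin β → AbV K n) (F : Type) [Field F] [Algebra K F] : Type := ∀ b, (A b).Pt F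

/-- the coordinates of a point of `B` -/
def vc {A : Fin β → AbV K n} {F : Type} [Field F] [Algebra K F] (P : Bp A F) :
    Fin β → Fin n → F := fun b => (P b).1

/-- the coordinates of a tuple of points of `B` -/
def vcT {A : Fin β → AbV K n} {F : Type} [Field F] [Algebra K F] {d : ℕ} (Q : Fin d → Bp A F) :
    Fin d × Fin β → Fin n → F := fun p => (Q p.1 p.2).1

/-- the form `Φ` does not vanish identically on `B` -/
def NZ (A : Fin β → AbV K n) (Φ : MvPolynomial (Fin β × Fin n) K) : Prop :=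
  ∃ (F : Type) (_ : Field F) (_ : Algebra K F) (P : Bp A F), ev Φ (vc P) ≠ 0

/-- the form `Φ` does not vanish identically on `B ^ d` -/
def NZT (A : Fin β → AbV K n) (d : ℕ) (Φ : MvPolynomial ((Fin d × Fin β) × Fin n) K) : Prop :=
  ∃ (F : Type) (_ : Field F) (_ : Algebra K F) (Q : Fin d → Bp A F), ev Φ (vcT Q) ≠ 0

/-- transcendence degree over `K` of the field generated by the coordinates -/
noncomputable def td {ι : Type} {F : Type} [Field F] [Algebra K F] (u : ι → Fin n → F) :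
    Cardinal :=
  Algebra.trdeg K (IntermediateField.adjoin K (Set.range (fun p : ι × Fin n => u p.1 p.2)))

/-- the closed subset `f = 0` of `B` has codimension at least `c` -/
def CodimB (A : Fin β → AbV K n) {E : Type} (f : E → MvPolynomial (Fin β × Fin n) K) (c : ℕ) :
    Prop :=
  ∀ (F : Type) [Field F] [Algebra K F] (P : Bp A F), (∀ i, ev (f i) (vc P) = 0) →
    td (K := K) (vc P) + (c : Cardinal) ≤ ((∑ b, (A b).dim : ℕ) : Cardinal)

/-- the subgroup `Γ` of `B(K)` is dense in the Zariski topology -/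
def DenseB (A : Fin β → AbV K n) (Γ : AddSubgroup (Bp A K)) : Prop :=
  ∀ (Φ : MvPolynomial (Fin β × Fin n) K) (τ : Fin β → ℕ), MH τ Φ →
    (∀ P ∈ Γ, ev Φ (vc P) = 0) → ¬ NZ A Φ

/-- the coordinates of the point `(t, P)` of `ℙ × B` -/
def fl {A : Fin β → AbV K n} {F : Type} [Field F] [Algebra K F] (t : Fin n → F) (P : Bp A F) :
    Option (Fin β) → Fin n → F := fun o => Option.elim o t (vc P)

/-- the height of a point of `B` -/
noncomputable def ht [NumberField K] {A : Fin β → AbV K n} (P : Bp A K) : ℝ :=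
  ∑ b, Height.logHeight (vc P b)

end defs

/-- **Target `gp`.** Translates `Y - Q j` of `Y : f = 0` in general position have empty intersection. -/
def T_gp : Prop := ∀ (K : Type) [Field K] (n β : ℕ) (A : Fin β → AbV K n) (E : Type) [Fintype E]
  (f : E → MvPolynomial (Fin β × Fin n) K) (δ : E → Fin β → ℕ), (∀ i, MH (δ i) (f i)) →
  CodimB A f 1 →
  ∃ (d : ℕ) (Φ : MvPolynomial ((Fin (d + 1) × Fin β) × Fin n) K) (τ : Fin (d + 1) × Fin β → ℕ),
    MH τ Φ ∧ NZT A (d + 1) Φ ∧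
    ∃ (N M e : ℕ) (A0 : Finset K), 1 ≤ M ∧ ∀ (w : AbsoluteValue K ℝ) (P : Bp A K)
      (Q : Fin (d + 1) → Bp A K),
      nvW w τ Φ (vcT Q) ^ N ≤ kap A0 M e w *
        ⨆ p : Fin (d + 1) × E, nvW w (δ p.2) (f p.2) (vc (P + Q p.1))

/-- **Target `hyp`.** Hypersurfaces of small degree containing `L` translates of a closed subset of
codimension two. -/
def T_hyp : Prop := ∀ (K : Type) [Field K] (n β : ℕ) (A : Fin β → AbV K n) (E : Type) [Fintype E]
  (f : E → MvPolynomial (Fin β × Fin n) K) (δ : E → Fin β → ℕ), (∀ i, MH (δ i) (f i)) →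
  CodimB A f 2 →
  ∃ (C N : ℕ), ∀ (L : ℕ) (q : Fin L → Bp A K),
    ∃ (D : ℕ) (G : MvPolynomial (Fin β × Fin n) K) (τ : Fin β → ℕ), D ^ 2 ≤ C * (L + 1) ∧
      (∀ b, τ b ≤ D) ∧ MH τ G ∧ NZ A G ∧
      ∃ (M e : ℕ) (A0 : Finset K), 1 ≤ M ∧ ∀ (w : AbsoluteValue K ℝ) (P : Bp A K) (i : Fin L),
        nvW w τ G (vc P) ^ N ≤ kap A0 M e w * ⨆ j, nvW w (δ j) (f j) (vc (P + q i))

/-- **Target `dense`.** Tuples of points of a dense subgroup in general position. -/
def T_dense : Prop := ∀ (K : Type) [Field K] (n β : ℕ) (A : Fin β → AbV K n)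
  (Γ : AddSubgroup (Bp A K)), DenseB A Γ → ∀ (d : ℕ)
  (Φ : MvPolynomial ((Fin d × Fin β) × Fin n) K) (τ : Fin d × Fin β → ℕ), MH τ Φ → NZT A d Φ →
  ∀ L : ℕ, ∃ q : Fin L → Bp A K, (∀ l, q l ∈ Γ) ∧
    ∀ e : Fin d ↪ Fin L, ev Φ (vcT (fun j => q (e j))) ≠ 0

/-- **Target `cnt`.** The number of points of bounded height in a finitely generated subgroup. -/
def T_cnt : Prop := ∀ (K : Type) [Field K] [NumberField K] (n β : ℕ) (A : Fin β → AbV K n)
  (Γ : AddSubgroup (Bp A K)), Γ.FG → ∃ (c1 c2 T0 : ℝ), 0 < c1 ∧ 1 ≤ T0 ∧ ∀ T : ℝ, T0 ≤ T →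
    {P | P ∈ Γ ∧ ht P ≤ T}.Finite ∧
    c1 * T ^ ((Module.finrank ℤ Γ : ℝ) / 2) ≤ ({P | P ∈ Γ ∧ ht P ≤ T}.ncard : ℝ) ∧
    ({P | P ∈ Γ ∧ ht P ≤ T}.ncard : ℝ) ≤ c2 * T ^ ((Module.finrank ℤ Γ : ℝ) / 2)

/-- **Target `redG`.** The closure of the image in `B` of a closed subset `f = 0` of `X : g = 0` in
`ℙ × B`. -/
def T_redG : Prop := ∀ (K : Type) [Field K] (n β : ℕ) (A : Fin β → AbV K n) (E1 E2 : Type)
  [Fintype E1] [Fintype E2] (g : E1 → MvPolynomial (Option (Fin β) × Fin n) K),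
  (∀ i, ∃ γ, MH γ (g i)) →
  ∀ (f : E2 → MvPolynomial (Option (Fin β) × Fin n) K) (δ : E2 → Option (Fin β) → ℕ),
    (∀ i, MH (δ i) (f i)) → ∀ c : ℕ,
    (∀ (F : Type) [Field F] [Algebra K F] (t : Fin n → F) (P : Bp A F), t ≠ 0 →
      (∀ i, ev (g i) (fl t P) = 0) → (∀ i, ev (f i) (fl t P) = 0) →
      td (K := K) (vc P) + (c : Cardinal) ≤ ((∑ b, (A b).dim : ℕ) : Cardinal)) →
  ∃ (s : ℕ) (h : Fin s → MvPolynomial (Fin β × Fin n) K) (η : Fin s → Fin β → ℕ),
    (∀ i, MH (η i) (h i)) ∧ CodimB A h c ∧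
    ∃ (N M : ℕ) (A0 : Finset K), 1 ≤ M ∧ ∀ (w : AbsoluteValue K ℝ) (t : Fin n → K)
      (P : Bp A K), t ≠ 0 → (∀ i, ev (g i) (fl t P) = 0) →
      (⨆ i, nvW w (η i) (h i) (vc P)) ^ N ≤ kap A0 M 1 w * ⨆ i, nvW w (δ i) (f i) (fl t P)

end Pool.Agent.TH954.Z
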