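import Pool.Agent.TH954.Z.Defs
import Pool.Agent.TH954.X2.WDefs

/-!
# Local heights on products of abelian varieties for almost all rational points: more targets
-/

set_option autoImplicit false

open MvPolynomial Pool.Agent.TH954.X Pool.Agent.TH954.V

namespace Pool.Agent.TH954.Z

/-- the dimension of `B` is at most the sum of the numbers `dim` -/
def Top {K : Type} [Field K] {n β : ℕ} (A : Fin β → AbV K n) : Prop :=
  ∀ (F : Type) [Field F] [Algebra K F] (P : Bp A F),
    td (K := K) (vc P) ≤ ((∑ b, (A b).dim : ℕ) : Cardinal)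

/-- **Target `top`.** Hypersurfaces have codimension at least one. -/
def T_top : Prop := ∀ (K : Type) [Field K] (n β : ℕ) (A : Fin β → AbV K n), Top A →
  ∀ (G : MvPolynomial (Fin β × Fin n) K) (τ : Fin β → ℕ), MH τ G → NZ A G →
    CodimB A (fun _ : Unit => G) 1

/-- **Target `wtop`.** Weierstrass curves are instances. -/
def T_wtop : Prop := ∀ (K : Type) [Field K] [CharZero K] (n : ℕ), 3 ≤ n → ∀ (β : ℕ)
  (a b : Fin β → K), (∀ i, 4 * a i ^ 3 + 27 * b i ^ 2 ≠ 0) →
  ∃ A : Fin β → AbV K n, Top A ∧ ∀ i, (A i).dim = 1 ∧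
    ∀ (F : Type) [Field F] [DecidableEq F] [Algebra K F],
      ∃ e : (A i).Pt F ≃+ (We.curve (algebraMap K F (a i)) (algebraMap K F (b i))).toAffine.Point,
        ∀ P : (A i).Pt F, P.1 =
          fun c : Fin n => if h : c.1 < 3 then We.coords (e P) ⟨c.1, h⟩ else 0

end Pool.Agent.TH954.Z
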