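import Pool.Agent.TH954.Z.Main2

/-!
# Almost all points: the proportion of exceptions tends to zero
-/

set_option autoImplicit false
set_option linter.unusedSectionVars false

open MvPolynomial Pool.Agent.TH954.X Pool.Agent.TH954.V Pool.Agent.TH954.Y NumberField Filter

namespace Pool.Agent.TH954.Z

/-- from `o (T ^ r)` to proportions -/
lemma Small.tendsto {γ : Type} {r : ℝ} {X B : ℝ → Set γ} (hX : Small r X) {c1 T0 : ℝ}
    (hc1 : 0 < c1) (hT0 : 1 ≤ T0) (hB : ∀ T, T0 ≤ T → c1 * T ^ r ≤ ((B T).ncard : ℝ)) :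
    Tendsto (fun T : ℝ => ((X T).ncard : ℝ) / ((B T).ncard : ℝ)) atTop (nhds 0) := by
  rw [Metric.tendsto_atTop]
  intro ε hε
  obtain ⟨T1, hT1⟩ := hX (ε / 2 * c1) (by positivity)
  refine ⟨max T0 T1, fun T hT => ?_⟩
  have hTT0 : T0 ≤ T := (le_max_left _ _).trans hT
  have hTT1 : T1 ≤ T := (le_max_right _ _).trans hT
  have hTpos : 0 < T := (one_pos.trans_le hT0).trans_le hTT0
  have h1 := hB T hTT0
  have h2 := (hT1 T hTT1).2
  have hTr : 0 < T ^ r := Real.rpow_pos_of_pos hTpos _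
  have h3 : 0 < ((B T).ncard : ℝ) := lt_of_lt_of_le (mul_pos hc1 hTr) h1
  rw [Real.dist_eq, sub_zero, abs_of_nonneg (by positivity), div_lt_iff₀ h3]
  have h4 : ε / 2 * c1 * T ^ r ≤ ε / 2 * ((B T).ncard : ℝ) := by
    rw [mul_assoc]
    exact mul_le_mul_of_nonneg_left h1 (by positivity)
  nlinarith

end Pool.Agent.TH954.Z
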