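import Pool.Agent.TH954.Z.AllP
import Pool.Agent.TH954.Z.Defs2

/-!
# Almost all points, all places: products of abelian varieties
-/

set_option autoImplicit false
set_option linter.unusedSectionVars false

open MvPolynomial Pool.Agent.TH954.X Pool.Agent.TH954.V Pool.Agent.TH954.Y NumberField

namespace Pool.Agent.TH954.Z

variable {K : Type} [Field K] [NumberField K] {n β : ℕ}

lemma CodimB.mono {A : Fin β → AbV K n} {E : Type} {f : E → MvPolynomial (Fin β × Fin n) K}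
    {c c' : ℕ} (h : CodimB A f c) (hc : c' ≤ c) : CodimB A f c' := by
  intro F _ _ P hP
  refine le_trans (add_le_add le_rfl ?_) (h F P hP)
  exact_mod_cast hc

/-- the choice of the number of translates -/
lemma exists_L (d N1 C : ℕ) (c ε η : ℝ) (hc : 0 ≤ c) (hε : 0 < ε) (hη : 0 < η) :
    ∃ L : ℕ, 0 < L ∧ ∀ D : ℕ, D ^ 2 ≤ C * (L + 1) →
      ((4 * d * N1 * D + 1) / ε) * c ≤ η * L := by
  obtain ⟨m, hm⟩ := exists_nat_gt (((4 * d * N1 * (2 * C) + 1) / ε) * c / η)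
  refine ⟨(m + 1) ^ 2, by positivity, fun D hD => ?_⟩
  have h1 : D ≤ 2 * C * (m + 1) := by
    by_contra hcon
    push Not at hcon
    have h2 : (2 * C * (m + 1)) ^ 2 < D ^ 2 := Nat.pow_lt_pow_left hcon (by norm_num)
    rcases Nat.eq_zero_or_pos C with h0 | h0
    · subst h0
      simp at hD h2
      omega
    · have h3 : C * ((m + 1) ^ 2 + 1) ≤ (2 * C * (m + 1)) ^ 2 := by
        have h4 : 1 ≤ (m + 1) ^ 2 := Nat.one_le_pow _ _ (by omega)
        calc C * ((m + 1) ^ 2 + 1) ≤ C * (2 * (m + 1) ^ 2) := Nat.mul_le_mul_left _ (by omega)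
          _ = 1 * (C * (2 * (m + 1) ^ 2)) := (one_mul _).symm
          _ ≤ (2 * C) * (C * (2 * (m + 1) ^ 2)) := Nat.mul_le_mul_right _ (by omega)
          _ = (2 * C * (m + 1)) ^ 2 := by ring
      omega
  have h2 : (D : ℝ) ≤ 2 * C * (m + 1) := by exact_mod_cast h1
  have h3 : (4 * d * N1 * (D : ℝ) + 1) ≤ (4 * d * N1 * (2 * C) + 1) * (m + 1) := by
    have h4 : (4 * d * N1 : ℝ) * D ≤ (4 * d * N1 : ℝ) * (2 * C * (m + 1)) :=
      mul_le_mul_of_nonneg_left h2 (by positivity)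
    have h5 : (0 : ℝ) ≤ m := Nat.cast_nonneg _
    nlinarith
  have h4 : ((4 * d * N1 * (D : ℝ) + 1) / ε) * c ≤
      ((4 * d * N1 * (2 * C) + 1) / ε) * c * (m + 1) := by
    have h5 : ((4 * d * N1 * (2 * C) + 1) / ε) * c * (m + 1) =
        (((4 * d * N1 * (2 * C) + 1) * (m + 1)) / ε) * c := by ring
    rw [h5]
    refine mul_le_mul_of_nonneg_right ?_ hc
    exact div_le_div_of_nonneg_right h3 hε.le
  refine h4.trans ?_
  rw [div_lt_iff₀ hη] at hm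
  push_cast
  have h5 : (0 : ℝ) ≤ m := Nat.cast_nonneg _
  have h6 : ((4 * d * N1 * (2 * C) + 1) / ε) * c ≤ η * (m + 1) := by nlinarith
  nlinarith

/-- **Almost all points, all places.** -/
theorem allplaces (hgp : T_gp) (hde : T_dense) (hcn : T_cnt) (hhy : T_hyp) (hto : T_top)
    (hcomb : T_comb) (A : Fin β → AbV K n) (hA : Top A)
    (Γ : AddSubgroup (Bp A K)) (hFG : Γ.FG) (hD : DenseB A Γ) {E : Type} [Fintype E]
    (f : E → MvPolynomial (Fin β × Fin n) K) (δ : E → Fin β → ℕ) (hf : ∀ i, MH (δ i) (f i))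
    (hc : CodimB A f 2) (ε : ℝ) (hε : 0 < ε) (η : ℝ) (hη : 0 < η) :
    ∃ T0 : ℝ, ∀ T, T0 ≤ T →
      ((BadG Γ δ f ε T).ncard : ℝ) ≤ η * T ^ ((Module.finrank ℤ Γ : ℝ) / 2) := by
  classical
  obtain ⟨d, Φ, τ, hτ, hΦ, N, M, e0, A0, hM, hloc⟩ := hgp K n β A E f δ hf
    (hc.mono (by norm_num))
  obtain ⟨C, N1, hhyp⟩ := hhy K n β A E f δ hf hc
  obtain ⟨c1, c2, T0, hc1, hT0, hcnt⟩ := hcn K n β A Γ hFG
  set r : ℝ := (Module.finrank ℤ Γ : ℝ) / 2 with hr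
  have hr0 : 0 ≤ r := by positivity
  obtain ⟨L, hL0, hL⟩ := exists_L d N1 C (|c2| * 4 ^ r) ε (η / 2) (by positivity) hε
    (by positivity)
  have hLR : (0 : ℝ) < L := by exact_mod_cast hL0
  obtain ⟨q, hq, hqΦ⟩ := hde K n β A Γ hD (d + 1) Φ τ hτ hΦ L
  obtain ⟨D, G, σ, hDC, hσD, hσ, hGN, M1, e1, A1, hM1, hGl⟩ := hhyp L q
  obtain ⟨T1, hT1⟩ := move Γ q hq
  obtain ⟨T2, hT2⟩ := fewbad hcomb (Γ := Γ) f δ hf hτ hM hloc hqΦ hσD hσ hM1 hGl ε hε
  set w1 : AbsoluteValue K ℝ := ai (Classical.arbitrary (InfinitePlace K)) with hw1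
  obtain ⟨T3, hT3⟩ := oneplace hgp hde hcn A Γ hFG hD (fun _ : Unit => G) (fun _ => σ)
    (fun _ => hσ) (hto K n β A hA G σ hσ hGN) w1 1 one_pos (η / (2 * 4 ^ r)) (by positivity)
  refine ⟨max (max T0 T1) (max T2 (max T3 1)), fun T hT => ?_⟩
  have hTT0 : T0 ≤ T := (le_max_left _ _).trans ((le_max_left _ _).trans hT)
  have hTT1 : T1 ≤ T := (le_max_right _ _).trans ((le_max_left _ _).trans hT)
  have hTT2 : T2 ≤ T := (le_max_left _ _).trans ((le_max_right _ _).trans hT)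
  have hTT3 : T3 ≤ T := ((le_max_left _ _).trans (le_max_right _ _)).trans
    ((le_max_right _ _).trans hT)
  have hT1' : 1 ≤ T := hT0.trans hTT0
  have hTpos : 0 < T := one_pos.trans_le hT1'
  obtain ⟨hfin, -, hup⟩ := hcnt (4 * T) (by linarith)
  set Mx : ℕ := ⌊(4 * d * N1 * D + 1) / ε⌋₊ with hMx
  have hMx0 : (0 : ℝ) ≤ (4 * d * N1 * D + 1) / ε := by positivity
  have hmain := avg q (BadG Γ δ f ε T) (GB Γ (4 * T)) {P | ev G (vc P) = 0} hfin
    (fun P hP i => hT1 T hTT1 P hP.1 i) Mx (fun P hP hPE => by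
      rw [hMx]
      exact Nat.le_floor (hT2 T hTT2 hT1' P hP hPE))
  have hexc : (({P | ev G (vc P) = 0} ∩ GB Γ (4 * T)).ncard : ℝ) ≤
      η / (2 * 4 ^ r) * (4 * T) ^ r := by
    refine le_trans ?_ (hT3 (4 * T) (by linarith))
    have hsub : {P | ev G (vc P) = 0} ∩ GB Γ (4 * T) ⊆
        BadA Γ w1 (fun _ : Unit => σ) (fun _ => G) 1 (4 * T) := by
      rintro P ⟨h0, hP⟩
      refine ⟨hP, ?_⟩
      have h1 : (⨆ _ : Unit, nvW w1 σ G (vc P)) = 0 := by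
        rw [ciSup_const]
        have h0' : ev G (vc P) = 0 := h0
        simp [nvW, h0']
      rw [h1]
      exact (Real.exp_pos _).le
    exact_mod_cast Set.ncard_le_ncard hsub (hfin.subset (fun P hP => hP.1))
  have hexc2 : η / (2 * 4 ^ r) * (4 * T) ^ r = η / 2 * T ^ r := by
    rw [Real.mul_rpow (by norm_num) hTpos.le]
    have : (4 : ℝ) ^ r ≠ 0 := (Real.rpow_pos_of_pos (by norm_num) _).ne'
    field_simp
  rw [hexc2] at hexc
  have h1 : (L : ℝ) * ((BadG Γ δ f ε T).ncard : ℝ) ≤ Mx * ((GB Γ (4 * T)).ncard : ℝ) +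
      L * (({P | ev G (vc P) = 0} ∩ GB Γ (4 * T)).ncard : ℝ) := by
    exact_mod_cast hmain
  have h2 : ((GB Γ (4 * T)).ncard : ℝ) ≤ |c2| * 4 ^ r * T ^ r := by
    refine hup.trans ?_
    rw [Real.mul_rpow (by norm_num) hTpos.le, mul_assoc]
    exact mul_le_mul_of_nonneg_right (le_abs_self _) (by positivity)
  have h3 : (Mx : ℝ) * ((GB Γ (4 * T)).ncard : ℝ) ≤ η / 2 * L * T ^ r := by
    calc (Mx : ℝ) * ((GB Γ (4 * T)).ncard : ℝ) ≤
          ((4 * d * N1 * D + 1) / ε) * (|c2| * 4 ^ r * T ^ r) :=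
          mul_le_mul (Nat.floor_le hMx0) h2 (Nat.cast_nonneg _) hMx0
      _ = ((4 * d * N1 * D + 1) / ε) * (|c2| * 4 ^ r) * T ^ r := by ring
      _ ≤ _ := mul_le_mul_of_nonneg_right (hL D hDC) (Real.rpow_nonneg hTpos.le _)
  have h4 : (L : ℝ) * (({P | ev G (vc P) = 0} ∩ GB Γ (4 * T)).ncard : ℝ) ≤
      L * (η / 2 * T ^ r) := mul_le_mul_of_nonneg_left hexc hLR.le
  have h5 : (L : ℝ) * ((BadG Γ δ f ε T).ncard : ℝ) ≤ L * (η * T ^ r) := by
    have : (L : ℝ) * (η * T ^ r) = η / 2 * L * T ^ r + L * (η / 2 * T ^ r) := by ring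
    linarith
  exact le_of_mul_le_mul_left h5 hLR

end Pool.Agent.TH954.Z
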