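import Pool.Agent.TH954.Z.Main1

/-!
# Almost all points: varieties over products of abelian varieties
-/

set_option autoImplicit false
set_option linter.unusedSectionVars false

open MvPolynomial Pool.Agent.TH954.X Pool.Agent.TH954.V Pool.Agent.TH954.Y NumberField

namespace Pool.Agent.TH954.Z

/-- families of finite sets whose cardinality is `o (T ^ r)` -/
def Small {γ : Type} (r : ℝ) (X : ℝ → Set γ) : Prop :=
  ∀ η : ℝ, 0 < η → ∃ T0 : ℝ, ∀ T, T0 ≤ T → (X T).Finite ∧ ((X T).ncard : ℝ) ≤ η * T ^ r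

lemma Small.union {γ : Type} {r : ℝ} {X Y : ℝ → Set γ} (hX : Small r X) (hY : Small r Y) :
    Small r (fun T => X T ∪ Y T) := by
  intro η hη
  obtain ⟨T1, h1⟩ := hX (η / 2) (by positivity)
  obtain ⟨T2, h2⟩ := hY (η / 2) (by positivity)
  refine ⟨max T1 T2, fun T hT => ?_⟩
  obtain ⟨h3, h4⟩ := h1 T ((le_max_left _ _).trans hT)
  obtain ⟨h5, h6⟩ := h2 T ((le_max_right _ _).trans hT)
  refine ⟨h3.union h5, ?_⟩
  have h7 : ((X T ∪ Y T).ncard : ℝ) ≤ (X T).ncard + (Y T).ncard := by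
    exact_mod_cast Set.ncard_union_le _ _
  linarith

lemma Small.biUnion {γ ι : Type} {r : ℝ} (s : Finset ι) {X : ι → ℝ → Set γ}
    (hX : ∀ i, Small r (X i)) : Small r (fun T => ⋃ i ∈ s, X i T) := by
  classical
  induction s using Finset.induction_on with
  | empty =>
    intro η hη
    refine ⟨1, fun T hT => ?_⟩
    have hT0 : 0 < T := one_pos.trans_le hT
    have : 0 ≤ η * T ^ r := mul_nonneg hη.le (Real.rpow_nonneg hT0.le _)
    simpa using this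
  | insert a s ha ih =>
    have h1 : (fun T => ⋃ i ∈ insert a s, X i T) = fun T => X a T ∪ ⋃ i ∈ s, X i T := by
      funext T
      rw [Finset.set_biUnion_insert]
    rw [h1]
    exact (hX a).union ih

variable {K : Type} [Field K] [NumberField K] {n β : ℕ}

lemma fl_ne_zero {A : Fin β → AbV K n} {t : Fin n → K} (ht : t ≠ 0) (P : Bp A K)
    (o : Option (Fin β)) : fl t P o ≠ 0 := by
  cases o with
  | none => exact ht
  | some i => exact vc_ne_zero P i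

/-- the exceptional points -/
def ExcG {A : Fin β → AbV K n} (Γ : AddSubgroup (Bp A K)) {E1 E2 E3 : Type}
    (g : E1 → MvPolynomial (Option (Fin β) × Fin n) K)
    (f2 : E2 → MvPolynomial (Option (Fin β) × Fin n) K) (δ2 : E2 → Option (Fin β) → ℕ)
    (f3 : E3 → MvPolynomial (Option (Fin β) × Fin n) K) (δ3 : E3 → Option (Fin β) → ℕ)
    (S1 : Finset (InfinitePlace K)) (S2 : Finset (FinitePlace K)) (ε T : ℝ) : Set (Bp A K) :=
  {P | P ∈ GB Γ T ∧ ∃ t : Fin n → K, t ≠ 0 ∧ (∀ i, ev (g i) (fl t P) = 0) ∧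
    ((∀ i, ev (f2 i) (fl t P) = 0) ∨ (∀ i, ev (f3 i) (fl t P) = 0) ∨
      ε * ht P < tot (lamx δ2 f2 (fl t P)) + prox δ3 f3 S1 S2 (fl t P))}

/-- the estimate at one scale -/
lemma scaleG {A : Fin β → AbV K n} (Γ : AddSubgroup (Bp A K)) {s2 s3 : ℕ}
    (h2 : Fin s2 → MvPolynomial (Fin β × Fin n) K) (η2 : Fin s2 → Fin β → ℕ)
    (h3 : Fin s3 → MvPolynomial (Fin β × Fin n) K) (η3 : Fin s3 → Fin β → ℕ)
    {E1 E2 E3 : Type} [Fintype E2] [Fintype E3]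
    (g : E1 → MvPolynomial (Option (Fin β) × Fin n) K)
    (f2 : E2 → MvPolynomial (Option (Fin β) × Fin n) K) (δ2 : E2 → Option (Fin β) → ℕ)
    (hf2 : ∀ i, MH (δ2 i) (f2 i))
    (f3 : E3 → MvPolynomial (Option (Fin β) × Fin n) K) (δ3 : E3 → Option (Fin β) → ℕ)
    (hη2 : ∀ i, MH (η2 i) (h2 i)) {N2 M2 : ℕ} {A2 : Finset K} (hM2 : 1 ≤ M2)
    (hl2 : ∀ (w : AbsoluteValue K ℝ) (t : Fin n → K) (P : Bp A K), t ≠ 0 →
      (∀ i, ev (g i) (fl t P) = 0) →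
      (⨆ i, nvW w (η2 i) (h2 i) (vc P)) ^ N2 ≤ kap A2 M2 1 w * ⨆ i, nvW w (δ2 i) (f2 i) (fl t P))
    {N3 M3 : ℕ} {A3 : Finset K} (hM3 : 1 ≤ M3)
    (hl3 : ∀ (w : AbsoluteValue K ℝ) (t : Fin n → K) (P : Bp A K), t ≠ 0 →
      (∀ i, ev (g i) (fl t P) = 0) →
      (⨆ i, nvW w (η3 i) (h3 i) (vc P)) ^ N3 ≤ kap A3 M3 1 w * ⨆ i, nvW w (δ3 i) (f3 i) (fl t P))
    (S1 : Finset (InfinitePlace K)) (S2 : Finset (FinitePlace K))
    (w1 : AbsoluteValue K ℝ) (ε : ℝ) (hε : 0 < ε) (κ : ℝ) (hκ : 0 < κ) :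
    ∃ ε2 : ℝ, 0 < ε2 ∧ ∃ ε3 : ℝ, 0 < ε3 ∧ ∃ T1 : ℝ, ∀ T : ℝ, T1 ≤ T → 1 ≤ T →
      ∀ P ∈ ExcG Γ g f2 δ2 f3 δ3 S1 S2 ε T, κ * T ≤ ht P → P ∈ BadG Γ η2 h2 ε2 T ∪
          (BadA Γ w1 η3 h3 ε3 T ∪ ((⋃ v ∈ S1, BadA Γ (ai v) η3 h3 ε3 T) ∪
            ⋃ v ∈ S2, BadA Γ (av v) η3 h3 ε3 T)) := by
  classical
  obtain ⟨ck2, hck20, hck2⟩ := tot_kap A2 hM2 1
  set dK : ℝ := (Module.finrank ℚ K : ℝ) with hdK
  set σ1 : ℝ := ∑ v ∈ S1, (v.mult : ℝ) with hσ1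
  set σ2 : ℝ := (S2.card : ℝ) with hσ2
  have hσ10 : 0 ≤ σ1 := Finset.sum_nonneg (fun _ _ => Nat.cast_nonneg _)
  have hσ20 : 0 ≤ σ2 := Nat.cast_nonneg _
  set c3 : ℝ := ∑ v ∈ S1, (v.mult : ℝ) * Real.log (kap A3 M3 1 (ai v)) +
    ∑ v ∈ S2, Real.log (kap A3 M3 1 (av v)) with hc3
  set ε' : ℝ := ε * κ with hε'
  have hε'0 : 0 < ε' := mul_pos hε hκ
  set ε2 : ℝ := ε' / (4 * (N2 + 1)) with hε2
  set ε3 : ℝ := ε' / (4 * (N3 + 1) * (σ1 + σ2 + 1)) with hε3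
  have hε20 : 0 < ε2 := by positivity
  have hε30 : 0 < ε3 := by positivity
  refine ⟨ε2, hε20, ε3, hε30, 2 * (ck2 * dK + c3) / ε', fun T hT1 hT P hP hsum => ?_⟩
  by_contra hcon
  simp only [Set.mem_union, Set.mem_iUnion, not_or, not_exists] at hcon
  obtain ⟨hc1, hc2, hc3', hc4⟩ := hcon
  obtain ⟨huB, t, ht0, hgt, hbad⟩ := hP
  have hu0 : ∀ i, vc P i ≠ 0 := fun i => vc_ne_zero P i
  -- the first set
  have hne2 : ∃ i, ev (h2 i) (vc P) ≠ 0 := by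
    by_contra h
    push Not at h
    exact hc1 ⟨huB, Or.inl h⟩
  have htot2 : tot (lam0 η2 h2 (vc P)) ≤ ε2 * T := by
    by_contra h
    push Not at h
    exact hc1 ⟨huB, Or.inr h⟩
  have hcmp2 : ∀ w, 0 < (⨆ i, nvW w (δ2 i) (f2 i) (fl t P)) ∧
      lamx δ2 f2 (fl t P) w ≤ N2 * lam0 η2 h2 (vc P) w + Real.log (kap A2 M2 1 w) := fun w =>
    lamx_le hM2 w (hl2 w t P ht0 hgt) (sup_nvW_pos w η2 h2 hu0 hne2)
  have hne2' : ∃ i, ev (f2 i) (fl t P) ≠ 0 := exists_of_sup_pos w1 δ2 f2 (hcmp2 w1).1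
  have hful : ∀ o, fl t P o ≠ 0 := fl_ne_zero ht0 P
  have hFl : FS (lam0 η2 h2 (vc P)) := FS_lam0 η2 h2 hη2 hu0 hne2
  have hW : tot (lamx δ2 f2 (fl t P)) ≤ N2 * (ε2 * T) + ck2 * dK := by
    have h1 : tot (lamx δ2 f2 (fl t P)) ≤
        tot (fun w => N2 * lam0 η2 h2 (vc P) w + Real.log (kap A2 M2 1 w)) := by
      refine tot_le ?_ (FS_add (FS_mul hFl _) (hck2 K).1) (fun w => (hcmp2 _).2)
        (fun w => (hcmp2 _).2)
      exact FS_neg (FS_logsup δ2 f2 hf2 hful hne2')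
    rw [tot_add (FS_mul hFl _) (hck2 K).1, tot_mul hFl] at h1
    have h3 := (hck2 K).2
    have h4 := mul_le_mul_of_nonneg_left htot2 (Nat.cast_nonneg (α := ℝ) N2)
    linarith
  -- the second set
  have hpos3 : ∀ w, P ∉ BadA Γ w η3 h3 ε3 T → 0 < (⨆ i, nvW w (η3 i) (h3 i) (vc P)) ∧
      lam0 η3 h3 (vc P) w ≤ ε3 * T := by
    intro w hw
    have h1 : Real.exp (-(ε3 * T)) < ⨆ i, nvW w (η3 i) (h3 i) (vc P) := by
      by_contra h
      exact hw ⟨huB, not_lt.mp h⟩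
    refine ⟨(Real.exp_pos _).trans h1, max_le (by positivity) ?_⟩
    have h2 := Real.log_le_log (Real.exp_pos _) h1.le
    rw [Real.log_exp] at h2
    linarith
  have hcmp3 : ∀ w, P ∉ BadA Γ w η3 h3 ε3 T → 0 < (⨆ i, nvW w (δ3 i) (f3 i) (fl t P)) ∧
      lamx δ3 f3 (fl t P) w ≤ N3 * (ε3 * T) + Real.log (kap A3 M3 1 w) := by
    intro w hw
    obtain ⟨h1, h2⟩ := hpos3 w hw
    obtain ⟨h3, h4⟩ := lamx_le hM3 w (hl3 w t P ht0 hgt) h1
    have h5 := mul_le_mul_of_nonneg_left h2 (Nat.cast_nonneg (α := ℝ) N3)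
    exact ⟨h3, by linarith⟩
  have hne3' : ∃ i, ev (f3 i) (fl t P) ≠ 0 := exists_of_sup_pos w1 δ3 f3 (hcmp3 w1 hc2).1
  have hPr : prox δ3 f3 S1 S2 (fl t P) ≤ (σ1 + σ2) * (N3 * (ε3 * T)) + c3 := by
    have h1 : ∑ v ∈ S1, (v.mult : ℝ) * lamx δ3 f3 (fl t P) (ai v) ≤
        ∑ v ∈ S1, ((v.mult : ℝ) * (N3 * (ε3 * T)) +
          (v.mult : ℝ) * Real.log (kap A3 M3 1 (ai v))) := by
      refine Finset.sum_le_sum (fun v hv => ?_)
      rw [← mul_add]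
      exact mul_le_mul_of_nonneg_left (hcmp3 _ (hc3' v hv)).2 (Nat.cast_nonneg _)
    have h2 : ∑ v ∈ S2, lamx δ3 f3 (fl t P) (av v) ≤
        ∑ v ∈ S2, (N3 * (ε3 * T) + Real.log (kap A3 M3 1 (av v))) :=
      Finset.sum_le_sum (fun v hv => (hcmp3 _ (hc4 v hv)).2)
    rw [Finset.sum_add_distrib, ← Finset.sum_mul] at h1
    rw [Finset.sum_add_distrib, Finset.sum_const, nsmul_eq_mul] at h2
    unfold prox
    rw [hc3]
    have h5 : (σ1 + σ2) * (N3 * (ε3 * T)) = σ1 * (N3 * (ε3 * T)) + σ2 * (N3 * (ε3 * T)) := by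
      ring
    linarith
  rcases hbad with h | h | h
  · obtain ⟨i, hi⟩ := hne2'
    exact hi (h i)
  · obtain ⟨i, hi⟩ := hne3'
    exact hi (h i)
  · have hT0 : 0 < T := one_pos.trans_le hT
    have h1 : (N2 : ℝ) * (ε2 * T) ≤ ε' / 4 * T := by
      have : (N2 : ℝ) * ε2 ≤ ε' / 4 := by
        rw [hε2, mul_div_assoc', div_le_div_iff₀ (by positivity) (by positivity)]
        nlinarith
      nlinarith
    have h2 : (σ1 + σ2) * (N3 * (ε3 * T)) ≤ ε' / 4 * T := by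
      have h3 : (σ1 + σ2) * N3 * ε3 ≤ ε' / 4 := by
        rw [hε3, mul_div_assoc', div_le_div_iff₀ (by positivity) (by positivity)]
        have h4 : (σ1 + σ2) * N3 ≤ (σ1 + σ2 + 1) * (N3 + 1) := by
          have : (0 : ℝ) ≤ N3 := Nat.cast_nonneg _
          nlinarith
        nlinarith
      nlinarith
    have h5 : ε' * T ≤ ε * ht P := by
      rw [hε', mul_assoc]
      exact mul_le_mul_of_nonneg_left hsum hε.le
    rw [div_le_iff₀ hε'0] at hT1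
    nlinarith

/-- **Almost all points.** -/
theorem finG (hgp : T_gp) (hde : T_dense) (hcn : T_cnt) (hhy : T_hyp) (hto : T_top)
    (hre : T_redG) (hcomb : T_comb) (A : Fin β → AbV K n) (hA : Top A)
    (Γ : AddSubgroup (Bp A K)) (hFG : Γ.FG) (hD : DenseB A Γ) (hr : Module.finrank ℤ Γ ≠ 0)
    {E1 E2 E3 : Type} [Fintype E1] [Fintype E2] [Fintype E3]
    (g : E1 → MvPolynomial (Option (Fin β) × Fin n) K) (hgh : ∀ i, ∃ γ, MH γ (g i))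
    (f2 : E2 → MvPolynomial (Option (Fin β) × Fin n) K) (δ2 : E2 → Option (Fin β) → ℕ)
    (hf2 : ∀ i, MH (δ2 i) (f2 i))
    (f3 : E3 → MvPolynomial (Option (Fin β) × Fin n) K) (δ3 : E3 → Option (Fin β) → ℕ)
    (hf3 : ∀ i, MH (δ3 i) (f3 i))
    (hc2 : ∀ (F : Type) [Field F] [Algebra K F] (t : Fin n → F) (P : Bp A F), t ≠ 0 →
      (∀ i, ev (g i) (fl t P) = 0) → (∀ i, ev (f2 i) (fl t P) = 0) →
      td (K := K) (vc P) + ((2 : ℕ) : Cardinal) ≤ ((∑ b, (A b).dim : ℕ) : Cardinal))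
    (hc3 : ∀ (F : Type) [Field F] [Algebra K F] (t : Fin n → F) (P : Bp A F), t ≠ 0 →
      (∀ i, ev (g i) (fl t P) = 0) → (∀ i, ev (f3 i) (fl t P) = 0) →
      td (K := K) (vc P) + ((1 : ℕ) : Cardinal) ≤ ((∑ b, (A b).dim : ℕ) : Cardinal))
    (S1 : Finset (InfinitePlace K)) (S2 : Finset (FinitePlace K)) (ε : ℝ) (hε : 0 < ε) :
    Small ((Module.finrank ℤ Γ : ℝ) / 2) (ExcG Γ g f2 δ2 f3 δ3 S1 S2 ε) := by
  classical
  set r : ℝ := (Module.finrank ℤ Γ : ℝ) / 2 with hrdef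
  have hr0 : 0 < r := by
    have : (0 : ℝ) < Module.finrank ℤ Γ := by exact_mod_cast Nat.pos_of_ne_zero hr
    positivity
  obtain ⟨c1, c2, T0, hc1, hT0, hcnt⟩ := hcn K n β A Γ hFG
  obtain ⟨s2, h2, η2, hη2, hcd2, N2, M2, A2, hM2, hl2⟩ := hre K n β A E1 E2 g hgh f2 δ2 hf2 2 hc2
  obtain ⟨s3, h3, η3, hη3, hcd3, N3, M3, A3, hM3, hl3⟩ := hre K n β A E1 E3 g hgh f3 δ3 hf3 1 hc3
  set w1 : AbsoluteValue K ℝ := ai (Classical.arbitrary (InfinitePlace K)) with hw1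
  intro η hη
  -- the small ball
  obtain ⟨κ, hκ0, hκ1, hκ⟩ : ∃ κ : ℝ, 0 < κ ∧ κ ≤ 1 ∧ |c2| * κ ^ r ≤ η / 2 := by
    set x : ℝ := min 1 (η / (2 * (|c2| + 1))) with hx
    have hx0 : 0 < x := lt_min one_pos (by positivity)
    refine ⟨x ^ (1 / r), Real.rpow_pos_of_pos hx0 _, ?_, ?_⟩
    · exact Real.rpow_le_one hx0.le (min_le_left _ _) (by positivity)
    · rw [← Real.rpow_mul hx0.le, one_div, inv_mul_cancel₀ hr0.ne', Real.rpow_one]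
      have h1 : x ≤ η / (2 * (|c2| + 1)) := min_le_right _ _
      calc |c2| * x ≤ (|c2| + 1) * (η / (2 * (|c2| + 1))) :=
            mul_le_mul (by linarith) h1 hx0.le (by positivity)
        _ = η / 2 := by
            have : |c2| + 1 ≠ 0 := by positivity
            field_simp
  obtain ⟨ε2, hε2, ε3, hε3, T1, hsc⟩ := scaleG Γ h2 η2 h3 η3 g f2 δ2 hf2 f3 δ3 hη2 hM2 hl2
    hM3 hl3 S1 S2 w1 ε hε κ hκ0
  have hGfin : ∀ T, T0 ≤ T → (GB Γ T).Finite := fun T hT => (hcnt T hT).1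
  have hsA : Small r (BadG Γ η2 h2 ε2) := by
    intro η' hη'
    obtain ⟨T2, hT2⟩ := allplaces hgp hde hcn hhy hto hcomb A hA Γ hFG hD h2 η2 hη2 hcd2 ε2 hε2
      η' hη'
    exact ⟨max T0 T2, fun T hT => ⟨(hGfin T ((le_max_left _ _).trans hT)).subset
      (fun P hP => hP.1), hT2 T ((le_max_right _ _).trans hT)⟩⟩
  have hsB : ∀ w, Small r (BadA Γ w η3 h3 ε3) := by
    intro w η' hη'
    obtain ⟨T2, hT2⟩ := oneplace hgp hde hcn A Γ hFG hD h3 η3 hη3 hcd3 w ε3 hε3 η' hη'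
    exact ⟨max T0 T2, fun T hT => ⟨(hGfin T ((le_max_left _ _).trans hT)).subset
      (fun P hP => hP.1), hT2 T ((le_max_right _ _).trans hT)⟩⟩
  have hsU := hsA.union ((hsB w1).union
    ((Small.biUnion S1 (fun v => hsB (ai v))).union (Small.biUnion S2 (fun v => hsB (av v)))))
  obtain ⟨T3, hT3⟩ := hsU (η / 2) (by positivity)
  refine ⟨max (max (T0 / κ) T1) (max T3 (max 1 T0)), fun T hT => ?_⟩
  have hTT0 : T0 / κ ≤ T := (le_max_left _ _).trans ((le_max_left _ _).trans hT)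
  have hTT1 : T1 ≤ T := (le_max_right _ _).trans ((le_max_left _ _).trans hT)
  have hTT3 : T3 ≤ T := (le_max_left _ _).trans ((le_max_right _ _).trans hT)
  have hT1' : 1 ≤ T := (((le_max_left _ _).trans (le_max_right _ _)).trans (le_max_right _ _)).trans hT
  have hT00 : T0 ≤ T := (((le_max_right 1 T0).trans (le_max_right _ _)).trans (le_max_right _ _)).trans hT
  have hTpos : 0 < T := one_pos.trans_le hT1'
  rw [div_le_iff₀ hκ0] at hTT0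
  obtain ⟨hf1, -, hb1⟩ := hcnt (κ * T) (by linarith)
  obtain ⟨hf2', hb2⟩ := hT3 T hTT3
  have hsub : ExcG Γ g f2 δ2 f3 δ3 S1 S2 ε T ⊆ GB Γ (κ * T) ∪ (BadG Γ η2 h2 ε2 T ∪
          (BadA Γ w1 η3 h3 ε3 T ∪ ((⋃ v ∈ S1, BadA Γ (ai v) η3 h3 ε3 T) ∪
            ⋃ v ∈ S2, BadA Γ (av v) η3 h3 ε3 T))) := by
    intro P hP
    rcases le_total (ht P) (κ * T) with h | h
    · exact Or.inl ⟨hP.1.1, h⟩
    · exact Or.inr (hsc T hTT1 hT1' P hP h)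
  refine ⟨(hf1.union hf2').subset hsub, ?_⟩
  have h1 : ((ExcG Γ g f2 δ2 f3 δ3 S1 S2 ε T).ncard : ℝ) ≤ ((GB Γ (κ * T)).ncard : ℝ) +
      ((BadG Γ η2 h2 ε2 T ∪ (BadA Γ w1 η3 h3 ε3 T ∪ ((⋃ v ∈ S1, BadA Γ (ai v) η3 h3 ε3 T) ∪
            ⋃ v ∈ S2, BadA Γ (av v) η3 h3 ε3 T))).ncard : ℝ) := by
    exact_mod_cast (Set.ncard_le_ncard hsub (hf1.union hf2')).trans (Set.ncard_union_le _ _)
  have h4 : ((GB Γ (κ * T)).ncard : ℝ) ≤ η / 2 * T ^ r := by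
    refine hb1.trans ?_
    rw [Real.mul_rpow hκ0.le hTpos.le, ← mul_assoc]
    refine mul_le_mul_of_nonneg_right ?_ (Real.rpow_nonneg hTpos.le _)
    refine le_trans ?_ hκ
    exact mul_le_mul_of_nonneg_right (le_abs_self _) (Real.rpow_nonneg hκ0.le _)
  linarith

end Pool.Agent.TH954.Z
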